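import Pool.Agent.Lib.Par_H15.Span

/-! # Equivariance -/

set_option autoImplicit false

open Pool.Agent.H15Model

namespace Pool.Agent.H15Par

section Phi

variable {F K : Type} [Field F] [Field K] [Algebra F K] {Q h : ℕ}

/-- The homomorphism `x ↦ x ^ (Q ^ m)`. -/
noncomputable def phi (hQ : Fr K Q) (m : ℕ) : F →+* K where
  toFun x := algebraMap F K x ^ (Q ^ m)
  map_one' := by simp
  map_mul' := by intro x y; rw [map_mul, mul_pow]
  map_zero' := by rw [map_zero, zero_pow (pow_ne_zero _ hQ.pos)]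
  map_add' := by intro x y; rw [map_add, hQ.pow_aux]

lemma phi_apply (hQ : Fr K Q) (m : ℕ) (x : F) : phi hQ m x = algebraMap F K x ^ (Q ^ m) := rfl

lemma phi_pow (hQ : Fr K Q) (m r : ℕ) (x : F) :
    phi hQ m x ^ (Q ^ r) = phi (F := F) hQ (m + r) x := by
  rw [phi_apply, phi_apply, ← pow_mul, ← pow_add]

lemma phi_zero (hQ : Fr K Q) (x : F) : phi hQ 0 x = algebraMap F K x := by
  rw [phi_apply, pow_zero, pow_one]

variable [Fintype F]

lemma phi_mod (hQ : Fr K Q) (hq : Fintype.card F = Q ^ h) (m : ℕ) (x : F) :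
    phi hQ m x = phi (F := F) hQ (m % h) x := by
  rw [phi_apply, phi_apply, ← map_pow, ← map_pow]
  congr 1
  conv_lhs => rw [← Nat.div_add_mod m h, pow_add, pow_mul, pow_mul Q h, ← hq,
    FiniteField.pow_card_pow]

lemma phi_congr (hQ : Fr K Q) (hq : Fintype.card F = Q ^ h) {m m' : ℕ}
    (hm : (m : ZMod h) = (m' : ZMod h)) (x : F) : phi hQ m x = phi (F := F) hQ m' x := by
  rw [phi_mod hQ hq m x, phi_mod hQ hq m' x]
  rw [ZMod.natCast_eq_natCast_iff'] at hm
  rw [hm]

end Phi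

section Eqv

variable {F K : Type} [Field F] [Fintype F] [Field K] [Algebra F K] {Q h : ℕ}
variable {L R I : Type} [Fintype R] [Fintype I] [DecidableEq I]
variable {v : L → R → K} {a : L → ℕ} {c : ZMod h → I → L × ℕ} {d : L → ℕ} {f : I → R}
variable {σ : K →+* K} {u : R → R → F}

/-- The homomorphism `σ` acts on the columns by the twists of the matrix `u`. -/
def Eqv (hQ : Fr K Q) (σ : K →+* K) (u : R → R → F) (v : L → R → K) (a : L → ℕ) : Prop :=
  ∀ l i, σ (v l i) = ∑ j, phi hQ (a l) (u i j) * v l j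

omit [Fintype F] in
lemma Eqv.mon {hQ : Fr K Q} (hE : Eqv hQ σ u v a) (x : L × ℕ) (i : R) :
    σ (mon Q v x i) = ∑ j, phi hQ (a x.1 + x.2) (u i j) * mon Q v x j := by
  change σ (v x.1 i ^ Q ^ x.2) = _
  rw [map_pow, hE, hQ.sum_pow_pow]
  refine Finset.sum_congr rfl fun j _ => ?_
  rw [mul_pow, phi_pow]
  rfl

lemma Eqv.mon' {hQ : Fr K Q} (hq : Fintype.card F = Q ^ h) (hE : Eqv hQ σ u v a) (x : L × ℕ)
    {m : ℕ} (hm : (m : ZMod h) = dg h a x) (i : R) :
    σ (H15Par.mon Q v x i) = ∑ j, phi hQ m (u i j) * H15Par.mon Q v x j := by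
  rw [hE.mon]
  refine Finset.sum_congr rfl fun j _ => ?_
  rw [phi_congr hQ hq (m' := m) (by rw [hm]; rfl)]

lemma Eqv.nx {hQ : Fr K Q} (hq : Fintype.card F = Q ^ h) (hE : Eqv hQ σ u v a)
    (hv : Valid a c d)
    (hco : ∀ l s, σ (co Q v c f (dg h a (l, d l)) (H15Par.mon Q v (l, d l)) s) =
      co Q v c f (dg h a (l, d l)) (H15Par.mon Q v (l, d l)) s) :
    Eqv hQ σ u (H15Par.nx Q v a c d f) (na a d) := by
  intro l i
  have hm : (((a l + d l : ℕ)) : ZMod h) = dg h a (l, d l) := rfl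
  unfold H15Par.nx
  rw [rd_apply]
  simp only [Pi.sub_apply, Finset.sum_apply, Pi.smul_apply, smul_eq_mul]
  rw [map_sub, map_sum]
  simp only [map_mul, hco]
  have h1 : σ (H15Par.mon Q v (l, d l) i) = ∑ j, phi hQ (a l + d l) (u i j) *
      H15Par.mon Q v (l, d l) j := hE.mon' hq (l, d l) hm i
  have h2 : ∀ s, σ (H15Par.mon Q v (c (dg h a (l, d l)) s) i) =
      ∑ j, phi hQ (a l + d l) (u i j) * H15Par.mon Q v (c (dg h a (l, d l)) s) j := by
    intro s
    refine hE.mon' hq _ ?_ i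
    rw [hv.deg]; exact hm
  simp_rw [h1, h2]
  simp_rw [Finset.mul_sum]
  rw [Finset.sum_comm, ← Finset.sum_sub_distrib]
  refine Finset.sum_congr rfl fun j _ => ?_
  change _ = phi hQ (a l + d l) (u i j) * _
  rw [mul_sub, Finset.mul_sum]
  congr 1
  refine Finset.sum_congr rfl fun s _ => by ring

omit [Fintype F] [DecidableEq I] in
lemma sum_block (hQ : Fr K Q) (hf : Function.Injective f)
    (hz : ∀ (i : I) (j : R), (∀ i', j ≠ f i') → (∀ l, v l j = 0) ∨ u (f i) j = 0)
    (x : L × ℕ) (m : ℕ) (i : I) :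
    ∑ j, phi hQ m (u (f i) j) * mon Q v x j =
      ∑ i', phi hQ m (u (f i) (f i')) * mon Q v x (f i') := by
  symm
  apply Fintype.sum_of_injective f hf
  · intro j hj
    rcases hz i j (fun i' hi' => hj ⟨i', hi'.symm⟩) with h1 | h1
    · have h2 : mon Q v x j = 0 := by
        change v x.1 j ^ Q ^ x.2 = 0
        rw [h1, zero_pow (pow_ne_zero _ hQ.pos)]
      rw [h2, mul_zero]
    · rw [h1, map_zero, zero_mul]
  · intro i'; rfl

/-- The block of the matrix. -/
def blk (u : R → R → F) (f : I → R) : Matrix I I F := Matrix.of fun i i' => u (f i) (f i')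

omit [Fintype F] [DecidableEq I] in
lemma map_Dl (hQ : Fr K Q) (hf : Function.Injective f)
    (hz : ∀ (i : I) (j : R), (∀ i', j ≠ f i') → (∀ l, v l j = 0) ∨ u (f i) j = 0) {m : ℕ}
    (N : Matrix I I K) (y : I → L × ℕ) (hN : N = Matrix.of fun i t => mon Q v (y t) (f i))
    (hE : ∀ t i, σ (mon Q v (y t) (f i)) = ∑ j, phi hQ m (u (f i) j) * mon Q v (y t) j) :
    N.map σ = (blk u f).map (phi hQ m) * N := by
  ext i t
  rw [Matrix.map_apply, Matrix.mul_apply, hN]
  simp only [Matrix.of_apply, Matrix.map_apply, blk]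
  rw [hE t i, sum_block hQ hf hz]

/-- The coordinates of the monomials are fixed. -/
lemma fix_co {hQ : Fr K Q} (hq : Fintype.card F = Q ^ h) [NeZero h] (hE : Eqv hQ σ u v a)
    (hv : Valid a c d) (hc : ∀ j, (Dl Q v c f j).det ≠ 0) (hf : Function.Injective f)
    (hz : ∀ (i : I) (j : R), (∀ i', j ≠ f i') → (∀ l, v l j = 0) ∨ u (f i) j = 0)
    (hdet : (blk u f).det ≠ 0) (x : L × ℕ) (s : I) :
    σ (co Q v c f (dg h a x) (mon Q v x) s) = co Q v c f (dg h a x) (mon Q v x) s := by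
  obtain ⟨m, hm⟩ : ∃ m : ℕ, (m : ZMod h) = dg h a x := ⟨_, ZMod.natCast_zmod_val _⟩
  obtain ⟨U, hU⟩ : ∃ U, U = (blk u f).map (phi (K := K) hQ m) := ⟨_, rfl⟩
  have hUdet : IsUnit U.det := by
    rw [isUnit_iff_ne_zero, hU]
    have h1 : ((blk u f).map (phi (K := K) hQ m)).det = phi hQ m (blk u f).det := by
      rw [RingHom.map_det]; rfl
    rw [h1, Ne, map_eq_zero]
    exact hdet
  have h1 : co Q v c f (dg h a x) (mon Q v x) =
      fun t => σ (co Q v c f (dg h a x) (mon Q v x) t) := by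
    apply co_unique (hc _)
    have h2 : U.mulVec (fun i => mon Q v x (f i)) = U.mulVec (fun i =>
        ∑ t, σ (co Q v c f (dg h a x) (mon Q v x) t) * mon Q v (c (dg h a x) t) (f i)) := by
      funext i
      have h3 : U.mulVec (fun i => mon Q v x (f i)) i = σ (mon Q v x (f i)) := by
        rw [hE.mon' hq x hm, sum_block hQ hf hz, hU]
        rfl
      rw [h3]
      conv_lhs => rw [sum_co (hc (dg h a x)) (mon Q v x) i]
      rw [map_sum]
      simp only [map_mul]
      have h4 : ∀ t, σ (mon Q v (c (dg h a x) t) (f i)) =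
          ∑ i', U i i' * mon Q v (c (dg h a x) t) (f i') := by
        intro t
        rw [hE.mon' hq (c (dg h a x) t) (m := m) (by rw [hv.deg]; exact hm),
          sum_block hQ hf hz, hU]
        rfl
      simp_rw [h4]
      simp only [Matrix.mulVec, dotProduct]
      simp_rw [Finset.mul_sum]
      rw [Finset.sum_comm]
      refine Finset.sum_congr rfl fun i' _ => Finset.sum_congr rfl fun t _ => by ring
    have h5 := congrArg (U⁻¹.mulVec) h2
    rw [Matrix.mulVec_mulVec, Matrix.mulVec_mulVec, Matrix.nonsing_inv_mul _ hUdet,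
      Matrix.one_mulVec, Matrix.one_mulVec] at h5
    intro i
    exact congrFun h5 i
  exact (congrFun h1 s).symm

/-- The determinant in degree `0`. -/
lemma map_det_Dl {hQ : Fr K Q} (hq : Fintype.card F = Q ^ h) (hE : Eqv hQ σ u v a)
    (hv : Valid a c d) (hf : Function.Injective f)
    (hz : ∀ (i : I) (j : R), (∀ i', j ≠ f i') → (∀ l, v l j = 0) ∨ u (f i) j = 0) :
    σ (Dl Q v c f 0).det = algebraMap F K (blk u f).det * (Dl Q v c f 0).det := by
  have h1 := map_Dl (σ := σ) hQ hf hz (m := 0) (Dl Q v c f 0) (c 0) rfl (fun t i => by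
    apply hE.mon' hq (c 0 t)
    rw [hv.deg]
    simp)
  have h2 : σ (Dl Q v c f 0).det = ((Dl Q v c f 0).map σ).det := by
    rw [RingHom.map_det]; rfl
  have h3 : ((blk u f).map (phi (K := K) hQ 0)).det = algebraMap F K (blk u f).det := by
    rw [← phi_zero hQ, RingHom.map_det]; rfl
  rw [h2, h1, Matrix.det_mul, h3]

end Eqv

section Stage

variable {F K : Type} [Field F] [Fintype F] [Field K] [Algebra F K] {h : ℕ}
variable {L R : Type} [Fintype R] [DecidableEq R]
variable {S : Sys K L R} {X : Cht L R h} {σ : K →+* K} {u : R → R → F}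

omit [Fintype R] [DecidableEq R] [Field K] in
lemma f_inj (S : Sys K L R) (t : ℕ) : Function.Injective (S.f t) := Subtype.val_injective

lemma eqv_st {hQ : Fr K S.Q} (hF : Forest S.anc) (hq : Fintype.card F = S.Q ^ h)
    (hE : Eqv hQ σ u S.v S.a) (T : ℕ) {s : ℕ} (hX : ∀ r < s, S.Good X r)
    (hG : ∀ r < s, ∀ l t, σ (co S.Q (S.w X r) (S.c X r) (S.f r) (dg h (S.b X r) (l, X.D r l))
      (mon S.Q (S.w X r) (l, X.D r l)) t) = co S.Q (S.w X r) (S.c X r) (S.f r)
        (dg h (S.b X r) (l, X.D r l)) (mon S.Q (S.w X r) (l, X.D r l)) t) :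
    Eqv hQ σ u (S.st X T s).1 (S.st X T s).2 := by
  induction s with
  | zero => exact hE
  | succ s ih =>
    have ih' := ih (fun r hr => hX r (by omega)) (fun r hr => hG r (by omega))
    by_cases hs : S.anc s T
    · rw [st_eq_w hF hs] at ih'
      rw [st_succ_anc hF hs]
      exact ih'.nx hq (hX s (by omega)).valid (hG s (by omega))
    · rw [st_succ_not hs]
      exact ih'

/-- The support of the matrices: a nonzero entry `u i j` lies in the row of a block above. -/
def Supp (S : Sys K L R) (u : R → R → F) : Prop :=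
  ∀ i j, u i j ≠ 0 → S.β j = S.β i ∨ S.anc (S.β j) (S.β i)

omit [Fintype F] [Algebra F K] in
lemma block_zero (hQ : Fr K S.Q) (hF : Forest S.anc) (hu : Supp S u) {t : ℕ}
    (hX : ∀ r < t, S.Good X r) (i : S.Blk t) (j : R) (hj : ∀ i', j ≠ S.f t i') :
    (∀ l, S.w X t l j = 0) ∨ u (S.f t i) j = 0 := by
  by_cases h0 : u (S.f t i) j = 0
  · exact Or.inr h0
  · left
    intro l
    have hit : S.β (S.f t i) = t := i.2
    rcases hu _ _ h0 with h1 | h1
    · exact absurd rfl (hj ⟨j, by rw [h1]; exact hit⟩)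
    · rw [hit] at h1
      exact st_vanish hQ hF t hX (hF.lt h1) h1 l

/-- The elements of the chart ring are fixed by the matrices of the group. -/
lemma fix_G [NeZero h] {hQ : Fr K S.Q} (hF : Forest S.anc) (hq : Fintype.card F = S.Q ^ h)
    (hE : Eqv hQ σ u S.v S.a) (hu : Supp S u) (hdet : ∀ t, (blk u (S.f t)).det ≠ 0)
    (hsp : ∀ t, S.S t → (blk u (S.f t)).det ^ S.e t = 1) {N : ℕ}
    (hX : ∀ r < N, S.Good X r) : ∀ t < N, ∀ z ∈ S.G X t, σ z = z := by
  intro t
  induction t using Nat.strong_induction_on with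
  | _ t ih =>
    intro ht
    have hEt : Eqv hQ σ u (S.w X t) (S.b X t) := eqv_st hF hq hE t
      (fun r hr => hX r (by omega)) (fun r hr l s => ih r hr (by omega) _ (co_mem_G r l s))
    have hz := block_zero (X := X) hQ hF hu (t := t) (fun r hr => hX r (by omega))
    rintro z (⟨⟨l, s⟩, rfl⟩ | ⟨hS, rfl⟩)
    · exact fix_co hq hEt (hX t ht).valid (hX t ht).det (f_inj S t) hz (hdet t) _ s
    · rw [map_pow, map_det_Dl hq hEt (hX t ht).valid (f_inj S t) hz, mul_pow,
        ← map_pow, hsp t hS, map_one, one_mul]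

/-- An automorphism which fixes the chart ring acts by a matrix of the group. -/
lemma special_of_fix [NeZero h] {hQ : Fr K S.Q} (hF : Forest S.anc)
    (hq : Fintype.card F = S.Q ^ h)
    (hE : Eqv hQ σ u S.v S.a) (hu : Supp S u) {N : ℕ}
    (hX : ∀ r < N, S.Good X r) (hG : ∀ t < N, ∀ z ∈ S.G X t, σ z = z) {t : ℕ} (ht : t < N)
    (hS : S.S t) : (blk u (S.f t)).det ^ S.e t = 1 := by
  have hEt : Eqv hQ σ u (S.w X t) (S.b X t) := eqv_st hF hq hE t
    (fun r hr => hX r (by omega)) (fun r hr l s => hG r (by omega) _ (co_mem_G r l s))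
  have hz := block_zero (X := X) hQ hF hu (t := t) (fun r hr => hX r (by omega))
  have h1 := hG t ht _ (Or.inr ⟨hS, rfl⟩)
  rw [map_pow, map_det_Dl hq hEt (hX t ht).valid (f_inj S t) hz, mul_pow,
    ← map_pow] at h1
  have h2 : (Dl S.Q (S.w X t) (S.c X t) (S.f t) 0).det ^ S.e t ≠ 0 :=
    pow_ne_zero _ ((hX t ht).det 0)
  have h3 : algebraMap F K ((blk u (S.f t)).det ^ S.e t) = algebraMap F K 1 := by
    rw [map_one]
    exact mul_right_cancel₀ h2 (by rw [one_mul]; exact h1)
  exact (algebraMap F K).injective h3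

end Stage

end Pool.Agent.H15Par
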