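import Pool.Agent.Lib.Flag_H15.Gal
import Pool.Agent.Lib.Par_H15.Eqv

/-! # The Galois lemma for a family of additive polynomials -/

set_option autoImplicit false

open Polynomial

namespace Pool.Agent.H15Par

section Ev

variable {F K : Type} [Field F] [Field K] [Algebra F K] {R : Type} [Fintype R]

/-- The linear combinations with coefficients in the finite field. -/
noncomputable def ev (y : R → K) (α : R → F) : K := ∑ i, algebraMap F K (α i) * y i

open Classical in
/-- The extension by zero. -/
noncomputable def ext0 {m : ℕ} (P : R → Prop) (e : Fin m ≃ {j // P j}) (α : Fin m → F) : R → F :=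
  fun j => if hj : P j then α (e.symm ⟨j, hj⟩) else 0

lemma ev_ext0 {m : ℕ} (P : R → Prop) (e : Fin m ≃ {j // P j}) (y : R → K) (α : Fin m → F) :
    H15Flag.ev (fun s => y (e s).1) α = ev y (ext0 P e α) := by
  unfold H15Flag.ev ev
  apply Fintype.sum_of_injective (fun s : Fin m => (e s).1)
  · intro s t hst
    exact e.injective (Subtype.ext hst)
  · intro j hj
    have : ¬ P j := by
      intro h
      exact hj ⟨e.symm ⟨j, h⟩, by simp⟩
    unfold ext0
    rw [dif_neg this, map_zero, zero_mul]
  · intro s
    unfold ext0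
    rw [dif_pos (e s).2]
    simp

omit [Fintype R] in
lemma ext0_ne_zero {m : ℕ} (P : R → Prop) (e : Fin m ≃ {j // P j}) (α : Fin m → F) {j : R}
    (hj : ext0 P e α j ≠ 0) : P j := by
  by_contra h
  unfold ext0 at hj
  rw [dif_neg h] at hj
  exact hj rfl

lemma ev_restrict_injective {m : ℕ} (P : R → Prop) (e : Fin m ≃ {j // P j}) {y : R → K}
    (hy : Function.Injective (ev (F := F) y)) :
    Function.Injective (H15Flag.ev (F := F) (fun s => y (e s).1)) := by
  intro α β hab
  rw [ev_ext0 P e, ev_ext0 P e] at hab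
  have h1 := hy hab
  funext s
  have h2 := congrFun h1 (e s).1
  unfold ext0 at h2
  rw [dif_pos (e s).2, dif_pos (e s).2] at h2
  simpa using h2

variable [DecidableEq R]

lemma ev_single (y : R → K) (i : R) : ev y (Pi.single i (1 : F)) = y i := by
  unfold ev
  rw [Finset.sum_eq_single i]
  · simp
  · intro j _ hj
    simp [Pi.single_eq_of_ne hj]
  · intro h5; exact absurd (Finset.mem_univ i) h5

end Ev

section Gal

variable {F k : Type} [Field F] [Fintype F] [Field k] [Algebra F k]
variable {R : Type} [Fintype R] [DecidableEq R]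
variable (p H : ℕ) [hp : Fact p.Prime]
variable {K : Type} [Field K] [CharP K p] [Algebra k K] [Algebra F K] [IsScalarTower F k K]

/-- The elements fixed by the automorphisms that act on the entries of a column by the
matrices with a given support. -/
lemma mem_of_fixed_forest (hq : Fintype.card F = p ^ H) (hH : 1 ≤ H) (y : R → K)
    (hy : Function.Injective (ev (F := F) y))
    (E0 : Subfield K) (hk : ∀ a : k, algebraMap k K a ∈ E0)
    (hgen : ∀ S : Subalgebra k K, (∀ z ∈ S, z⁻¹ ∈ S) → (∀ z ∈ E0, z ∈ S) → (∀ i, y i ∈ S) → S = ⊤)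
    (P : R → R → Prop) (hP : ∀ i, P i i)
    (hβ : ∀ i, ∃ b : Fin (Nat.card {j // P i j}) → E0, ∀ j, P i j →
      y j ^ ((p ^ H) ^ (Nat.card {j // P i j})) =
        ∑ r : Fin (Nat.card {j // P i j}), (b r : K) * y j ^ ((p ^ H) ^ (r : ℕ)))
    (w : K)
    (hw : ∀ (σ : K ≃ₐ[E0] K) (u : GL R F), (∀ i j, u.1 i j ≠ 0 → P i j) →
      (∀ i, σ (y i) = ∑ j, algebraMap F _ (u.1 i j) * y j) → σ w = w) :
    w ∈ E0 := by
  classical
  have hq2 : 2 ≤ p ^ H := by
    calc 2 ≤ p := hp.out.two_le
      _ = p ^ 1 := (pow_one p).symm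
      _ ≤ p ^ H := Nat.pow_le_pow_right hp.out.pos hH
  choose b hb using hβ
  have hequiv : ∀ i, Nonempty (Fin (Nat.card {j // P i j}) ≃ {j // P i j}) := fun i =>
    ⟨(Finite.equivFin {j // P i j}).symm⟩
  obtain ⟨e, -⟩ : ∃ e : ∀ i, Fin (Nat.card {j // P i j}) ≃ {j // P i j}, True :=
    ⟨fun i => (hequiv i).some, trivial⟩
  -- the polynomials
  let f : R → E0[X] := fun i => H15Flag.addPoly E0 (p ^ H) (b i)
  have hinj : ∀ i, Function.Injective (H15Flag.ev (F := F) (fun s => y (e i s).1)) := fun i =>
    ev_restrict_injective (P i) (e i) hy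
  have hprod : ∀ i, (f i).map (algebraMap E0 K) =
      ∏ α : Fin (Nat.card {j // P i j}) → F, (X - C (H15Flag.ev (fun s => y (e i s).1) α)) := by
    intro i
    exact H15Flag.addPoly_prod p H hq E0 hq2 (b i) (fun s => y (e i s).1) (hinj i)
      (fun s => hb i (e i s).1 (e i s).2)
  have hf0 : ∀ i, f i ≠ 0 := fun i => (H15Flag.addPoly_monic p H E0 hq2 (b i)).ne_zero
  have hroot : ∀ i, aeval (y i) (f i) = 0 := by
    intro i
    rw [aeval_def, ← eval_map, hprod, eval_prod]
    refine Finset.prod_eq_zero (Finset.mem_univ (Pi.single ((e i).symm ⟨i, hP i⟩) (1 : F))) ?_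
    have h1 : H15Flag.ev (fun s => y (e i s).1)
        (Pi.single ((e i).symm ⟨i, hP i⟩) (1 : F)) = y i := by
      unfold H15Flag.ev
      rw [Finset.sum_eq_single ((e i).symm ⟨i, hP i⟩)]
      · simp
      · intro j _ hj
        simp [Pi.single_eq_of_ne hj]
      · intro h5; exact absurd (Finset.mem_univ _) h5
    rw [h1, eval_sub, eval_X, eval_C, sub_self]
  have hsep : ∀ i, (f i).Separable := by
    intro i
    rw [← Polynomial.separable_map (algebraMap E0 K), hprod, separable_prod_X_sub_C_iff]
    exact hinj i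
  -- the field is generated by the `y i`
  have hgenI : ∀ I : IntermediateField E0 K, (∀ i, y i ∈ I) → I = ⊤ := by
    intro I hI
    let S : Subalgebra k K :=
      { carrier := I
        mul_mem' := fun {a b} ha hb => mul_mem ha hb
        add_mem' := fun {a b} ha hb => add_mem ha hb
        algebraMap_mem' := fun r => I.algebraMap_mem ⟨_, hk r⟩ }
    have hS : S = ⊤ := by
      apply hgen
      · intro z hz
        exact I.inv_mem hz
      · intro z hz
        exact I.algebraMap_mem ⟨z, hz⟩
      · exact hI
    rw [eq_top_iff]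
    intro z _
    have : z ∈ S := by rw [hS]; trivial
    exact this
  -- separable
  have hsepK : Algebra.IsSeparable E0 K := by
    rw [← separableClosure.eq_top_iff]
    apply hgenI
    intro i
    rw [mem_separableClosure_iff]
    exact (hsep i).of_dvd (minpoly.dvd E0 (y i) (hroot i))
  -- the splitting field
  have hsplit : Polynomial.IsSplittingField E0 K (∏ i, f i) := by
    refine ⟨?_, ?_⟩
    · rw [Polynomial.map_prod]
      refine Splits.prod fun i _ => ?_
      rw [hprod]
      exact Splits.prod fun _ _ => Splits.X_sub_C _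
    · have halg : ∀ x ∈ ((∏ i, f i).rootSet K), IsAlgebraic E0 x :=
        fun x hx => isAlgebraic_of_mem_rootSet hx
      rw [← IntermediateField.adjoin_toSubalgebra_of_isAlgebraic halg]
      have h1 := hgenI (IntermediateField.adjoin E0 ((∏ i, f i).rootSet K)) (by
        intro i
        apply IntermediateField.subset_adjoin
        rw [mem_rootSet_of_ne (Finset.prod_ne_zero_iff.mpr fun i _ => hf0 i), map_prod]
        exact Finset.prod_eq_zero (Finset.mem_univ i) (hroot i))
      rw [h1]
      rfl
  have hnormal : Normal E0 K := Normal.of_isSplittingField (∏ i, f i)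
  have hgal : IsGalois E0 K := ⟨⟩
  have hfd : FiniteDimensional E0 K :=
    Polynomial.IsSplittingField.finiteDimensional _ (∏ i, f i)
  -- the action of the Galois group
  have hact : ∀ (σ : K ≃ₐ[E0] K) (i : R), ∃ α : R → F, (∀ j, α j ≠ 0 → P i j) ∧
      σ (y i) = ev y α := by
    intro σ i
    have h8 : aeval (σ (y i)) (f i) = 0 := by
      have := congrArg σ (hroot i)
      rw [map_zero] at this
      rw [← this]
      exact aeval_algHom_apply (σ : K →ₐ[E0] K) (y i) _
    rw [aeval_def, ← eval_map, hprod, eval_prod, Finset.prod_eq_zero_iff] at h8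
    obtain ⟨α, -, hα⟩ := h8
    rw [eval_sub, eval_X, eval_C, sub_eq_zero] at hα
    refine ⟨ext0 (P i) (e i) α, fun j hj => ext0_ne_zero _ _ _ hj, ?_⟩
    rw [hα, ev_ext0]
  choose u hu1 hu using hact
  have hFfix : ∀ (σ : K ≃ₐ[E0] K) (a : F), σ (algebraMap F K a) = algebraMap F K a := by
    intro σ a
    rw [IsScalarTower.algebraMap_apply F k K]
    exact σ.commutes ⟨_, hk (algebraMap F k a)⟩
  have hinv : ∀ σ : K ≃ₐ[E0] K, (Matrix.of (u σ)) * (Matrix.of (u σ.symm)) = 1 := by
    intro σ
    have h9 : ∀ i, (fun r => ∑ j, u σ i j * u σ.symm j r) = Pi.single i (1 : F) := by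
      intro i
      apply hy
      rw [ev_single]
      have h10 : σ.symm (σ (y i)) = y i := σ.symm_apply_apply _
      rw [← h10, hu σ i]
      have h11 : σ.symm (ev y (u σ i)) = ∑ j, algebraMap F _ (u σ i j) * ev y (u σ.symm j) := by
        unfold ev
        rw [map_sum]
        refine Finset.sum_congr rfl fun j _ => ?_
        rw [map_mul]
        have h12 := hu σ.symm j
        unfold ev at h12
        rw [h12, hFfix]
      rw [h11]
      unfold ev
      simp_rw [Finset.mul_sum]
      rw [Finset.sum_comm]
      refine Finset.sum_congr rfl fun r _ => ?_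
      rw [map_sum, Finset.sum_mul]
      refine Finset.sum_congr rfl fun j _ => ?_
      rw [map_mul, mul_assoc]
    ext i r
    rw [Matrix.mul_apply]
    have h13 := congrFun (h9 i) r
    simp only [Matrix.of_apply]
    rw [h13, Matrix.one_apply, Pi.single_apply]
    simp only [eq_comm]
  have hmem : w ∈ Set.range (algebraMap E0 K) := by
    rw [IsGalois.mem_range_algebraMap_iff_fixed]
    intro σ
    let g : GL R F := ⟨Matrix.of (u σ), Matrix.of (u σ.symm), hinv σ, by
      have := hinv σ.symm
      simpa using this⟩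
    exact hw σ g (fun i j hij => hu1 σ i j hij) (fun i => hu σ i)
  obtain ⟨w', hw'⟩ := hmem
  rw [← hw']
  exact w'.2

end Gal

end Pool.Agent.H15Par
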