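import Pool.Agent.Lib.Par_H15.Stage

/-! # Labels of the classes of a preorder of forest type -/

set_option autoImplicit false

namespace Pool.Agent.H15Par

variable {n : ℕ} {r : Fin n → Fin n → Prop}

/-- The classes of a preorder can be labelled by natural numbers in an increasing way. -/
lemma exists_label (hrefl : ∀ i, r i i) (htrans : ∀ i j l, r i j → r j l → r i l) :
    ∃ β : Fin n → ℕ, (∀ i j, β i = β j ↔ r i j ∧ r j i) ∧
      ∀ i j, r i j → ¬ r j i → β i < β j := by
  classical
  let d : Fin n → ℕ := fun i => (Finset.univ.filter fun j => r j i).card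
  have hex : ∀ i : Fin n, ∃ m : ℕ, ∃ j : Fin n, (j : ℕ) = m ∧ r i j ∧ r j i := fun i =>
    ⟨i, i, rfl, hrefl i, hrefl i⟩
  let m : Fin n → ℕ := fun i => Nat.find (hex i)
  have hm : ∀ i, ∃ j : Fin n, (j : ℕ) = m i ∧ r i j ∧ r j i := fun i => Nat.find_spec (hex i)
  have hmlt : ∀ i, m i < n := by
    intro i
    obtain ⟨j, hj, -⟩ := hm i
    rw [← hj]; exact j.2
  refine ⟨fun i => (n + 1) * d i + m i, ?_, ?_⟩
  · intro i j
    constructor
    · intro hij
      have h1 : d i = d j := by
        have e1 : ((n + 1) * d i + m i) / (n + 1) = d i := by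
          rw [Nat.mul_add_div (by omega), Nat.div_eq_of_lt (by have := hmlt i; omega), add_zero]
        have e2 : ((n + 1) * d j + m j) / (n + 1) = d j := by
          rw [Nat.mul_add_div (by omega), Nat.div_eq_of_lt (by have := hmlt j; omega), add_zero]
        rw [← e1, ← e2]
        exact congrArg (· / (n + 1)) hij
      have h2 : m i = m j := by
        have hij' : (n + 1) * d i + m i = (n + 1) * d j + m j := hij
        rw [h1] at hij'
        omega
      obtain ⟨x, hx, hx1, hx2⟩ := hm i
      obtain ⟨y, hy, hy1, hy2⟩ := hm j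
      have hxy : x = y := Fin.ext (by rw [hx, hy, h2])
      rw [← hxy] at hy1 hy2
      exact ⟨htrans _ _ _ hx1 hy2, htrans _ _ _ hy1 hx2⟩
    · rintro ⟨h1, h2⟩
      have hd : d i = d j := by
        change (Finset.univ.filter fun l => r l i).card = (Finset.univ.filter fun l => r l j).card
        congr 1
        ext l
        simp only [Finset.mem_filter, Finset.mem_univ, true_and]
        exact ⟨fun h => htrans _ _ _ h h1, fun h => htrans _ _ _ h h2⟩
      have hmm : m i = m j := by
        apply le_antisymm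
        · apply Nat.find_min'
          obtain ⟨y, hy, hy1, hy2⟩ := hm j
          exact ⟨y, hy, htrans _ _ _ h1 hy1, htrans _ _ _ hy2 h2⟩
        · apply Nat.find_min'
          obtain ⟨y, hy, hy1, hy2⟩ := hm i
          exact ⟨y, hy, htrans _ _ _ h2 hy1, htrans _ _ _ hy2 h1⟩
      change (n + 1) * d i + m i = (n + 1) * d j + m j
      rw [hd, hmm]
  · intro i j h1 h2
    have hd : d i < d j := by
      apply Finset.card_lt_card
      rw [Finset.ssubset_iff_of_subset]
      · exact ⟨j, by simp [hrefl j], by simpa using h2⟩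
      · intro l
        simp only [Finset.mem_filter, Finset.mem_univ, true_and]
        exact fun h => htrans _ _ _ h h1
    change (n + 1) * d i + m i < (n + 1) * d j + m j
    have h3 : (n + 1) * (d i + 1) ≤ (n + 1) * d j := Nat.mul_le_mul_left _ hd
    have h4 := hmlt i
    rw [mul_add, mul_one] at h3
    omega

/-- The relation between the labels. -/
def ancR {n : ℕ} (r : Fin n → Fin n → Prop) (β : Fin n → ℕ) (s t : ℕ) : Prop :=
  ∃ i j, β i = s ∧ β j = t ∧ r i j ∧ ¬ r j i

lemma forest_ancR (htrans : ∀ i j l, r i j → r j l → r i l)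
    (hforest : ∀ i j l, r i l → r j l → r i j ∨ r j i) {β : Fin n → ℕ}
    (h1 : ∀ i j, β i = β j ↔ r i j ∧ r j i) (h2 : ∀ i j, r i j → ¬ r j i → β i < β j) :
    Forest (ancR r β) := by
  have hlt : ∀ {s T}, ancR r β s T → s < T := by
    rintro s T ⟨i, j, rfl, rfl, h3, h4⟩
    exact h2 i j h3 h4
  refine ⟨hlt, ?_⟩
  rintro s T ⟨i, j, rfl, rfl, h3, h4⟩ t
  constructor
  · intro h5
    refine ⟨?_, hlt h5⟩
    obtain ⟨a, b, ha, hb, hab, hba⟩ := h5
    obtain ⟨hb1, hb2⟩ := (h1 b i).mp hb
    refine ⟨a, j, ha, rfl, htrans _ _ _ (htrans _ _ _ hab hb1) h3, ?_⟩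
    intro hja
    exact hba (htrans _ _ _ hb1 (htrans _ _ _ h3 hja))
  · rintro ⟨⟨a, b, ha, hb, hab, hba⟩, hlt'⟩
    obtain ⟨hb1, hb2⟩ := (h1 b j).mp hb
    have haj : r a j := htrans _ _ _ hab hb1
    have hai : ¬ r i a := by
      intro hia
      by_cases hai : r a i
      · have := (h1 a i).mpr ⟨hai, hia⟩
        omega
      · have := h2 i a hia hai
        omega
    have hai' : r a i := (hforest a i j haj h3).resolve_right hai
    exact ⟨a, i, ha, rfl, hai', hai⟩

lemma rel_iff {β : Fin n → ℕ}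
    (htrans : ∀ i j l, r i j → r j l → r i l)
    (h1 : ∀ i j, β i = β j ↔ r i j ∧ r j i) (i j : Fin n) :
    (β j = β i ∨ ancR r β (β j) (β i)) ↔ r j i := by
  constructor
  · rintro (h3 | ⟨a, b, ha, hb, hab, -⟩)
    · exact ((h1 j i).mp h3).1
    · exact htrans _ _ _ ((h1 a j).mp ha).2 (htrans _ _ _ hab ((h1 b i).mp hb).1)
  · intro h3
    by_cases h4 : r i j
    · exact Or.inl ((h1 j i).mpr ⟨h3, h4⟩)
    · exact Or.inr ⟨j, i, rfl, rfl, h3, h4⟩

end Pool.Agent.H15Par
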