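import Pool.Agent.Lib.Par_H15.Defs
import Pool.Agent.Lib.Par_H15.GalF
import Pool.Agent.Lib.Par_H15.Label

/-! # The action of the group -/

set_option autoImplicit false

namespace Pool.Agent.H15Par

section Act

variable {k : Type} [Field k] {F : Type} [Field F] [Algebra F k] {n : ℕ} {L : Type}
variable (p : ℕ) (a : L → ℕ) {U : L → Set (Fin n)} {r : Fin n → Fin n → Prop}

lemma genMat_of_mem {i : Fin n} {l : L} (hi : i ∈ U l) :
    genMat k U i l = MvPolynomial.X ⟨(i, l), hi⟩ := dif_pos hi

lemma genMat_of_notMem {i : Fin n} {l : L} (hi : i ∉ U l) : genMat k U i l = 0 := dif_neg hi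

/-- The action on the generic matrix. -/
lemma parAct_genMat (hp : p ≠ 0) (hU : ∀ l i j, i ∈ U l → r i j → j ∈ U l)
    (u : Matrix (Fin n) (Fin n) F) (hu : ∀ i j, u i j ≠ 0 → r j i) (i : Fin n) (l : L) :
    parAct k p a U u (genMat k U i l) =
      ∑ j, MvPolynomial.C (algebraMap F k (u i j ^ (p ^ a l))) * genMat k U j l := by
  by_cases hi : i ∈ U l
  · rw [genMat_of_mem hi]
    unfold parAct
    rw [MvPolynomial.aeval_X]
  · rw [genMat_of_notMem hi, map_zero]
    symm
    refine Finset.sum_eq_zero fun j _ => ?_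
    by_cases hj : j ∈ U l
    · have h0 : u i j = 0 := by
        by_contra h1
        exact hi (hU l j i hj (hu i j h1))
      rw [h0, zero_pow (pow_ne_zero _ hp), map_zero, MvPolynomial.C_0, zero_mul]
    · rw [genMat_of_notMem hj, mul_zero]

lemma parAct_comp (hp : p ≠ 0) (hF : ∀ (s : Finset (Fin n)) (f : Fin n → F) (m : ℕ),
      (∑ i ∈ s, f i) ^ (p ^ m) = ∑ i ∈ s, f i ^ (p ^ m))
    (hU : ∀ l i j, i ∈ U l → r i j → j ∈ U l)
    (u v : Matrix (Fin n) (Fin n) F) (hu : ∀ i j, u i j ≠ 0 → r j i)
    (g : MvPolynomial {z : Fin n × L // z.1 ∈ U z.2} k) :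
    parAct k p a U u (parAct k p a U v g) = parAct k p a U (v * u) g := by
  have : (parAct k p a U u).comp (parAct k p a U v) = parAct k p a U (v * u) := by
    apply MvPolynomial.algHom_ext
    rintro ⟨⟨i, l⟩, hi⟩
    have e1 : parAct k p a U v (MvPolynomial.X ⟨(i, l), hi⟩) =
        ∑ j, MvPolynomial.C (algebraMap F k (v i j ^ (p ^ a l))) * genMat k U j l := by
      unfold parAct
      rw [MvPolynomial.aeval_X]
    have e2 : parAct k p a U (v * u) (MvPolynomial.X ⟨(i, l), hi⟩) =
        ∑ j, MvPolynomial.C (algebraMap F k ((v * u) i j ^ (p ^ a l))) * genMat k U j l := by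
      unfold parAct
      rw [MvPolynomial.aeval_X]
    rw [AlgHom.comp_apply, e1, e2, map_sum]
    have h1 : ∀ j, parAct k p a U u (MvPolynomial.C (algebraMap F k (v i j ^ (p ^ a l))) *
        genMat k U j l) =
        ∑ t, MvPolynomial.C (algebraMap F k ((v i j * u j t) ^ (p ^ a l))) * genMat k U t l := by
      intro j
      have h2 : parAct k p a U u (MvPolynomial.C (algebraMap F k (v i j ^ (p ^ a l)))) =
        MvPolynomial.C (algebraMap F k (v i j ^ (p ^ a l))) := (parAct k p a U u).commutes _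
      rw [map_mul, parAct_genMat p a hp hU u hu, h2, Finset.mul_sum]
      refine Finset.sum_congr rfl fun t _ => ?_
      rw [mul_pow, map_mul, MvPolynomial.C_mul, mul_assoc]
    simp_rw [h1]
    rw [Finset.sum_comm]
    refine Finset.sum_congr rfl fun t _ => ?_
    rw [← Finset.sum_mul, Matrix.mul_apply, hF, map_sum, map_sum]
  rw [← this, AlgHom.comp_apply]

lemma parAct_one (hp : p ≠ 0) (g : MvPolynomial {z : Fin n × L // z.1 ∈ U z.2} k) :
    parAct k p a U (1 : Matrix (Fin n) (Fin n) F) g = g := by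
  have : parAct k p a U (1 : Matrix (Fin n) (Fin n) F) = AlgHom.id k _ := by
    apply MvPolynomial.algHom_ext
    rintro ⟨⟨i, l⟩, hi⟩
    unfold parAct
    rw [MvPolynomial.aeval_X, AlgHom.id_apply, Finset.sum_eq_single i]
    · rw [Matrix.one_apply_eq, one_pow, map_one, MvPolynomial.C_1, one_mul]
      exact genMat_of_mem hi
    · intro j _ hj
      rw [Matrix.one_apply_ne (show i ≠ j from fun h => hj h.symm),
        zero_pow (pow_ne_zero _ hp)]
      simp
    · intro h; exact absurd (Finset.mem_univ i) h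
  rw [this, AlgHom.id_apply]

end Act

section Group

variable {F : Type} [Field F] {n : ℕ} (r : Fin n → Fin n → Prop)
  (e : Fin n → ℕ)

lemma inGroup_one (hrefl : ∀ i, r i i) : InGroup r e (1 : GL (Fin n) F) := by
  refine ⟨fun i j hij => ?_, fun i _ => ?_⟩
  · by_cases h : i = j
    · rw [h]; exact hrefl j
    · exact absurd (Matrix.one_apply_ne h) hij
  · change (1 : Matrix (Fin n) (Fin n) F) i i ^ e i = 1
    rw [Matrix.one_apply_eq, one_pow]

lemma inGroup_mul (htrans : ∀ i j l, r i j → r j l → r i l) {u v : GL (Fin n) F}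
    (hu : InGroup r e u) (hv : InGroup r e v) : InGroup r e (u * v) := by
  refine ⟨fun i j hij => ?_, fun i hi => ?_⟩
  · rw [Units.val_mul, Matrix.mul_apply] at hij
    obtain ⟨l, -, hl⟩ := Finset.exists_ne_zero_of_sum_ne_zero hij
    exact htrans _ _ _ (hv.1 l j (right_ne_zero_of_mul hl)) (hu.1 i l (left_ne_zero_of_mul hl))
  · have h1 : ((u * v : GL (Fin n) F) : Matrix (Fin n) (Fin n) F) i i =
        (u : Matrix (Fin n) (Fin n) F) i i * (v : Matrix (Fin n) (Fin n) F) i i := by
      rw [Units.val_mul, Matrix.mul_apply]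
      refine Finset.sum_eq_single i (fun l _ hl => ?_) (fun h => absurd (Finset.mem_univ i) h)
      by_contra h2
      exact hl (hi l (hv.1 l i (right_ne_zero_of_mul h2)) (hu.1 i l (left_ne_zero_of_mul h2)))
    rw [h1, mul_pow, hu.2 i hi, hv.2 i hi, one_mul]

lemma inGroup_inv [Finite F] (hrefl : ∀ i, r i i) (htrans : ∀ i j l, r i j → r j l → r i l)
    {u : GL (Fin n) F} (hu : InGroup r e u) : InGroup r e u⁻¹ := by
  have h0 : Finite (Fin n → Fin n → F) := inferInstance
  have h1 : Finite (Matrix (Fin n) (Fin n) F) := h0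
  have h2 : Finite (GL (Fin n) F) := inferInstance
  have hpow : ∀ m : ℕ, InGroup r e (u ^ m) := by
    intro m
    induction m with
    | zero => rw [pow_zero]; exact inGroup_one r e hrefl
    | succ m ih => rw [pow_succ]; exact inGroup_mul r e htrans ih hu
  have h3 : u⁻¹ = u ^ (orderOf u - 1) := by
    rw [inv_eq_iff_mul_eq_one, ← pow_succ']
    have := orderOf_pos u
    rw [show orderOf u - 1 + 1 = orderOf u by omega]
    exact pow_orderOf_eq_one u
  rw [h3]
  exact hpow _

/-- The group. -/
def parGroup [Finite F] (hrefl : ∀ i, r i i) (htrans : ∀ i j l, r i j → r j l → r i l) :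
    Subgroup (GL (Fin n) F) where
  carrier := {u | InGroup r e u}
  one_mem' := inGroup_one r e hrefl
  mul_mem' := fun hu hv => inGroup_mul r e htrans hu hv
  inv_mem' := fun hu => inGroup_inv r e hrefl htrans hu

end Group

section Lift

variable {k B K : Type} [Field k] [CommRing B] [Algebra k B] [Field K] [Algebra B K]
  [IsFractionRing B K] [Algebra k K] [IsScalarTower k B K]

lemma exists_lift (φ : B →ₐ[k] B) (hφ : Function.Injective φ) :
    ∃ σ : K →ₐ[k] K, ∀ b, σ (algebraMap B K b) = algebraMap B K (φ b) := by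
  have h1 : Function.Injective ((IsScalarTower.toAlgHom k B K).comp φ) := by
    intro x y hxy
    exact hφ (IsFractionRing.injective B K hxy)
  refine ⟨IsFractionRing.liftAlgHom (A := B) h1, fun b => ?_⟩
  rw [IsFractionRing.liftAlgHom_apply, IsFractionRing.lift_algebraMap]
  rfl

end Lift

end Pool.Agent.H15Par
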