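import Mathlib

/-! # Invariants of groups of matrices defined by a preorder -/

set_option autoImplicit false

namespace Pool.Agent.H15Par

open Classical in
/-- The generic matrix with `n` rows and columns indexed by `L` whose entry in the place `(i, l)`
is a variable `X (i, l)` if `i` belongs to the set `U l`, and zero otherwise. -/
noncomputable def genMat (k : Type) [Field k] {n : ℕ} {L : Type} (U : L → Set (Fin n))
    (i : Fin n) (l : L) : MvPolynomial {z : Fin n × L // z.1 ∈ U z.2} k :=
  if hi : i ∈ U l then MvPolynomial.X ⟨(i, l), hi⟩ else 0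

/-- The action of an `n × n`-matrix `u` over the finite field `F` of characteristic `p` on the
polynomial ring over `k ⊇ F` in the nonzero entries of the generic matrix: the column `l` is
multiplied from the left by the `a l`-th Frobenius twist of `u`, i.e.
`X (i, l) ↦ ∑ j, (u i j) ^ (p ^ a l) * X (j, l)`, where `X (j, l) = 0` for `j ∉ U l`. -/
noncomputable def parAct (k : Type) [Field k] {F : Type} [Field F] [Algebra F k] {n : ℕ}
    {L : Type} (p : ℕ) (a : L → ℕ) (U : L → Set (Fin n)) (u : Matrix (Fin n) (Fin n) F) :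
    MvPolynomial {z : Fin n × L // z.1 ∈ U z.2} k →ₐ[k]
      MvPolynomial {z : Fin n × L // z.1 ∈ U z.2} k :=
  MvPolynomial.aeval fun z => ∑ j : Fin n,
    MvPolynomial.C (algebraMap F k (u z.1.1 j ^ (p ^ a z.1.2))) * genMat k U j z.1.2

/-- The matrices `u` in `GL_n(F)` with `u i j = 0` unless `r j i`, and with `u i i ^ e i = 1` for
all `i` such that no `j ≠ i` is equivalent to `i`. -/
def InGroup {F : Type} [Field F] {n : ℕ} (r : Fin n → Fin n → Prop) (e : Fin n → ℕ)
    (u : GL (Fin n) F) : Prop :=
  (∀ i j, (u : Matrix (Fin n) (Fin n) F) i j ≠ 0 → r j i) ∧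
    ∀ i, (∀ j, r i j → r j i → j = i) → (u : Matrix (Fin n) (Fin n) F) i i ^ e i = 1

/-- The ring of invariants of the group `InGroup r e`. -/
noncomputable def parInv (k : Type) [Field k] (F : Type) [Field F] [Algebra F k] {n : ℕ}
    {L : Type} (r : Fin n → Fin n → Prop) (e : Fin n → ℕ) (p : ℕ) (a : L → ℕ)
    (U : L → Set (Fin n)) : Subalgebra k (MvPolynomial {z : Fin n × L // z.1 ∈ U z.2} k) where
  carrier := {g | ∀ u : GL (Fin n) F, InGroup r e u →
    parAct k p a U (u : Matrix (Fin n) (Fin n) F) g = g}
  mul_mem' := fun {x y} hx hy u hu => by rw [map_mul, hx u hu, hy u hu]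
  add_mem' := fun {x y} hx hy u hu => by rw [map_add, hx u hu, hy u hu]
  algebraMap_mem' := fun r u _ => by rw [AlgHom.commutes]

end Pool.Agent.H15Par
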