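import Pool.Agent.Lib.Par_H15.Indep

/-! # The coordinates of a chart -/

set_option autoImplicit false

open Polynomial

namespace Pool.Agent.H15Par

section Fam

variable {K : Type} [Field K] {L R : Type} [Fintype R] [DecidableEq R] {h : ℕ}
variable {S : Sys K L R} {X : Cht L R h}

open Classical in
/-- The coordinates. -/
noncomputable def fam (S : Sys K L R) (X : Cht L R h) (U : L → Set R) :
    {z : R × L // z.1 ∈ U z.2} → K := fun z =>
  if S.S (S.β z.1.1) ∧ z.1.2 = (X.C (S.β z.1.1) 0 z.1.1).1 then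
    (Dl S.Q (S.w X (S.β z.1.1)) (S.c X (S.β z.1.1)) (S.f (S.β z.1.1)) 0).det ^ S.e (S.β z.1.1)
  else co S.Q (S.w X (S.β z.1.1)) (S.c X (S.β z.1.1)) (S.f (S.β z.1.1))
    (dg h (S.b X (S.β z.1.1)) (z.1.2, X.D (S.β z.1.1) z.1.2))
      (mon S.Q (S.w X (S.β z.1.1)) (z.1.2, X.D (S.β z.1.1) z.1.2)) ⟨z.1.1, rfl⟩

/-- The coordinate attached to a power of the pivot. -/
lemma special_stage (hQ : Fr K S.Q) {t : ℕ} (hX : S.Good X t) (hh : h = 1) {i : R}
    (hi : S.β i = t) (huniq : ∀ j, S.β j = t → j = i) :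
    co S.Q (S.w X t) (S.c X t) (S.f t) (dg h (S.b X t) ((X.C t 0 i).1, X.D t (X.C t 0 i).1))
      (mon S.Q (S.w X t) ((X.C t 0 i).1, X.D t (X.C t 0 i).1)) ⟨i, hi⟩ =
      (Dl S.Q (S.w X t) (S.c X t) (S.f t) 0).det ^ (S.Q - 1) ∧ S.w X t (X.C t 0 i).1 i ≠ 0 := by
  subst hh
  let _ : Unique (S.Blk t) :=
    { default := ⟨i, hi⟩, uniq := fun j => Subtype.ext (huniq j.1 j.2) }
  have h1 := special_co (f := S.f t) hQ hX.valid hX.det
  refine ⟨h1, ?_⟩
  have h2 := hX.det 0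
  rw [Matrix.det_unique] at h2
  intro h3
  apply h2
  change S.w X t (X.C t 0 i).1 i ^ S.Q ^ (X.C t 0 i).2 = 0
  rw [h3, zero_pow (pow_ne_zero _ hQ.pos)]

variable {k : Type} [Field k] [Algebra k K]

lemma ch_eq_adjoin (hQ : Fr K S.Q) (hF : Forest S.anc) {U : L → Set R}
    (hU0 : ∀ l i, i ∉ U l → S.v l i = 0)
    (hU : ∀ l i j, i ∈ U l → (S.β i = S.β j ∨ S.anc (S.β i) (S.β j)) → j ∈ U l)
    (hS : ∀ t, S.S t → h = 1 ∧ ∃ i, S.β i = t ∧ ∀ j, S.β j = t → j = i)
    (he : ∀ t, S.S t → S.e t ∣ S.Q - 1) {N : ℕ} (hN : ∀ i, S.β i < N)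
    (hX : ∀ t < N, S.Good X t) :
    S.ch k X N = Algebra.adjoin k (Set.range (fam S X U)) := by
  classical
  apply le_antisymm
  · unfold Sys.ch
    rw [Algebra.adjoin_le_iff]
    rintro z ⟨t, ht, hz⟩
    rcases hz with ⟨⟨l, s⟩, rfl⟩ | ⟨hSt, rfl⟩
    · obtain ⟨i, rfl⟩ := s
      by_cases hil : i ∈ U l
      · by_cases hsp : S.S (S.β i) ∧ l = (X.C (S.β i) 0 i).1
        · obtain ⟨h1, h2⟩ := hsp
          obtain ⟨hh, i', hi', huniq⟩ := hS _ h1
          have hii : i = i' := huniq i rfl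
          subst hii
          have h3 := (special_stage hQ (hX _ ht) hh rfl huniq).1
          rw [← h2] at h3
          change co S.Q (S.w X (S.β i)) (S.c X (S.β i)) (S.f (S.β i))
            (dg h (S.b X (S.β i)) (l, X.D (S.β i) l))
            (mon S.Q (S.w X (S.β i)) (l, X.D (S.β i) l)) ⟨i, rfl⟩ ∈ _
          rw [h3]
          obtain ⟨m, hm⟩ := he _ h1
          rw [hm, pow_mul]
          apply pow_mem
          refine Algebra.subset_adjoin ⟨⟨(i, l), hil⟩, ?_⟩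
          unfold fam
          exact if_pos ⟨h1, h2⟩
        · refine Algebra.subset_adjoin ⟨⟨(i, l), hil⟩, ?_⟩
          unfold fam
          exact if_neg hsp
      · have h1 : co S.Q (S.w X (S.β i)) (S.c X (S.β i)) (S.f (S.β i))
            (dg h (S.b X (S.β i)) (l, X.D (S.β i) l))
            (mon S.Q (S.w X (S.β i)) (l, X.D (S.β i) l)) = 0 := by
          apply co_of_zero
          intro t
          change S.w X (S.β i) l t.1 ^ S.Q ^ (X.D (S.β i) l) = 0
          have ht : t.1 ∉ U l := fun h2 => hil (hU l t.1 i h2 (Or.inl t.2))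
          have h3 := w_zero_of_notMem (X := X) hQ hF hU0 hU t.1 l ht
          rw [t.2] at h3
          rw [h3, zero_pow (pow_ne_zero _ hQ.pos)]
        change co S.Q (S.w X (S.β i)) (S.c X (S.β i)) (S.f (S.β i))
            (dg h (S.b X (S.β i)) (l, X.D (S.β i) l))
            (mon S.Q (S.w X (S.β i)) (l, X.D (S.β i) l)) ⟨i, rfl⟩ ∈ _
        rw [h1]
        exact zero_mem _
    · obtain ⟨hh, i, rfl, huniq⟩ := hS _ hSt
      have h3 := (special_stage hQ (hX _ ht) hh rfl huniq).2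
      have hil : i ∈ U (X.C (S.β i) 0 i).1 := by
        by_contra h4
        exact h3 (w_zero_of_notMem (X := X) hQ hF hU0 hU i _ h4)
      refine Algebra.subset_adjoin ⟨⟨(i, _), hil⟩, ?_⟩
      unfold fam
      exact if_pos ⟨hSt, rfl⟩
  · rw [Algebra.adjoin_le_iff]
    rintro _ ⟨⟨⟨i, l⟩, hil⟩, rfl⟩
    apply G_sub_ch (hN i)
    unfold fam
    split_ifs with hsp
    · exact Or.inr ⟨hsp.1, rfl⟩
    · exact co_mem_G _ l ⟨i, rfl⟩

end Fam

end Pool.Agent.H15Par
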