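import Pool.Agent.Lib.Par_H15.MainP

/-! # Resolution of the quotients by the groups attached to preorders of forest type -/

set_option autoImplicit false

open AlgebraicGeometry CategoryTheory Pool.Agent.H15Model

namespace Pool.Agent.H15Par

section Bound

variable {L I : Type} {h : ℕ} [NeZero h] [Fintype I]

lemma Valid.bound {a : L → ℕ} {c : ZMod h → I → L × ℕ} {d : L → ℕ} (hv : Valid a c d) (l : L) :
    d l ≤ h * Fintype.card I := by
  have h1 : ∀ s : Fin (d l), ∃ x : ZMod h × I, c x.1 x.2 = (l, (s : ℕ)) := by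
    intro s
    obtain ⟨t, ht⟩ := hv.surj l s s.2
    exact ⟨(_, t), ht⟩
  choose f hf using h1
  have h2 : Function.Injective f := by
    intro s s' hss
    have h3 := hf s
    rw [hss, hf s'] at h3
    exact Fin.ext (congrArg Prod.snd h3).symm
  have h4 := Fintype.card_le_of_injective f h2
  rw [Fintype.card_fin, Fintype.card_prod, ZMod.card] at h4
  exact h4

end Bound

section Finite

variable {k K L R : Type} [Field k] [Field K] [Algebra k K] [Fintype R] [DecidableEq R]
  [Finite L] [Nonempty L] {h : ℕ} [NeZero h] (S : Sys K L R)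

/-- There are finitely many chart rings. -/
lemma finite_charts (N : ℕ) :
    {D : Subalgebra k K | ∃ X : Cht L R h, (∀ t < N, S.Good X t) ∧ D = S.ch k X N}.Finite := by
  classical
  have l0 : L := Classical.arbitrary L
  let M : ℕ := h * Fintype.card R + 1
  let f : (Fin N → ZMod h → R → L × Fin M) × (Fin N → L → Fin M) → Subalgebra k K := fun x =>
    S.ch k (⟨fun t j i => if ht : t < N then ((x.1 ⟨t, ht⟩ j i).1, ((x.1 ⟨t, ht⟩ j i).2 : ℕ))
      else (l0, 0), fun t l => if ht : t < N then (x.2 ⟨t, ht⟩ l : ℕ) else 0⟩ : Cht L R h) N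
  have : Fintype (ZMod h) := ZMod.fintype h
  refine (Set.finite_range f).subset ?_
  rintro D ⟨X, hX, rfl⟩
  have hD : ∀ t < N, ∀ l, X.D t l < M := by
    intro t ht l
    have h1 := (hX t ht).valid.bound l
    have h2 : Fintype.card (S.Blk t) ≤ Fintype.card R := Fintype.card_subtype_le _
    exact Nat.lt_succ_of_le (h1.trans (Nat.mul_le_mul_left _ h2))
  refine ⟨⟨fun t j i => ((X.C t j i).1, if hi : (X.C t j i).2 < M then ⟨_, hi⟩ else ⟨0, by omega⟩),
    fun t l => ⟨X.D t l, hD t t.2 l⟩⟩, ?_⟩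
  apply ch_congr
  · intro t ht
    funext j i
    have h1 : (X.C t j i.1).2 < M := by
      have h2 := (hX t ht).valid.lt j i
      exact lt_trans h2 (hD t ht _)
    simp only [Sys.c, dif_pos ht, dif_pos h1]
  · intro t ht
    funext l
    simp only [dif_pos ht]

end Finite

section Main

variable {k : Type} [Field k] {F : Type} [Field F] [Fintype F] [Algebra F k] {n : ℕ}
  {L : Type} [Finite L]
variable {U : L → Set (Fin n)} {r : Fin n → Fin n → Prop} {a : L → ℕ} {e : Fin n → ℕ}

theorem resolution_aux (p : ℕ) [hp : Fact p.Prime] [CharP F p] {h0 h : ℕ} [NeZero h]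
    (hh0 : 1 ≤ h0) (hq : Fintype.card F = (p ^ h0) ^ h)
    (hrefl : ∀ i, r i i) (htrans : ∀ i j l, r i j → r j l → r i l)
    (hforest : ∀ i j l, r i l → r j l → r i j ∨ r j i)
    (hU : ∀ l i j, i ∈ U l → r i j → j ∈ U l) (sp : Prop) (hsp : sp → h = 1)
    (he : sp → ∀ i, e i ∣ p ^ h0 - 1) (he' : ¬ sp → ∀ i, e i = Fintype.card F - 1)
    {l0 : L} (hl0 : U l0 = Set.univ) :
    Algebra.FiniteType k (parInv k F r e (p ^ h0) a U) ∧
    ∃ (Y : Scheme.{0}) (sY : Y ⟶ Spec (CommRingCat.of k))
      (f : Y ⟶ Spec (CommRingCat.of (parInv k F r e (p ^ h0) a U))),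
      AlgebraicGeometry.IsIntegral Y ∧ AlgebraicGeometry.Smooth sY ∧
      f ≫ Spec.map (CommRingCat.ofHom (algebraMap k (parInv k F r e (p ^ h0) a U))) = sY ∧
      AlgebraicGeometry.IsProper f ∧
      ∃ V : (Spec (CommRingCat.of (parInv k F r e (p ^ h0) a U))).Opens, V ≠ ⊥ ∧
        IsIso (AlgebraicGeometry.morphismRestrict f V) := by
  classical
  have hck : CharP k p := charP_of_injective_algebraMap (algebraMap F k).injective p
  have hch : CharP (FractionRing (MvPolynomial {z : Fin n × L // z.1 ∈ U z.2} k)) p :=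
    charP_of_injective_algebraMap (algebraMap k _).injective p
  have hne : Nonempty L := ⟨l0⟩
  have hh : 1 ≤ h := Nat.one_le_iff_ne_zero.mpr (NeZero.ne h)
  obtain ⟨β, hβ1, hβ2⟩ := exists_label hrefl htrans
  obtain ⟨N, hN⟩ : ∃ N, ∀ i, β i < N := by
    refine ⟨∑ i, β i + 1, fun i => Nat.lt_succ_of_le ?_⟩
    exact Finset.single_le_sum (fun _ _ => Nat.zero_le _) (Finset.mem_univ i)
  have hQ := fr_gsys (k := k) (U := U) p hh0
  have hF : Forest (gsys k U r β (p ^ h0) a sp e).anc := forest_ancR htrans hforest hβ1 hβ2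
  obtain ⟨S, hS⟩ : ∃ S, S = gsys k U r β (p ^ h0) a sp e := ⟨_, rfl⟩
  have hSv : ∀ l i, S.v l i = algebraMap (MvPolynomial {z : Fin n × L // z.1 ∈ U z.2} k)
      (FractionRing (MvPolynomial {z : Fin n × L // z.1 ∈ U z.2} k)) (genMat k U i l) := by
    rw [hS]; intro l i; rfl
  have hQ' : Fr (FractionRing (MvPolynomial {z : Fin n × L // z.1 ∈ U z.2} k)) S.Q := by
    rw [hS]; exact hQ
  have hF' : Forest S.anc := by rw [hS]; exact hF
  have hp0 : p ^ h0 ≠ 0 := pow_ne_zero _ hp.out.ne_zero
  -- the homomorphisms of the group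
  obtain ⟨G, hG⟩ : ∃ G, G = parGroup (F := F) r e hrefl htrans := ⟨_, rfl⟩
  have hsum : ∀ (s : Finset (Fin n)) (f : Fin n → F) (m : ℕ),
      (∑ i ∈ s, f i) ^ ((p ^ h0) ^ m) = ∑ i ∈ s, f i ^ ((p ^ h0) ^ m) := by
    intro s f m
    rw [← pow_mul, sum_pow_char_pow]
  have hiff : ∀ u : GL (Fin n) F, u ∈ G ↔ InGroup r e u := by
    rw [hG]
    intro u
    exact Iff.rfl
  have hmem : ∀ u : G, InGroup r e u.1 := fun u => (hiff u.1).mp u.2
  have hmem' : ∀ u : GL (Fin n) F, InGroup r e u → u ∈ G := fun u hu => (hiff u).mpr hu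
  have hcomp : ∀ (u v : G) g, parAct k (p ^ h0) a U (u.1 : Matrix (Fin n) (Fin n) F)
      (parAct k (p ^ h0) a U (v.1 : Matrix (Fin n) (Fin n) F) g) =
      parAct k (p ^ h0) a U ((v * u : G).1 : Matrix (Fin n) (Fin n) F) g := by
    intro u v g
    exact parAct_comp (p ^ h0) a hp0 hsum hU _ _ (hmem u).1 g
  have hone : ∀ g, parAct k (p ^ h0) a U ((1 : G).1 : Matrix (Fin n) (Fin n) F) g = g :=
    fun g => parAct_one (p ^ h0) a hp0 g
  have hlift : ∀ u : G, ∃ σ : FractionRing (MvPolynomial {z : Fin n × L // z.1 ∈ U z.2} k) →ₐ[k]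
      FractionRing (MvPolynomial {z : Fin n × L // z.1 ∈ U z.2} k),
      ∀ b, σ (algebraMap _ _ b) = algebraMap _ _
        (parAct k (p ^ h0) a U (u.1 : Matrix (Fin n) (Fin n) F) b) := by
    intro u
    apply exists_lift
    apply Function.LeftInverse.injective
      (g := parAct k (p ^ h0) a U ((u⁻¹ : G).1 : Matrix (Fin n) (Fin n) F))
    intro g
    rw [hcomp, mul_inv_cancel, hone]
  choose σ hσ using hlift
  have hfinG : Finite G := by
    have h0 : Finite (Fin n → Fin n → F) := inferInstance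
    have h1 : Finite (Matrix (Fin n) (Fin n) F) := h0
    have h2 : Finite (GL (Fin n) F) := inferInstance
    infer_instance
  -- the charts
  have hval : ∀ V : ValuationSubring (FractionRing (MvPolynomial {z : Fin n × L // z.1 ∈ U z.2} k)),
      (∀ b : MvPolynomial {z : Fin n × L // z.1 ∈ U z.2} k, algebraMap _ _ b ∈ V) →
      ∃ X : Cht L (Fin n) h, (∀ t < N, S.Good X t) ∧ ∀ t < N, ∀ z ∈ S.G X t, z ∈ V := by
    intro V hV
    apply exists_chart_val (fun m hm => hQ'.pow hm) hF' V
    · intro l i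
      rw [hSv]
      exact hV _
    · intro T _
      apply nd_of_moore (l0 := l0)
      subst hS
      exact moore_sys p hh0 rfl hh hQ' hq l0 (ev_gsys_injective (p ^ h0) hl0) T
  let ι : Type := {D : Subalgebra k (FractionRing (MvPolynomial {z : Fin n × L // z.1 ∈ U z.2} k)) //
    ∃ X : Cht L (Fin n) h, (∀ t < N, S.Good X t) ∧ D = S.ch k X N}
  have hfin : Finite ι := (finite_charts (k := k) (h := h) S N).to_subtype
  have hneι : Nonempty ι := by
    obtain ⟨X, hX, -⟩ := hval ⊤ (fun _ => trivial)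
    exact ⟨⟨_, X, hX, rfl⟩⟩
  have hfin2 : Finite {z : Fin n × L // z.1 ∈ U z.2} := inferInstance
  refine Pool.Agent.H15Twist.resolution_quot (k := k)
    (B := MvPolynomial {z : Fin n × L // z.1 ∈ U z.2} k) (G := G)
    (fun u => parAct k (p ^ h0) a U (u.1 : Matrix (Fin n) (Fin n) F))
    hcomp hone (parInv k F r e (p ^ h0) a U)
    (fun g => ⟨fun hg u => hg u.1 (hmem u), fun hg u hu => hg ⟨u, hmem' u hu⟩⟩)
    (K := FractionRing (MvPolynomial {z : Fin n × L // z.1 ∈ U z.2} k))
    σ hσ (fun D : ι => D.1) ?_ ?_ ?_ ?_ ?_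
  · rintro ⟨D, X, hX, rfl⟩ g hg
    subst hS
    exact inv_le_ch p hh0 hq hrefl htrans hforest hβ1 hβ2 hU hsp he he' hN hl0 hX g hg
  · rintro ⟨D, X, hX, rfl⟩ ⟨D', X', hX', rfl⟩
    exact isAway_ch hQ' hF' N hX hX'
  · intro V hV
    obtain ⟨X, hX, hG⟩ := hval V hV
    refine ⟨⟨_, X, hX, rfl⟩, ?_⟩
    intro z hz
    change z ∈ S.ch k X N at hz
    unfold Sys.ch at hz
    induction hz using Algebra.adjoin_induction with
    | mem z hz => obtain ⟨t, ht, hz⟩ := hz; exact hG t ht z hz
    | algebraMap c =>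
      have := hV (algebraMap k _ c)
      rwa [← IsScalarTower.algebraMap_apply] at this
    | add x y _ _ hx hy => exact add_mem hx hy
    | mul x y _ _ hx hy => exact mul_mem hx hy
  · rintro ⟨D, X, hX, rfl⟩
    subst hS
    obtain ⟨hadj, hind⟩ := algInd_fam (k := k) p hh0 htrans hforest hβ1 hβ2 hU hsp he hN hX
    change Algebra.Smooth k ((gsys k U r β (p ^ h0) a sp e).ch k X N)
    rw [hadj]
    exact smooth_of_algInd hind
  · rintro ⟨D, X, hX, rfl⟩ z hz u
    have hsupp : ∀ i j, u.1.1 i j ≠ 0 → r j i := (hmem u).1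
    have hSupp : Supp S (fun i j => u.1.1 i j) := by
      subst hS
      exact fun i j hij => (rel_iff htrans hβ1 i j).mpr (hsupp i j hij)
    have hSupp' : Supp S (fun i j => (u.1⁻¹).1 i j) := by
      subst hS
      exact fun i j hij => (rel_iff htrans hβ1 i j).mpr (supp_inv hrefl htrans hsupp i j hij)
    have hE : Eqv hQ' (σ u : FractionRing (MvPolynomial {z : Fin n × L // z.1 ∈ U z.2} k) →+*
        FractionRing (MvPolynomial {z : Fin n × L // z.1 ∈ U z.2} k))
        (fun i j => u.1.1 i j) S.v S.a := by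
      subst hS
      exact eqv_gsys hQ hU u.1 hsupp (σ u : _ →+* _) (hσ u)
    have hq' : Fintype.card F = S.Q ^ h := by subst hS; exact hq
    have hfix := fix_G (X := X) (σ := (σ u : _ →+* _)) hF' hq' hE hSupp
      (blk_det_ne_zero hF' hSupp hSupp') (by
        intro t ht
        subst hS
        obtain ⟨h1, i, rfl, huniq⟩ := ht
        have hi : ∀ j, r i j → r j i → j = i := fun j h2 h3 =>
          huniq j ((hβ1 j i).mpr ⟨h3, h2⟩)
        let _ : Unique ((gsys k U r β (p ^ h0) a sp e).Blk (β i)) :=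
          { default := ⟨i, rfl⟩, uniq := fun j => Subtype.ext (huniq j.1 j.2) }
        rw [Matrix.det_unique, gsys_e huniq]
        exact (hmem u).2 i hi) hX
    change z ∈ S.ch k X N at hz
    unfold Sys.ch at hz
    induction hz using Algebra.adjoin_induction with
    | mem z hz => obtain ⟨t, ht, hz⟩ := hz; exact hfix t ht z hz
    | algebraMap c => exact (σ u).commutes c
    | add x y _ _ hx hy => rw [map_add, hx, hy]
    | mul x y _ _ hx hy => rw [map_mul, hx, hy]

omit [Fintype F] [Finite L] in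
/-- The trivial twists. -/
lemma parInv_zero (p p' : ℕ) :
    parInv k F r e p (fun _ : L => 0) U = parInv k F r e p' (fun _ : L => 0) U := by
  have h1 : ∀ u : Matrix (Fin n) (Fin n) F,
      parAct k p (fun _ : L => 0) U u = parAct k p' (fun _ : L => 0) U u := by
    intro u
    unfold parAct
    simp only [pow_zero, pow_one]
  ext g
  constructor
  · intro hg u hu
    rw [← h1]
    exact hg u hu
  · intro hg u hu
    rw [h1]
    exact hg u hu

end Main

/-- Resolution of the quotients of the sums of Frobenius twists of subrepresentations of the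
standard representation by the groups attached to preorders of forest type. -/
theorem resolution_parInv {k : Type} [Field k] {F : Type} [Field F] [Finite F] [Algebra F k]
    (p : ℕ) [hp : Fact p.Prime] [CharP F p] {n : ℕ} {L : Type} [Finite L]
    {U : L → Set (Fin n)} {r : Fin n → Fin n → Prop} {a : L → ℕ} {e : Fin n → ℕ}
    (hrefl : ∀ i, r i i) (htrans : ∀ i j l, r i j → r j l → r i l)
    (hforest : ∀ i j l, r i l → r j l → r i j ∨ r j i)
    (he : ∀ i, e i ∣ Nat.card F - 1)
    (hU : ∀ l i j, i ∈ U l → r i j → j ∈ U l) {l0 : L} (hl0 : U l0 = Set.univ)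
    (hae : (∀ l, a l = 0) ∨ ∀ i, e i = Nat.card F - 1) :
    Algebra.FiniteType k (parInv k F r e p a U) ∧
    ∃ (Y : Scheme.{0}) (sY : Y ⟶ Spec (CommRingCat.of k))
      (f : Y ⟶ Spec (CommRingCat.of (parInv k F r e p a U))),
      AlgebraicGeometry.IsIntegral Y ∧ AlgebraicGeometry.Smooth sY ∧
      f ≫ Spec.map (CommRingCat.ofHom (algebraMap k (parInv k F r e p a U))) = sY ∧
      AlgebraicGeometry.IsProper f ∧
      ∃ V : (Spec (CommRingCat.of (parInv k F r e p a U))).Opens, V ≠ ⊥ ∧
        IsIso (AlgebraicGeometry.morphismRestrict f V) := by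
  classical
  have : Fintype F := Fintype.ofFinite F
  obtain ⟨h', -, hq'⟩ := FiniteField.card F p
  rw [Nat.card_eq_fintype_card] at he hae
  have hq2 : 1 ≤ (h' : ℕ) := h'.2
  rcases hae with ha | ha
  · have ha' : a = fun _ => 0 := funext ha
    subst ha'
    rw [parInv_zero p (p ^ (h' : ℕ))]
    exact resolution_aux p (h0 := (h' : ℕ)) (h := 1) hq2 (by rw [hq', pow_one]) hrefl htrans
      hforest hU True (fun _ => rfl) (fun _ i => by rw [← hq']; exact he i)
      (fun h => absurd trivial h) hl0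
  · have hNe : NeZero (h' : ℕ) := ⟨h'.ne_zero⟩
    have h1 := resolution_aux (k := k) (F := F) (U := U) (a := a) p (h0 := 1) (h := (h' : ℕ))
      le_rfl (by rw [hq', pow_one]) hrefl htrans
      hforest hU False (fun h => h.elim) (fun h => h.elim) (fun _ i => ha i) hl0
    rw [pow_one] at h1
    exact h1

end Pool.Agent.H15Par
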