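import Pool.Agent.Lib.Par_H15.One

/-! # The gluing condition for one stage -/

set_option autoImplicit false

open Pool.Agent.H15Model

namespace Pool.Agent.H15Par

section Glue

variable {K : Type} [Field K] {L R I : Type} [Fintype I] [DecidableEq I] {h : ℕ}

/-- The generators of the chart ring at one stage. If `S` holds, the `e`-th power of the
determinant in degree `0` is one of them. -/
def gen (Q : ℕ) (v : L → R → K) (a : L → ℕ) (c : ZMod h → I → L × ℕ) (d : L → ℕ) (f : I → R)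
    (S : Prop) (e : ℕ) : Set K :=
  (Set.range fun z : L × I => co Q v c f (dg h a (z.1, d z.1)) (mon Q v (z.1, d z.1)) z.2) ∪
    {z | S ∧ z = (Dl Q v c f 0).det ^ e}

variable {Q : ℕ} {v : L → R → K} {a : L → ℕ} {c : ZMod h → I → L × ℕ} {d : L → ℕ} {f : I → R}
  {v' : L → R → K} {a' : L → ℕ} {c' : ZMod h → I → L × ℕ} {d' : L → ℕ}

lemma det_mem {E : Subring K} {M : Matrix I I K} (hM : ∀ s t, M s t ∈ E) : M.det ∈ E := by
  rw [Matrix.det_apply]
  exact sum_mem fun σ _ => zsmul_mem (prod_mem fun t _ => hM _ _) _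

lemma adj_mem {E : Subring K} {M : Matrix I I K} (hM : ∀ s t, M s t ∈ E) (s t : I) :
    M.adjugate s t ∈ E := by
  rw [Matrix.adjugate_apply, Matrix.det_apply]
  refine sum_mem fun σ _ => zsmul_mem (prod_mem fun x _ => ?_) _
  rw [Matrix.updateRow_apply]
  split_ifs
  · rw [Pi.single_apply]
    split_ifs
    · exact one_mem _
    · exact zero_mem _
  · exact hM _ _

lemma glue_one [NeZero h] (hQ : Fr K Q) {k : Type} [Field k] [Algebra k K]
    {C C' : Subalgebra k K} {S : Prop} {e : ℕ}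
    (hv : Valid a c d) (hc : ∀ j, (Dl Q v c f j).det ≠ 0)
    (hv' : Valid a' c' d') (hc' : ∀ j, (Dl Q v' c' f j).det ≠ 0)
    (hle : ∀ (j : ZMod h) w, w ∈ lam (C ⊔ C').toSubring Q v' a' j →
      w ∈ lam (C ⊔ C').toSubring Q v a j)
    (hle' : ∀ (j : ZMod h) w, w ∈ lam (C ⊔ C').toSubring Q v a j →
      w ∈ lam (C ⊔ C').toSubring Q v' a' j)
    (hC : IsAway C (C ⊔ C')) :
    IsAway (C ⊔ Algebra.adjoin k (gen Q v a c d f S e))
      ((C ⊔ Algebra.adjoin k (gen Q v a c d f S e)) ⊔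
        (C' ⊔ Algebra.adjoin k (gen Q v' a' c' d' f S e))) := by
  obtain ⟨G, hG⟩ : ∃ G, G = Algebra.adjoin k (gen Q v a c d f S e) := ⟨_, rfl⟩
  obtain ⟨G', hG'⟩ : ∃ G', G' = Algebra.adjoin k (gen Q v' a' c' d' f S e) := ⟨_, rfl⟩
  rw [← hG, ← hG']
  have hgen : ∀ l s, co Q v c f (dg h a (l, d l)) (mon Q v (l, d l)) s ∈ G := by
    intro l s; rw [hG]; exact Algebra.subset_adjoin (Or.inl ⟨(l, s), rfl⟩)
  have hgen' : ∀ l s, co Q v' c' f (dg h a' (l, d' l)) (mon Q v' (l, d' l)) s ∈ G' := by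
    intro l s; rw [hG']; exact Algebra.subset_adjoin (Or.inl ⟨(l, s), rfl⟩)
  -- the ring `F`
  obtain ⟨F, hF⟩ : ∃ F, F = (C ⊔ G) ⊔ (C ⊔ C') := ⟨_, rfl⟩
  have hEF : C ⊔ C' ≤ F := by rw [hF]; exact le_sup_right
  have hGF : G ≤ F := by rw [hF]; exact le_sup_of_le_left le_sup_right
  have hFE : F ≤ (C ⊔ G) ⊔ (C' ⊔ G') := by
    rw [hF]
    exact sup_le le_sup_left (sup_le (le_sup_of_le_left le_sup_left)
      (le_sup_of_le_right le_sup_left))
  have hEF' : (C ⊔ C').toSubring ≤ F.toSubring := hEF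
  have hF1 : IsAway (C ⊔ G) F := by
    rw [hF]
    exact hC.sup_right le_sup_left
  refine hF1.trans ?_
  -- the transition matrices
  obtain ⟨T, hT⟩ : ∃ T : ZMod h → Matrix I I K,
    T = fun j => (Dl Q v c f j)⁻¹ * Dl Q v' c' f j := ⟨_, rfl⟩
  have hco : ∀ j w, w ∈ lam (C ⊔ C').toSubring Q v' a' j → ∀ s, co Q v c f j w s ∈ F := by
    intro j w hw
    have h1 := lam_mono hEF' (hle j w hw)
    exact (main2 hQ hv hc (E := F.toSubring) (fun l s => hGF (hgen l s)) h1).1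
  have hTF : ∀ j s t, T j s t ∈ F.toSubring := by
    intro j s t
    have h1 : T j s t = co Q v c f j (mon Q v' (c' j t)) s := by rw [hT]; rfl
    rw [h1]
    apply hco
    have h2 := mon_mem_lam (v := v') (a := a') (h := h) (Q := Q) (C ⊔ C').toSubring (c' j t)
    rwa [hv'.deg] at h2
  have hdet : ∀ j, (T j).det ≠ 0 := by
    intro j
    rw [hT, Matrix.det_mul, Matrix.det_nonsing_inv, Ring.inverse_eq_inv']
    exact mul_ne_zero (inv_ne_zero (hc j)) (hc' j)
  have hdetF : ∀ j, (T j).det ∈ F := fun j => det_mem (E := F.toSubring) (hTF j)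
  have hinvF : ∀ j, ((T j).det)⁻¹ ∈ (C ⊔ G) ⊔ (C' ⊔ G') := by
    intro j
    have h1 : ((T j).det)⁻¹ = ((Dl Q v' c' f j)⁻¹ * Dl Q v c f j).det := by
      rw [hT, Matrix.det_mul, Matrix.det_mul, Matrix.det_nonsing_inv, Matrix.det_nonsing_inv,
        Ring.inverse_eq_inv', mul_inv, inv_inv, mul_comm]
    rw [h1]
    refine det_mem (E := ((C ⊔ G) ⊔ (C' ⊔ G')).toSubring) ?_
    intro s t
    have h2 := mon_mem_lam (v := v) (a := a) (h := h) (Q := Q) (C ⊔ C').toSubring (c j t)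
    rw [hv.deg] at h2
    have h3 : (C ⊔ C').toSubring ≤ ((C ⊔ G) ⊔ (C' ⊔ G')).toSubring :=
      (hEF.trans hFE : C ⊔ C' ≤ (C ⊔ G) ⊔ (C' ⊔ G'))
    have h4 := (main2 hQ hv' hc' (E := ((C ⊔ G) ⊔ (C' ⊔ G')).toSubring)
      (fun l s => (le_sup_right : C' ⊔ G' ≤ _) ((le_sup_right : G' ≤ _) (hgen' l s)))
      (lam_mono h3 (hle' j _ h2))).1 s
    exact h4
  refine ⟨∏ j, (T j).det, ?_⟩
  apply awayOf_of_generated hFE (S := gen Q v' a' c' d' f S e)
  · exact prod_mem fun j _ => hdetF j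
  · rw [Finset.prod_ne_zero_iff]
    exact fun j _ => hdet j
  · rw [← Finset.prod_inv_distrib]
    exact prod_mem fun j _ => hinvF j
  · rintro z (⟨⟨l, s⟩, rfl⟩ | ⟨hS, rfl⟩)
    · refine ⟨1, ?_⟩
      rw [pow_one]
      obtain ⟨j, hj⟩ : ∃ j, j = dg h a' (l, d' l) := ⟨_, rfl⟩
      obtain ⟨w, hw⟩ : ∃ w, w = mon Q v' (l, d' l) := ⟨_, rfl⟩
      change co Q v' c' f (dg h a' (l, d' l)) (mon Q v' (l, d' l)) s * _ ∈ _
      rw [← hj, ← hw]
      have hwm : ∀ t, co Q v c f j w t ∈ F := by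
        apply hco
        rw [hj, hw]
        exact mon_mem_lam _ _
      have h1 : co Q v' c' f j w s * (T j).det = (T j).adjugate.mulVec (co Q v c f j w) s := by
        have h2 : (T j).mulVec (co Q v' c' f j w) = co Q v c f j w := by
          rw [hT]
          simp only [co, LinearMap.comp_apply, Matrix.mulVecLin_apply]
          rw [Matrix.mulVec_mulVec, Matrix.mul_assoc,
            Matrix.mul_nonsing_inv _ (isUnit_iff_ne_zero.mpr (hc' j)), Matrix.mul_one]
        rw [← h2, Matrix.mulVec_mulVec, Matrix.adjugate_mul, Matrix.smul_mulVec,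
          Matrix.one_mulVec, Pi.smul_apply, smul_eq_mul, mul_comm]
      rw [← Finset.mul_prod_erase Finset.univ _ (Finset.mem_univ j), ← mul_assoc, h1]
      refine mul_mem ?_ (prod_mem fun j' _ => hdetF j')
      simp only [Matrix.mulVec, dotProduct]
      exact sum_mem fun t _ => mul_mem (adj_mem (E := F.toSubring) (hTF j) _ _) (hwm t)
    · refine ⟨0, ?_⟩
      rw [pow_zero, mul_one]
      have h1 : (Dl Q v' c' f 0).det = (Dl Q v c f 0).det * (T 0).det := by
        rw [hT]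
        dsimp only
        rw [← Matrix.det_mul, ← Matrix.mul_assoc,
          Matrix.mul_nonsing_inv _ (isUnit_iff_ne_zero.mpr (hc 0)), Matrix.one_mul]
      rw [h1, mul_pow]
      refine mul_mem (hGF ?_) (pow_mem (hdetF 0) _)
      rw [hG]
      exact Algebra.subset_adjoin (Or.inr ⟨hS, rfl⟩)
  · rw [← hG']
    refine sup_le (le_sup_of_le_left ?_) (sup_le (le_sup_of_le_left ?_) le_sup_right)
    · rw [hF]; exact le_sup_left
    · exact le_sup_right.trans hEF

end Glue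

end Pool.Agent.H15Par
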