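import Pool.Agent.Lib.Par_H15.ValOne

/-! # Choice of a closed set of monomials adapted to a valuation ring -/

set_option autoImplicit false

open Pool.Agent.H15Model

namespace Pool.Agent.H15Par

section RI

variable {K : Type} [Field K] {L I : Type} [Fintype I] [DecidableEq I] (V : ValuationSubring K)

/-- residual independence of a finite family with respect to a lattice -/
def RI {X : Type} (f : X → I → K) (Λ : Submodule V (I → K)) (S : Finset X) : Prop :=
  ∀ y : X → V, ∑ x ∈ S, y x • f x ∈ IsLocalRing.maximalIdeal V • Λ →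
    ∀ x ∈ S, y x ∈ IsLocalRing.maximalIdeal V

variable {V}

omit [Fintype I] [DecidableEq I] in
lemma RI.insert {X : Type} [DecidableEq X] {f : X → I → K} {Λ : Submodule V (I → K)}
    {S : Finset X} (hS : RI V f Λ S) {x0 : X} (hx0 : x0 ∉ S) (hmem : f x0 ∈ Λ)
    (hN : f x0 ∉ Submodule.span V (f '' (S : Set X)) ⊔ IsLocalRing.maximalIdeal V • Λ) :
    RI V f Λ (insert x0 S) := by
  intro y hy
  rw [Finset.sum_insert hx0] at hy
  have h1 : y x0 ∈ IsLocalRing.maximalIdeal V := by
    by_contra h0
    have hunit : IsUnit (y x0) := by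
      rwa [IsLocalRing.mem_maximalIdeal, mem_nonunits_iff, not_not] at h0
    obtain ⟨u, hu⟩ := hunit
    apply hN
    have h2 : f x0 = (↑u⁻¹ : V) • (y x0 • f x0 + ∑ x ∈ S, y x • f x) -
        (↑u⁻¹ : V) • ∑ x ∈ S, y x • f x := by
      rw [smul_add, smul_smul, ← hu, Units.inv_mul, one_smul]
      abel
    rw [h2]
    refine sub_mem ?_ ?_
    · exact Submodule.mem_sup_right (Submodule.smul_mem _ _ hy)
    · refine Submodule.mem_sup_left (Submodule.smul_mem _ _ ?_)
      exact sum_mem fun x hx => Submodule.smul_mem _ _ (Submodule.subset_span ⟨x, hx, rfl⟩)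
  have h3 : ∑ x ∈ S, y x • f x ∈ IsLocalRing.maximalIdeal V • Λ := by
    have h4 : ∑ x ∈ S, y x • f x = (y x0 • f x0 + ∑ x ∈ S, y x • f x) - y x0 • f x0 := by abel
    rw [h4]
    exact sub_mem hy (Submodule.smul_mem_smul h1 hmem)
  intro x hx
  rcases Finset.mem_insert.mp hx with rfl | hx
  · exact h1
  · exact hS y h3 x hx

omit [Fintype I] [DecidableEq I] in
lemma RI.linearIndependent {X : Type} {f : X → I → K} {Λ : Submodule V (I → K)}
    {S : Finset X} (hS : RI V f Λ S) : LinearIndependent K (fun x : S => f x) := by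
  classical
  rw [Fintype.linearIndependent_iff]
  intro g hg
  by_contra hcon
  push Not at hcon
  obtain ⟨x0, hx0⟩ := hcon
  have hne : Nonempty S := ⟨x0⟩
  obtain ⟨x1, hmax⟩ := Finite.exists_max (fun x : S => V.valuation (g x))
  have hx1 : g x1 ≠ 0 := by
    intro h0
    have h1 := hmax x0
    rw [h0, map_zero] at h1
    have := le_antisymm h1 zero_le
    rw [map_eq_zero] at this
    exact hx0 this
  have hV : ∀ x, g x / g x1 ∈ V := by
    intro x
    rw [← ValuationSubring.valuation_le_one_iff, map_div₀]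
    exact div_le_one_of_le₀ (hmax x) zero_le
  have h2 := hS (fun x => if hx : x ∈ S then ⟨g ⟨x, hx⟩ / g x1, hV _⟩ else 0) ?_ x1 x1.2
  · rw [dif_pos x1.2] at h2
    have h3 : (⟨g ⟨x1, x1.2⟩ / g x1, hV _⟩ : V) = 1 := Subtype.ext (div_self hx1)
    rw [h3] at h2
    exact (Ideal.ne_top_iff_one _).mp (IsLocalRing.maximalIdeal.isMaximal V).ne_top h2
  · have h4 : ∑ x ∈ S, (if hx : x ∈ S then (⟨g ⟨x, hx⟩ / g x1, hV _⟩ : V) else 0) • f x =
        (g x1)⁻¹ • ∑ x : S, g x • f x := by
      rw [← Finset.sum_coe_sort S, Finset.smul_sum]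
      refine Finset.sum_congr rfl fun x _ => ?_
      rw [dif_pos x.2, smul_smul, mul_comm, ← div_eq_mul_inv]
      rfl
    rw [h4, hg, smul_zero]
    exact zero_mem _

end RI

section Greedy

variable {K : Type} [Field K] {L I : Type} [Fintype I] [DecidableEq I] [Fintype L]
  [DecidableEq L] {h : ℕ} [NeZero h]
variable {Q : ℕ} (v : L → I → K) (a : L → ℕ) (V : ValuationSubring K)

/-- the lattice of degree `j` -/
def Lat (h : ℕ) (Q : ℕ) (v : L → I → K) (a : L → ℕ) (V : ValuationSubring K) (j : ZMod h) :
    Submodule V (I → K) :=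
  Submodule.span V {w | ∃ x : L × ℕ, dg h a x = j ∧ w = mon Q v x}

/-- the monomials of degree `j` of the closed set given by `d` -/
def Sf (h : ℕ) (a : L → ℕ) (d : L → ℕ) (j : ZMod h) : Finset (L × ℕ) :=
  (Finset.univ ×ˢ Finset.range (∑ l, d l)).filter fun x => x.2 < d x.1 ∧ dg h a x = j

omit [DecidableEq L] [NeZero h] in
lemma mem_Sf {d : L → ℕ} {j : ZMod h} {x : L × ℕ} :
    x ∈ Sf h a d j ↔ x.2 < d x.1 ∧ dg h a x = j := by
  unfold Sf
  rw [Finset.mem_filter, Finset.mem_product, Finset.mem_range]
  constructor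
  · exact fun h => h.2
  · intro h
    refine ⟨⟨Finset.mem_univ _, ?_⟩, h⟩
    exact lt_of_lt_of_le h.1 (Finset.single_le_sum (fun _ _ => Nat.zero_le _)
      (Finset.mem_univ x.1))

omit [NeZero h] in
lemma Sf_update (d : L → ℕ) (l : L) (j : ZMod h) :
    Sf h a (Function.update d l (d l + 1)) j =
      if j = dg h a (l, d l) then insert (l, d l) (Sf h a d j) else Sf h a d j := by
  ext x
  obtain ⟨l', r⟩ := x
  split_ifs with hj
  · rw [Finset.mem_insert, mem_Sf, mem_Sf]
    by_cases hl : l' = l
    · subst hl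
      simp only [Function.update_self, Prod.mk.injEq, true_and]
      constructor
      · rintro ⟨h1, h2⟩
        rcases Nat.lt_succ_iff_lt_or_eq.mp h1 with h3 | h3
        · exact Or.inr ⟨h3, h2⟩
        · exact Or.inl h3
      · rintro (h1 | ⟨h1, h2⟩)
        · subst h1
          exact ⟨Nat.lt_succ_self _, hj.symm⟩
        · exact ⟨h1.trans (Nat.lt_succ_self _), h2⟩
    · simp only [Function.update_of_ne hl, Prod.mk.injEq, hl, false_and, false_or]
  · rw [mem_Sf, mem_Sf]
    by_cases hl : l' = l
    · subst hl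
      simp only [Function.update_self]
      constructor
      · rintro ⟨h1, h2⟩
        rcases Nat.lt_succ_iff_lt_or_eq.mp h1 with h3 | h3
        · exact ⟨h3, h2⟩
        · exfalso
          apply hj
          rw [← h2, h3]
      · rintro ⟨h1, h2⟩
        exact ⟨h1.trans (Nat.lt_succ_self _), h2⟩
    · simp only [Function.update_of_ne hl]

variable {V}

omit [DecidableEq I] in
/-- Greedy choice. -/
lemma exists_greedy : ∃ d : L → ℕ, (∀ j, RI V (mon Q v) (Lat h Q v a V j) (Sf h a d j)) ∧
    ∀ l, mon Q v (l, d l) ∈ Submodule.span V (mon Q v '' (Sf h a d (dg h a (l, d l)) :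
      Set (L × ℕ))) ⊔ IsLocalRing.maximalIdeal V • Lat h Q v a V (dg h a (l, d l)) := by
  let T : Set ℕ := {N | ∃ d : L → ℕ, (∀ j, RI V (mon Q v) (Lat h Q v a V j) (Sf h a d j)) ∧
    ∑ j : ZMod h, (Sf h a d j).card = N}
  have hne : T.Nonempty := by
    refine ⟨0, fun _ => 0, ?_, ?_⟩
    · intro j y _ x hx
      rw [mem_Sf] at hx
      exact absurd hx.1 (by omega)
    · refine Finset.sum_eq_zero fun j _ => ?_
      rw [Finset.card_eq_zero, Finset.eq_empty_iff_forall_notMem]
      intro x hx
      rw [mem_Sf] at hx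
      exact absurd hx.1 (by omega)
  have hbdd : BddAbove T := by
    refine ⟨∑ j : ZMod h, Fintype.card I, ?_⟩
    rintro _ ⟨d, hd, rfl⟩
    refine Finset.sum_le_sum fun j _ => ?_
    have h1 := (hd j).linearIndependent.fintype_card_le_finrank
    rw [Fintype.card_coe, Module.finrank_fintype_fun_eq_card] at h1
    exact h1
  obtain ⟨d, hd, hdN⟩ := Nat.sSup_mem hne hbdd
  refine ⟨d, hd, ?_⟩
  intro l
  by_contra hcon
  have hnot : ∀ j, (l, d l) ∉ Sf h a d j := by
    intro j hj
    rw [mem_Sf] at hj
    exact absurd hj.1 (lt_irrefl _)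
  have hnew : (sSup T + 1) ∈ T := by
    refine ⟨Function.update d l (d l + 1), ?_, ?_⟩
    · intro j
      rw [Sf_update]
      split_ifs with hj
      · subst hj
        exact (hd _).insert (hnot _) (Submodule.subset_span ⟨_, rfl, rfl⟩) hcon
      · exact hd j
    · simp_rw [Sf_update]
      rw [← hdN]
      rw [← Finset.add_sum_erase Finset.univ _ (Finset.mem_univ (dg h a (l, d l))),
        ← Finset.add_sum_erase Finset.univ (fun j => (Sf h a d j).card)
          (Finset.mem_univ (dg h a (l, d l))), if_pos rfl, Finset.card_insert_of_notMem (hnot _)]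
      have h2 : ∑ x ∈ Finset.univ.erase (dg h a (l, d l)),
          (if x = dg h a (l, d l) then insert (l, d l) (Sf h a d x) else Sf h a d x).card =
          ∑ x ∈ Finset.univ.erase (dg h a (l, d l)), (Sf h a d x).card := by
        refine Finset.sum_congr rfl fun x hx => ?_
        rw [if_neg (Finset.ne_of_mem_erase hx)]
      rw [h2]
      ring
  have := le_csSup hbdd hnew
  omega

omit [DecidableEq L] [NeZero h] [Fintype L] [Fintype I] [DecidableEq I] in
lemma lat_frob (hQ : Fr K Q) {j : ZMod h} {w : I → K} (hw : w ∈ Lat h Q v a V j) :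
    fr Q w ∈ Lat h Q v a V (j + 1) := by
  induction hw using Submodule.span_induction with
  | mem w hw =>
    obtain ⟨x, hx, rfl⟩ := hw
    refine Submodule.subset_span ⟨(x.1, x.2 + 1), ?_, fr_mon x⟩
    rw [dg_succ, ← hx]
  | zero => rw [fr_zero hQ]; exact zero_mem _
  | add x y _ _ hx hy => rw [fr_add hQ]; exact add_mem hx hy
  | smul c w _ hw =>
    have : fr Q (c • w) = (c ^ Q) • fr Q w := by
      funext i
      change ((c : K) * w i) ^ Q = ((c ^ Q : V) : K) * w i ^ Q
      rw [mul_pow]
      rfl
    rw [this]; exact Submodule.smul_mem _ _ hw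

omit [DecidableEq L] [NeZero h] [Fintype L] [Fintype I] [DecidableEq I] in
lemma maxlat_frob (hQ : Fr K Q) {j : ZMod h} {w : I → K}
    (hw : w ∈ IsLocalRing.maximalIdeal V • Lat h Q v a V j) :
    fr Q w ∈ IsLocalRing.maximalIdeal V • Lat h Q v a V (j + 1) := by
  induction hw using Submodule.smul_induction_on' with
  | smul c hc w hw =>
    have : fr Q (c • w) = (c ^ Q) • fr Q w := by
      funext i
      change ((c : K) * w i) ^ Q = ((c ^ Q : V) : K) * w i ^ Q
      rw [mul_pow]
      rfl
    rw [this]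
    exact Submodule.smul_mem_smul (Ideal.pow_mem_of_mem _ hc Q (by have := hQ.two_le; omega))
      (lat_frob v a hQ hw)
  | add x _ y _ hx hy => rw [fr_add hQ]; exact add_mem hx hy

omit [DecidableEq L] [NeZero h] [Fintype I] [DecidableEq I] in
/-- If all the minimal missing monomials lie in the span of the chosen ones modulo the maximal
ideal, then all the monomials do. -/
lemma mon_mem_of_greedy (hQ : Fr K Q) {d : L → ℕ}
    (hd : ∀ l, mon Q v (l, d l) ∈ Submodule.span V (mon Q v '' (Sf h a d (dg h a (l, d l)) :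
      Set (L × ℕ))) ⊔ IsLocalRing.maximalIdeal V • Lat h Q v a V (dg h a (l, d l)))
    (l : L) (r : ℕ) :
    mon Q v (l, r) ∈ Submodule.span V (mon Q v '' (Sf h a d (dg h a (l, r)) :
      Set (L × ℕ))) ⊔ IsLocalRing.maximalIdeal V • Lat h Q v a V (dg h a (l, r)) := by
  have hle : ∀ l r, r ≤ d l → mon Q v (l, r) ∈ Submodule.span V
      (mon Q v '' (Sf h a d (dg h a (l, r)) : Set (L × ℕ))) ⊔
        IsLocalRing.maximalIdeal V • Lat h Q v a V (dg h a (l, r)) := by
    intro l r hr
    rcases hr.lt_or_eq with h1 | h1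
    · refine Submodule.mem_sup_left (Submodule.subset_span ⟨(l, r), ?_, rfl⟩)
      rw [Finset.mem_coe, mem_Sf]
      exact ⟨h1, rfl⟩
    · rw [h1]; exact hd l
  induction r with
  | zero => exact hle l 0 (Nat.zero_le _)
  | succ r ih =>
    by_cases hr : r + 1 ≤ d l
    · exact hle l _ hr
    · rw [dg_succ, mon_succ]
      obtain ⟨w1, hw1, w2, hw2, hw⟩ := Submodule.mem_sup.mp ih
      rw [← hw, fr_add hQ]
      refine add_mem ?_ (Submodule.mem_sup_right (maxlat_frob v a hQ hw2))
      clear hw hw2 ih
      induction hw1 using Submodule.span_induction with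
      | mem w hw =>
        obtain ⟨x, hx, rfl⟩ := hw
        rw [Finset.mem_coe, mem_Sf] at hx
        have h3 := hle x.1 (x.2 + 1) hx.1
        rw [dg_succ, show dg h a (x.1, x.2) = dg h a (l, r) from hx.2] at h3
        rw [fr_mon]
        exact h3
      | zero => rw [fr_zero hQ]; exact zero_mem _
      | add x y _ _ hx hy => rw [fr_add hQ]; exact add_mem hx hy
      | smul c w _ hw =>
        have : fr Q (c • w) = (c ^ Q) • fr Q w := by
          funext i
          change ((c : K) * w i) ^ Q = ((c ^ Q : V) : K) * w i ^ Q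
          rw [mul_pow]
          rfl
        rw [this]; exact Submodule.smul_mem _ _ hw

/-- Every valuation ring for which the lattices are finitely generated and span the space
contains the coordinates of a chart. -/
lemma exists_chart (hQ : Fr K Q) (hfg : ∀ j : ZMod h, (Lat h Q v a V j).FG)
    (htop : ∀ j : ZMod h, Submodule.span K {w | ∃ x, dg h a x = j ∧ w = mon Q v x} = ⊤) :
    ∃ (c : ZMod h → I → L × ℕ) (d : L → ℕ), Valid a c d ∧ (∀ j, (Dl Q v c id j).det ≠ 0) ∧
      ∀ l t, co Q v c id (dg h a (l, d l)) (mon Q v (l, d l)) t ∈ V := by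
  obtain ⟨d, hRI, hd⟩ := exists_greedy (V := V) (h := h) (Q := Q) v a
  have hmon := mon_mem_of_greedy v a hQ hd
  have hspan : ∀ j : ZMod h, Lat h Q v a V j ≤
      Submodule.span V (mon Q v '' (Sf h a d j : Set (L × ℕ))) := by
    intro j
    refine Submodule.le_of_le_smul_of_le_jacobson_bot
      (I := IsLocalRing.maximalIdeal V) (hfg j) (IsLocalRing.maximalIdeal_le_jacobson _) ?_
    conv_lhs => unfold Lat
    rw [Submodule.span_le]
    rintro _ ⟨x, rfl, rfl⟩
    exact hmon x.1 x.2
  have hcard : ∀ j : ZMod h, (Sf h a d j).card = Fintype.card I := by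
    intro j
    apply le_antisymm
    · have h1 := (hRI j).linearIndependent.fintype_card_le_finrank
      rw [Fintype.card_coe, Module.finrank_fintype_fun_eq_card] at h1
      exact h1
    · classical
      have h1 : Submodule.span K (((Sf h a d j).image (mon Q v) : Finset (I → K)) :
          Set (I → K)) = ⊤ := by
        rw [eq_top_iff, ← htop j, Submodule.span_le]
        rintro _ ⟨x, hx, rfl⟩
        have h3 : mon Q v x ∈ Submodule.span V (mon Q v '' (Sf h a d j : Set (L × ℕ))) :=
          hspan j (Submodule.subset_span ⟨x, hx, rfl⟩)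
        have h4 := Submodule.span_le_restrictScalars V K (mon Q v '' (Sf h a d j : Set (L × ℕ))) h3
        rw [Finset.coe_image]
        exact h4
      have h5 := finrank_span_finset_le_card (R := K) ((Sf h a d j).image (mon Q v))
      rw [Set.finrank, h1, finrank_top, Module.finrank_fintype_fun_eq_card] at h5
      exact h5.trans Finset.card_image_le
  let eq : ∀ j : ZMod h, Sf h a d j ≃ I := fun j =>
    Fintype.equivOfCardEq (by rw [Fintype.card_coe]; exact hcard j)
  obtain ⟨c, hc⟩ : ∃ c : ZMod h → I → L × ℕ, c = fun j t => ((eq j).symm t : L × ℕ) :=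
    ⟨_, rfl⟩
  have hcmem : ∀ j t, c j t ∈ Sf h a d j := by
    intro j t; rw [hc]; exact ((eq j).symm t).2
  have hcsurj : ∀ j, ∀ x ∈ Sf h a d j, ∃ t, c j t = x := by
    intro j x hx
    refine ⟨eq j ⟨x, hx⟩, ?_⟩
    rw [hc]
    simp
  have hval : Valid a c d := by
    refine ⟨fun j t => ?_, fun j t => ?_, fun l r hr => ?_⟩
    · have := hcmem j t
      rw [mem_Sf] at this
      exact this.1
    · have := hcmem j t
      rw [mem_Sf] at this
      exact this.2
    · apply hcsurj
      rw [mem_Sf]
      exact ⟨hr, rfl⟩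
  have hdet : ∀ j, (Dl Q v c id j).det ≠ 0 := by
    intro j
    have h1 : LinearIndependent K (Dl Q v c id j).col := by
      have h2 := (hRI j).linearIndependent.comp (eq j).symm (eq j).symm.injective
      have h3 : (Dl Q v c id j).col = (fun x : Sf h a d j => mon Q v x) ∘ (eq j).symm := by
        funext t
        funext i
        rw [hc]
        rfl
      rw [h3]; exact h2
    have h4 := Matrix.linearIndependent_cols_iff_isUnit.mp h1
    rw [Matrix.isUnit_iff_isUnit_det, isUnit_iff_ne_zero] at h4
    exact h4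
  refine ⟨c, d, hval, hdet, ?_⟩
  intro l t
  have h1 : mon Q v (l, d l) ∈ Submodule.span V
      (Set.range fun t => mon Q v (c (dg h a (l, d l)) t)) := by
    have h2 := hspan (dg h a (l, d l)) (Submodule.subset_span ⟨(l, d l), rfl, rfl⟩)
    refine Submodule.span_mono ?_ h2
    rintro _ ⟨x, hx, rfl⟩
    obtain ⟨t, ht⟩ := hcsurj _ x hx
    exact ⟨t, by beta_reduce; rw [ht]⟩
  rw [Submodule.mem_span_range_iff_exists_fun] at h1
  obtain ⟨y, hy⟩ := h1
  have h3 : co Q v c id (dg h a (l, d l)) (mon Q v (l, d l)) = fun t => (y t : K) := by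
    apply co_unique (hdet _)
    intro i
    rw [← hy]
    simp only [Finset.sum_apply, Pi.smul_apply, id]
    rfl
  rw [h3]
  exact (y t).2

end Greedy

section Block

variable {K : Type} [Field K] {L R I : Type} [Fintype I] [DecidableEq I] [Finite L]
  {h : ℕ} [NeZero h]
variable {Q : ℕ} {v : L → R → K} {a : L → ℕ} {V : ValuationSubring K} {f : I → R}

/-- Version for a block of rows. -/
lemma exists_chart_block (hQ : ∀ m, 1 ≤ m → Fr K (Q ^ m)) (hvV : ∀ l i, v l i ∈ V)
    (htop : ∀ j : ZMod h, Submodule.span K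
      {w : I → K | ∃ x, dg h a x = j ∧ w = fun i => mon Q v x (f i)} = ⊤) :
    ∃ (c : ZMod h → I → L × ℕ) (d : L → ℕ), Valid a c d ∧ (∀ j, (Dl Q v c f j).det ≠ 0) ∧
      ∀ l t, co Q v c f (dg h a (l, d l)) (mon Q v (l, d l)) t ∈ V := by
  classical
  have : Fintype L := Fintype.ofFinite L
  obtain ⟨v', hv'⟩ : ∃ v' : L → I → K, v' = fun l i => v l (f i) := ⟨_, rfl⟩
  have hQ1 : Fr K Q := by simpa using hQ 1 le_rfl
  have hmon : ∀ x, mon Q v' x = fun i => mon Q v x (f i) := by
    intro x; rw [hv']; rfl
  obtain ⟨c, d, h1, h2, h3⟩ := exists_chart (h := h) (V := V) v' a hQ1 (fun j => by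
    have h4 := lam_fg hQ V (v := v') (fun l i => by rw [hv']; exact hvV l (f i)) a j
    obtain ⟨S, hS⟩ := h4
    refine ⟨S, ?_⟩
    apply le_antisymm
    · rw [Submodule.span_le]
      intro w hw
      have h5 : w ∈ lam V.toSubring Q v' a j := by
        rw [← hS]; exact Submodule.subset_span hw
      clear hw hS
      induction h5 using Submodule.span_induction with
      | mem w hw => exact Submodule.subset_span hw
      | zero => exact zero_mem _
      | add x y _ _ hx hy => exact add_mem hx hy
      | smul z w _ hw => exact Submodule.smul_mem _ (⟨z.1, z.2⟩ : V) hw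
    · unfold Lat
      rw [Submodule.span_le]
      rintro w hw
      have h5 : w ∈ Submodule.span V.toSubring (S : Set (I → K)) := by
        rw [hS]; exact Submodule.subset_span hw
      clear hw hS
      induction h5 using Submodule.span_induction with
      | mem w hw => exact Submodule.subset_span hw
      | zero => exact zero_mem _
      | add x y _ _ hx hy => exact add_mem hx hy
      | smul z w _ hw => exact Submodule.smul_mem _ (⟨z.1, z.2⟩ : V) hw) (fun j => by
    rw [← htop j]
    congr 1
    ext w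
    constructor
    · rintro ⟨x, hx, rfl⟩
      exact ⟨x, hx, hmon x⟩
    · rintro ⟨x, hx, rfl⟩
      exact ⟨x, hx, (hmon x).symm⟩)
  refine ⟨c, d, h1, ?_, ?_⟩
  · intro j
    have h5 : Dl Q v c f j = Dl Q v' c id j := by rw [hv']; rfl
    rw [h5]; exact h2 j
  · intro l t
    have h5 : co Q v c f (dg h a (l, d l)) (mon Q v (l, d l)) t =
        co Q v' c id (dg h a (l, d l)) (mon Q v' (l, d l)) t := by rw [hv']; rfl
    rw [h5]; exact h3 l t

end Block

end Pool.Agent.H15Par
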