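import Pool.Agent.Lib.Par_H15.Stage

/-! # Bases of the lattices on the rows below a block -/

set_option autoImplicit false

open Pool.Agent.H15Model

namespace Pool.Agent.H15Par

section Frob

variable {K : Type} [Field K] {Q : ℕ}

lemma Fr.sum_pow (hQ : Fr K Q) {ι : Type} (s : Finset ι) (f : ι → K) :
    (∑ i ∈ s, f i) ^ Q = ∑ i ∈ s, f i ^ Q := by
  classical
  induction s using Finset.induction with
  | empty => simp [zero_pow hQ.pos]
  | insert i s hi ih => rw [Finset.sum_insert hi, Finset.sum_insert hi, hQ.add, ih]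

lemma Fr.pow_aux (hQ : Fr K Q) (m : ℕ) (x y : K) :
    (x + y) ^ (Q ^ m) = x ^ (Q ^ m) + y ^ (Q ^ m) := by
  induction m with
  | zero => simp
  | succ m ih => rw [pow_succ, pow_mul, ih, hQ.add, ← pow_mul, ← pow_mul]

lemma Fr.pow (hQ : Fr K Q) {m : ℕ} (hm : 1 ≤ m) : Fr K (Q ^ m) := by
  refine ⟨?_, hQ.pow_aux m⟩
  calc 2 ≤ Q := hQ.two_le
    _ = Q ^ 1 := (pow_one Q).symm
    _ ≤ Q ^ m := Nat.pow_le_pow_right (by have := hQ.two_le; omega) hm

lemma Fr.sum_pow_pow (hQ : Fr K Q) {ι : Type} (s : Finset ι) (f : ι → K) (m : ℕ) :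
    (∑ i ∈ s, f i) ^ (Q ^ m) = ∑ i ∈ s, f i ^ (Q ^ m) := by
  rcases Nat.eq_zero_or_pos m with rfl | hm
  · simp
  · exact (hQ.pow hm).sum_pow s f

end Frob

section Vanish

variable {K : Type} [Field K] {L R : Type} {h Q : ℕ} {v : L → R → K} {a : L → ℕ}

lemma lam_row_zero (hQ : Fr K Q) {E : Subring K} {i : R} (hi : ∀ l, v l i = 0) {j : ZMod h}
    {w : R → K} (hw : w ∈ lam E Q v a j) : w i = 0 := by
  let N : Submodule E (R → K) :=
    { carrier := {w | w i = 0}
      add_mem' := fun {x y} hx hy => by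
        change x i + y i = 0
        rw [show x i = 0 from hx, show y i = 0 from hy, add_zero]
      zero_mem' := rfl
      smul_mem' := fun z x hx => by
        change (z : K) * x i = 0
        rw [show x i = 0 from hx, mul_zero] }
  have h1 : w ∈ N := by
    apply lam_le_of_cols (N := fun _ => N) _ _ hw
    · intro j w hw
      change w i ^ Q = 0
      rw [show w i = 0 from hw, zero_pow hQ.pos]
    · intro l
      exact hi l
  exact h1

end Vanish

section Span

variable {K : Type} [Field K] {L R : Type} [Fintype R] [DecidableEq R] {h : ℕ}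
variable {S : Sys K L R} {X : Cht L R h}

/-- The columns vanish on the blocks that have been dealt with. -/
lemma st_vanish (hQ : Fr K S.Q) (hF : Forest S.anc) (T : ℕ) {s : ℕ}
    (hX : ∀ r < s, S.Good X r) {i : R} (hi : S.β i < s) (hiT : S.anc (S.β i) T) (l : L) :
    (S.st X T s).1 l i = 0 := by
  induction s generalizing l with
  | zero => omega
  | succ s ih =>
    by_cases hs : S.anc s T
    · rw [st_succ_anc hF hs]
      change nx S.Q (S.w X s) (S.b X s) (S.c X s) (X.D s) (S.f s) l i = 0
      rcases Nat.lt_succ_iff_lt_or_eq.mp hi with h1 | h1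
      · have ih' := ih (fun r hr => hX r (by omega)) h1
        rw [st_eq_w hF hs] at ih'
        have ih2 : ∀ l, S.w X s l i = 0 := ih'
        have hm : ∀ x, mon S.Q (S.w X s) x i = 0 := by
          intro x
          change S.w X s x.1 i ^ S.Q ^ x.2 = 0
          rw [ih2 x.1, zero_pow (pow_ne_zero _ hQ.pos)]
        unfold nx
        rw [rd_apply]
        simp only [Pi.sub_apply, Finset.sum_apply, Pi.smul_apply, smul_eq_mul, hm, mul_zero,
          Finset.sum_const_zero, sub_zero]
      · exact rd_block ((hX s (by omega)).det (dg h (S.b X s) (l, X.D s l)))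
          (mon S.Q (S.w X s) (l, X.D s l)) (⟨i, h1⟩ : S.Blk s)
    · rw [st_succ_not hs]
      have hne : S.β i ≠ s := fun h1 => hs (h1 ▸ hiT)
      exact ih (fun r hr => hX r (by omega)) (by omega) l

/-- The basis vectors on the rows below `T`. -/
noncomputable def Sys.bv (S : Sys K L R) (X : Cht L R h) (T : ℕ) (j : ZMod h)
    (i' : {i // S.P T i}) : {i // S.P T i} → K :=
  fun i => mon S.Q (S.w X (S.β i'.1)) (X.C (S.β i'.1) j i'.1) i.1

lemma bv_eq (T s : ℕ) (j : ZMod h) (t : S.Blk s) (ht : S.P T t.1) :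
    S.bv X T j ⟨t.1, ht⟩ = fun i => mon S.Q (S.w X s) (S.c X s j t) i.1 := by
  obtain ⟨t, rfl⟩ := t
  rfl

omit [Field K] [Fintype R] [DecidableEq R] in
lemma mem_P_self {T : ℕ} (t : S.Blk T) : S.P T t.1 := Or.inl t.2

omit [Field K] [Fintype R] [DecidableEq R] in
lemma mem_P_anc {s T : ℕ} (hs : S.anc s T) (t : S.Blk s) : S.P T t.1 :=
  Or.inr (by rw [t.2]; exact hs)

/-- The restriction of a vector to the rows below `T`. -/
def rs (S : Sys K L R) (T : ℕ) (w : R → K) : {i // S.P T i} → K := fun i => w i.1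

/-- The basis vectors generate. -/
lemma span_basis (hQ : Fr K S.Q) (hF : Forest S.anc) {E : Subring K} {T : ℕ}
    (hX : ∀ r < T + 1, S.Good X r)
    (hE : ∀ r < T + 1, ∀ l s, co S.Q (S.w X r) (S.c X r) (S.f r) (dg h (S.b X r) (l, X.D r l))
      (mon S.Q (S.w X r) (l, X.D r l)) s ∈ E) (j : ZMod h) :
    ∀ d ≤ T, ∀ w ∈ lam E S.Q (S.st X T (T - d)).1 (S.st X T (T - d)).2 j,
      rs S T w ∈ Submodule.span E (Set.range (S.bv X T j)) := by
  intro d
  induction d with
  | zero =>
    intro _ w hw
    rw [Nat.sub_zero] at hw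
    have g := hX T (Nat.lt_succ_self T)
    obtain ⟨h1, h2⟩ := main2 hQ g.valid g.det (E := E) (hE T (Nat.lt_succ_self T)) hw
    have h3 : rs S T w = ∑ t : S.Blk T, co S.Q (S.w X T) (S.c X T) (S.f T) j w t •
        S.bv X T j ⟨t.1, mem_P_self t⟩ := by
      funext i
      have h4 := congrFun (eq_rd_add (Q := S.Q) (v := S.w X T) (c := S.c X T) (f := S.f T) j w)
        i.1
      have h5 : rd S.Q (S.w X T) (S.c X T) (S.f T) j w i.1 = 0 := by
        rcases i.2 with hi | hi
        · exact rd_block (g.det j) w (⟨i.1, hi⟩ : S.Blk T)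
        · have hm : ∀ l, S.w X T l i.1 = 0 := fun l =>
            st_vanish hQ hF T (fun r hr => hX r (by omega)) (hF.lt hi) hi l
          have hm2 : ∀ x, mon S.Q (S.w X T) x i.1 = 0 := by
            intro x
            change S.w X T x.1 i.1 ^ S.Q ^ x.2 = 0
            rw [hm, zero_pow (pow_ne_zero _ hQ.pos)]
          rw [rd_apply]
          simp only [Pi.sub_apply, Finset.sum_apply, Pi.smul_apply, smul_eq_mul, hm2, mul_zero,
            Finset.sum_const_zero, sub_zero]
          exact lam_row_zero hQ hm hw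
      rw [Pi.add_apply, h5, zero_add] at h4
      change w i.1 = _
      rw [h4, Finset.sum_apply, Finset.sum_apply]
      refine Finset.sum_congr rfl fun t _ => ?_
      rw [bv_eq T T j t (mem_P_self t)]
      rfl
    rw [h3]
    refine sum_mem fun t _ => ?_
    exact Submodule.smul_mem _ (⟨_, h1 t⟩ : E) (Submodule.subset_span ⟨_, rfl⟩)
  | succ d ih =>
    intro hd w hw
    have ih' := ih (by omega)
    obtain ⟨s, hs⟩ : ∃ s, s = T - (d + 1) := ⟨_, rfl⟩
    have h1 : T - d = s + 1 := by omega
    rw [← hs] at hw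
    rw [h1] at ih'
    by_cases hsT : S.anc s T
    · rw [st_succ_anc hF hsT] at ih'
      rw [st_eq_w hF hsT] at hw
      have g := hX s (by omega)
      obtain ⟨h1, h2⟩ := main2 hQ g.valid g.det (E := E) (hE s (by omega)) hw
      have h3 : rs S T w = rs S T (rd S.Q (S.w X s) (S.c X s) (S.f s) j w) +
          ∑ t : S.Blk s, co S.Q (S.w X s) (S.c X s) (S.f s) j w t •
            S.bv X T j ⟨t.1, mem_P_anc hsT t⟩ := by
        funext i
        have h4 := congrFun (eq_rd_add (Q := S.Q) (v := S.w X s) (c := S.c X s) (f := S.f s) j w)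
          i.1
        change w i.1 = _
        rw [h4, Pi.add_apply, Pi.add_apply, Finset.sum_apply, Finset.sum_apply]
        congr 1
        refine Finset.sum_congr rfl fun t _ => ?_
        rw [bv_eq T s j t (mem_P_anc hsT t)]
        rfl
      rw [h3]
      refine add_mem (ih' _ h2) (sum_mem fun t _ => ?_)
      exact Submodule.smul_mem _ (⟨_, h1 t⟩ : E) (Submodule.subset_span ⟨_, rfl⟩)
    · rw [st_succ_not hsT] at ih'
      exact ih' w hw

lemma span_basis' (hQ : Fr K S.Q) (hF : Forest S.anc) {E : Subring K} {T : ℕ}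
    (hX : ∀ r < T + 1, S.Good X r)
    (hE : ∀ r < T + 1, ∀ l s, co S.Q (S.w X r) (S.c X r) (S.f r) (dg h (S.b X r) (l, X.D r l))
      (mon S.Q (S.w X r) (l, X.D r l)) s ∈ E) (x : L × ℕ) :
    rs S T (mon S.Q S.v x) ∈ Submodule.span E (Set.range (S.bv X T (dg h S.a x))) := by
  apply span_basis hQ hF hX hE (dg h S.a x) T le_rfl
  rw [Nat.sub_self]
  exact mon_mem_lam E x

omit [Fintype R] [DecidableEq R] in
lemma span_of_span {I : Type} {E : Subring K} {A : Set (I → K)} {w : I → K}
    (hw : w ∈ Submodule.span E A) : w ∈ Submodule.span K A := by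
  induction hw using Submodule.span_induction with
  | mem w hw => exact Submodule.subset_span hw
  | zero => exact zero_mem _
  | add x y _ _ hx hy => exact add_mem hx hy
  | smul z w _ hw => exact Submodule.smul_mem _ (z : K) hw

omit [Fintype R] [DecidableEq R] in
lemma span_of_span' {I : Type} {E : Subfield K} {A : Set (I → K)} {w : I → K}
    (hw : w ∈ Submodule.span E.toSubring A) : w ∈ Submodule.span E A := by
  induction hw using Submodule.span_induction with
  | mem w hw => exact Submodule.subset_span hw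
  | zero => exact zero_mem _
  | add x y _ _ hx hy => exact add_mem hx hy
  | smul z w _ hw => exact Submodule.smul_mem _ (⟨z.1, z.2⟩ : E) hw

/-- The basis vectors are a basis. -/
lemma bv_indep (hQ : Fr K S.Q) (hF : Forest S.anc) {T : ℕ} (hND : S.ND h T)
    (hX : ∀ r < T + 1, S.Good X r) (j : ZMod h) : LinearIndependent K (S.bv X T j) := by
  classical
  apply linearIndependent_of_top_le_span_of_card_eq_finrank
  · intro y _
    obtain ⟨w, hw, hwy⟩ := hND j (fun i => if hi : S.P T i then y ⟨i, hi⟩ else 0)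
    have h1 : y = rs S T w := by
      funext i
      have h2 := hwy i.1 i.2
      change y i = w i.1
      rw [h2, dif_pos i.2]
    rw [h1]
    exact span_of_span (span_basis hQ hF hX (E := ⊤) (fun r _ l s => trivial) j T le_rfl w (by
      rw [Nat.sub_self]; exact hw))
  · rw [Module.finrank_fintype_fun_eq_card]

/-- Coefficients over a subfield. -/
lemma exists_coeff {I J : Type} [Fintype I] [Fintype J] (hIJ : Fintype.card J = Fintype.card I)
    (E0 : Subfield K) (b : I → I → K) (b' : J → I → K) (hb : LinearIndependent K b)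
    (hb' : LinearIndependent K b') (hle : ∀ t, b' t ∈ Submodule.span E0 (Set.range b))
    (x : I → K) (hx : x ∈ Submodule.span E0 (Set.range b)) :
    ∃ c : J → E0, ∀ i, x i = ∑ r : J, (c r : K) * b' r i := by
  have hb0 : LinearIndependent E0 b := hb.restrict_scalars
    (by intro x y hxy; simpa [Subfield.smul_def] using hxy)
  have hm0 : LinearIndependent E0 b' :=
    hb'.restrict_scalars (by intro x y hxy; simpa [Subfield.smul_def] using hxy)
  have hle : Submodule.span E0 (Set.range b') ≤ Submodule.span E0 (Set.range b) := by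
    rw [Submodule.span_le]
    rintro _ ⟨r, rfl⟩
    exact hle r
  have heq : Submodule.span E0 (Set.range b') = Submodule.span E0 (Set.range b) := by
    have : FiniteDimensional E0 (Submodule.span E0 (Set.range b)) :=
      FiniteDimensional.span_of_finite E0 (Set.finite_range b)
    apply Submodule.eq_of_le_of_finrank_eq hle
    rw [finrank_span_eq_card hm0, finrank_span_eq_card hb0, hIJ]
  rw [← heq, Submodule.mem_span_range_iff_exists_fun] at hx
  obtain ⟨c, hc⟩ := hx
  refine ⟨c, fun i => ?_⟩
  rw [← hc]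
  simp only [Finset.sum_apply, Pi.smul_apply]
  rfl

/-- The independence of the Frobenius twists of the column `l0` on the rows below `T`. -/
def Sys.Moore (S : Sys K L R) (h T : ℕ) (l0 : L) : Prop :=
  ∀ s : ℕ, LinearIndependent K (fun (r : Fin (Nat.card {i // S.P T i})) =>
    rs S T (mon S.Q S.v (l0, s + h * r)))

omit [DecidableEq R] in
lemma nd_of_moore [NeZero h] {T : ℕ} {l0 : L} (hM : S.Moore h T l0) : S.ND h T := by
  classical
  intro j y
  obtain ⟨s, hs⟩ : ∃ s : ℕ, dg h S.a (l0, s) = j := by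
    refine ⟨(j - (S.a l0 : ZMod h)).val, ?_⟩
    unfold dg
    push_cast
    rw [ZMod.natCast_zmod_val]
    ring
  have h1 := (hM s).span_eq_top_of_card_eq_finrank' (by
    rw [Fintype.card_fin, Module.finrank_fintype_fun_eq_card, Nat.card_eq_fintype_card])
  have h2 : rs S T y ∈ Submodule.span K (Set.range (fun (r : Fin (Nat.card {i // S.P T i})) =>
    rs S T (mon S.Q S.v (l0, s + h * r)))) := by rw [h1]; trivial
  rw [Submodule.mem_span_range_iff_exists_fun] at h2
  obtain ⟨c, hc⟩ := h2
  refine ⟨∑ r, c r • mon S.Q S.v (l0, s + h * r), ?_, ?_⟩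
  · refine sum_mem fun r _ => smul_mem_lam ?_ trivial
    have h3 := mon_mem_lam (v := S.v) (a := S.a) (Q := S.Q) (h := h) ⊤ (l0, s + h * r)
    have h4 : dg h S.a (l0, s + h * r) = j := by
      rw [← hs]
      unfold dg
      push_cast
      simp
    rwa [h4] at h3
  · intro i hi
    have h5 := congrFun hc ⟨i, hi⟩
    change _ = y i at h5
    rw [← h5, Finset.sum_apply, Finset.sum_apply]
    rfl

/-- The entries of the columns are combinations of the Frobenius twists of the entries of
the column `l0`. -/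
lemma coeff [NeZero h] (hQ : Fr K S.Q) (hF : Forest S.anc) {T : ℕ} {l0 : L}
    (hM : S.Moore h T l0) (hX : ∀ r < T + 1, S.Good X r) (E0 : Subfield K)
    (hE : ∀ r < T + 1, ∀ l s, co S.Q (S.w X r) (S.c X r) (S.f r) (dg h (S.b X r) (l, X.D r l))
      (mon S.Q (S.w X r) (l, X.D r l)) s ∈ E0)
    (s : ℕ) (x : L × ℕ) (hx : dg h S.a x = dg h S.a (l0, s)) :
    ∃ e : Fin (Nat.card {i // S.P T i}) → E0, ∀ i, S.P T i → mon S.Q S.v x i =
      ∑ r, (e r : K) * mon S.Q S.v (l0, s + h * r) i := by
  classical
  have hspan : ∀ x : L × ℕ, rs S T (mon S.Q S.v x) ∈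
      Submodule.span E0 (Set.range (S.bv X T (dg h S.a x))) := by
    intro x
    exact span_of_span' (span_basis' hQ hF hX (E := E0.toSubring) hE x)
  obtain ⟨e, he⟩ := exists_coeff (by rw [Fintype.card_fin, Nat.card_eq_fintype_card]) E0
    (S.bv X T (dg h S.a x)) _ (bv_indep hQ hF (nd_of_moore hM) hX _) (hM s) (fun r => by
      have h1 := hspan (l0, s + h * r)
      have h2 : dg h S.a (l0, s + h * r) = dg h S.a x := by
        rw [hx]
        unfold dg
        push_cast
        simp
      rwa [h2] at h1) (rs S T (mon S.Q S.v x)) (hspan x)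
  exact ⟨e, fun i hi => he ⟨i, hi⟩⟩

end Span

end Pool.Agent.H15Par
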