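import Pool.Agent.Lib.Flag_H15.Norm
import Pool.Agent.Lib.Par_H15.Span

/-! # Algebraic independence of the coordinates -/

set_option autoImplicit false

open Polynomial

namespace Pool.Agent.H15Par

section General

variable {k K : Type} [Field k] [Field K] [Algebra k K]

lemma isIntegral_of_val (D : Subalgebra k K) {w : K}
    (hval : ∀ V : ValuationSubring K, (∀ c ∈ D, c ∈ V) → w ∈ V) : IsIntegral D w := by
  have hcl : Subring.closure (D : Set K) ≤ D.toSubring := Subring.closure_le.mpr fun x hx => hx
  have hint0 : IsIntegral (Subring.closure (D : Set K)) w := by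
    have h1 : w ∈ (integralClosure (Subring.closure (D : Set K)) K).toSubring := by
      rw [← iInf_valuationSubring_superset, Subring.mem_iInf]
      rintro ⟨V, hV⟩
      exact hval V hV
    exact h1
  obtain ⟨P, hP, hP0⟩ := hint0
  refine ⟨P.map (Subring.inclusion hcl), hP.map _, ?_⟩
  rw [eval₂_map]
  exact hP0

end General

section Generic

variable {k : Type} [Field k] {Z : Type} [Finite Z]

omit [Finite Z] in
lemma gen_top (D : Subalgebra k (FractionRing (MvPolynomial Z k)))
    (hinv : ∀ z ∈ D, z⁻¹ ∈ D)
    (hD : ∀ z, algebraMap (MvPolynomial Z k) (FractionRing (MvPolynomial Z k))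
      (MvPolynomial.X z) ∈ D) : D = ⊤ := by
  rw [eq_top_iff]
  intro z _
  have hB : ∀ b : MvPolynomial Z k, algebraMap _ (FractionRing (MvPolynomial Z k)) b ∈ D := by
    intro b
    induction b using MvPolynomial.induction_on with
    | C a =>
      have : algebraMap (MvPolynomial Z k)
        (FractionRing (MvPolynomial Z k)) (MvPolynomial.C a) = algebraMap k _ a := by
        rw [IsScalarTower.algebraMap_apply k (MvPolynomial Z k)]
        rfl
      rw [this]
      exact D.algebraMap_mem a
    | add x y hx hy => rw [map_add]; exact add_mem hx hy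
    | mul_X x i hx =>
      rw [map_mul]
      exact mul_mem hx (hD i)
  obtain ⟨a, b, hb, rfl⟩ := IsFractionRing.div_surjective (A := MvPolynomial Z k) z
  rw [div_eq_mul_inv]
  exact mul_mem (hB a) (hinv _ (hB b))

lemma algInd_of_isAlgebraic (x : Z → FractionRing (MvPolynomial Z k))
    (hx : ∀ z, IsAlgebraic (Algebra.adjoin k (Set.range x))
      (algebraMap (MvPolynomial Z k) (FractionRing (MvPolynomial Z k)) (MvPolynomial.X z))) :
    AlgebraicIndependent k x := by
  obtain ⟨D, hD⟩ : ∃ D, D = Algebra.adjoin k (Set.range x) := ⟨_, rfl⟩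
  rw [← hD] at hx
  have htop : (Subalgebra.algebraicClosure D
      (FractionRing (MvPolynomial Z k))).restrictScalars k = ⊤ := by
    apply gen_top
    · intro z hz
      have : IsAlgebraic D z := hz
      exact this.inv
    · intro z
      exact hx z
  have halg : Algebra.IsAlgebraic (Algebra.adjoin k (Set.range x))
      (FractionRing (MvPolynomial Z k)) := by
    rw [← hD]
    refine ⟨fun z => ?_⟩
    have : z ∈ (Subalgebra.algebraicClosure D
        (FractionRing (MvPolynomial Z k))).restrictScalars k := by rw [htop]; trivial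
    exact this
  have hind : AlgebraicIndependent k (fun z : Z =>
      algebraMap (MvPolynomial Z k) (FractionRing (MvPolynomial Z k)) (MvPolynomial.X z)) := by
    have h1 := (MvPolynomial.algebraicIndependent_X Z k)
    exact h1.map' (f := IsScalarTower.toAlgHom k (MvPolynomial Z k)
      (FractionRing (MvPolynomial Z k))) (IsFractionRing.injective _ _)
  exact (Algebra.IsAlgebraic.isTranscendenceBasis_of_le_trdeg_of_finite k
    x hind.cardinalMk_le_trdeg).1

lemma smooth_of_algInd {x : Z → FractionRing (MvPolynomial Z k)}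
    (h1 : AlgebraicIndependent k x) : Algebra.Smooth k (Algebra.adjoin k (Set.range x)) := by
  have h2 : Algebra.FinitePresentation k (MvPolynomial Z k) := inferInstance
  have h3 : Algebra.FormallySmooth k (MvPolynomial Z k) := inferInstance
  have h4 : Algebra.Smooth k (MvPolynomial Z k) := ⟨inferInstance, inferInstance⟩
  exact Algebra.Smooth.of_equiv h1.aevalEquiv

omit [Finite Z] in
lemma isIntegrallyClosed_of_algInd {x : Z → FractionRing (MvPolynomial Z k)}
    (h1 : AlgebraicIndependent k x) :
    IsIntegrallyClosed (Algebra.adjoin k (Set.range x)) :=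
  IsIntegrallyClosed.of_equiv h1.aevalEquiv.toRingEquiv

end Generic

section Special

variable {K : Type} [Field K] {L R I : Type} [Fintype I] [DecidableEq I] [Unique I]
variable {Q : ℕ} {v : L → R → K} {a : L → ℕ} {c : ZMod 1 → I → L × ℕ} {d : L → ℕ} {f : I → R}

omit [Fintype I] [DecidableEq I] in
/-- For a block of one row (and `h = 1`) the chart is given by one column. -/
lemma special_d (hv : Valid a c d) : d (c 0 default).1 = 1 ∧ (c 0 default).2 = 0 := by
  have h1 : ∀ r, r < d (c 0 default).1 → (c 0 default).2 = r := by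
    intro r hr
    obtain ⟨t, ht⟩ := hv.surj _ r hr
    have h2 : dg 1 a ((c 0 default).1, r) = 0 := Subsingleton.elim _ _
    rw [h2, Subsingleton.elim t default] at ht
    exact congrArg Prod.snd ht
  have h3 := hv.lt 0 default
  have h4 := h1 0 (by omega)
  refine ⟨?_, h4⟩
  by_contra h5
  have h6 := h1 1 (by omega)
  omega

omit [DecidableEq I] in
lemma special_co [DecidableEq I] (hQ : Fr K Q) (hv : Valid a c d)
    (hc : ∀ j, (Dl Q v c f j).det ≠ 0) :
    co Q v c f (dg 1 a ((c 0 default).1, d (c 0 default).1))
      (mon Q v ((c 0 default).1, d (c 0 default).1)) default =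
      (Dl Q v c f 0).det ^ (Q - 1) := by
  obtain ⟨h1, h2⟩ := special_d hv
  have hdet : (Dl Q v c f 0).det = v (c 0 default).1 (f default) := by
    rw [Matrix.det_unique]
    change v (c 0 default).1 (f default) ^ Q ^ (c 0 default).2 = _
    rw [h2, pow_zero, pow_one]
  obtain ⟨x, hx⟩ : ∃ x, x = v (c 0 default).1 (f default) := ⟨_, rfl⟩
  have hx0 : x ≠ 0 := by rw [hx, ← hdet]; exact hc 0
  have h3 : dg 1 a ((c 0 default).1, d (c 0 default).1) = 0 := Subsingleton.elim _ _
  rw [h3, hdet, ← hx]
  have h4 : co Q v c f 0 (mon Q v ((c 0 default).1, d (c 0 default).1)) =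
      fun _ => x ^ (Q - 1) := by
    apply co_unique (hc 0)
    intro i
    rw [Subsingleton.elim i default]
    simp only [Finset.univ_unique, Finset.sum_singleton]
    rw [h1]
    change v (c 0 default).1 (f default) ^ Q ^ 1 =
      x ^ (Q - 1) * v (c 0 default).1 (f default) ^ Q ^ (c 0 default).2
    rw [h2, ← hx, pow_zero, pow_one, pow_one, ← pow_succ]
    congr 1
    have := hQ.two_le
    omega
  rw [h4]

end Special

section Vanish

variable {K : Type} [Field K] {L R : Type} [Fintype R] [DecidableEq R] {h : ℕ}
variable {S : Sys K L R} {X : Cht L R h}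

/-- The columns vanish where they should. -/
lemma st_zero_of_notMem (hQ : Fr K S.Q) (hF : Forest S.anc) {U : L → Set R}
    (hU0 : ∀ l i, i ∉ U l → S.v l i = 0)
    (hU : ∀ l i j, i ∈ U l → (S.β i = S.β j ∨ S.anc (S.β i) (S.β j)) → j ∈ U l) :
    ∀ (T : ℕ) (i : R), S.β i = T → ∀ l, i ∉ U l → ∀ s ≤ T, (S.st X T s).1 l i = 0 := by
  intro T
  induction T using Nat.strong_induction_on with
  | _ T ihT =>
    intro i hi l hil s
    induction s with
    | zero => intro _; exact hU0 l i hil
    | succ s ih =>
      intro hs
      have ih' := ih (by omega)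
      by_cases hsT : S.anc s T
      · rw [st_eq_w hF hsT] at ih'
        rw [st_succ_anc hF hsT]
        change nx S.Q (S.w X s) (S.b X s) (S.c X s) (X.D s) (S.f s) l i = 0
        have hblock : ∀ t : S.Blk s, mon S.Q (S.w X s) (l, X.D s l) (S.f s t) = 0 := by
          intro t
          change S.w X s l t.1 ^ S.Q ^ (X.D s l) = 0
          have ht : t.1 ∉ U l := by
            intro h1
            apply hil
            apply hU l t.1 i h1
            right
            rw [t.2, hi]
            exact hsT
          rw [show S.w X s l t.1 = 0 from ihT s (hF.lt hsT) t.1 t.2 l ht s le_rfl,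
            zero_pow (pow_ne_zero _ hQ.pos)]
        unfold nx
        rw [rd_of_zero _ hblock]
        change S.w X s l i ^ S.Q ^ (X.D s l) = 0
        rw [show S.w X s l i = 0 from ih', zero_pow (pow_ne_zero _ hQ.pos)]
      · rw [st_succ_not hsT]
        exact ih'

lemma w_zero_of_notMem (hQ : Fr K S.Q) (hF : Forest S.anc) {U : L → Set R}
    (hU0 : ∀ l i, i ∉ U l → S.v l i = 0)
    (hU : ∀ l i j, i ∈ U l → (S.β i = S.β j ∨ S.anc (S.β i) (S.β j)) → j ∈ U l)
    (i : R) (l : L) (hil : i ∉ U l) : S.w X (S.β i) l i = 0 :=
  st_zero_of_notMem hQ hF hU0 hU _ i rfl l hil _ le_rfl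

end Vanish

end Pool.Agent.H15Par
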