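import Pool.Agent.Lib.Twist_H15.Quot
import Pool.Agent.Lib.Par_H15.ActP
import Pool.Agent.Lib.Par_H15.Fam

/-! # Resolution of the quotients -/

set_option autoImplicit false

open AlgebraicGeometry CategoryTheory Pool.Agent.H15Model

namespace Pool.Agent.H15Par

section Sys

variable {k : Type} [Field k] {n : ℕ} {L : Type}

/-- The generic system. -/
noncomputable def gsys (k : Type) [Field k] {n : ℕ} {L : Type} (U : L → Set (Fin n))
    (r : Fin n → Fin n → Prop) (β : Fin n → ℕ) (Q : ℕ) (a : L → ℕ) (sp : Prop) (e : Fin n → ℕ) :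
    Sys (FractionRing (MvPolynomial {z : Fin n × L // z.1 ∈ U z.2} k)) L (Fin n) where
  Q := Q
  β := β
  anc := ancR r β
  v := fun l i => algebraMap (MvPolynomial {z : Fin n × L // z.1 ∈ U z.2} k) _ (genMat k U i l)
  a := a
  S := fun t => sp ∧ ∃ i, β i = t ∧ ∀ j, β j = t → j = i
  e := fun t => open Classical in if ht : ∃ i, β i = t then e ht.choose else 1

variable {U : L → Set (Fin n)} {r : Fin n → Fin n → Prop} {β : Fin n → ℕ} {Q : ℕ} {a : L → ℕ}
  {sp : Prop} {e : Fin n → ℕ}

lemma gsys_e {i : Fin n} (huniq : ∀ j, β j = β i → j = i) :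
    (gsys k U r β Q a sp e).e (β i) = e i := by
  have hex : ∃ j, β j = β i := ⟨i, rfl⟩
  change (if ht : ∃ j, β j = β i then e ht.choose else 1) = e i
  rw [dif_pos hex, huniq _ hex.choose_spec]

variable {F : Type} [Field F] [Algebra F k]

lemma eqv_gsys (hQ : Fr (FractionRing (MvPolynomial {z : Fin n × L // z.1 ∈ U z.2} k)) Q)
    (hU : ∀ l i j, i ∈ U l → r i j → j ∈ U l) (u : GL (Fin n) F)
    (hu : ∀ i j, u.1 i j ≠ 0 → r j i)
    (σ : FractionRing (MvPolynomial {z : Fin n × L // z.1 ∈ U z.2} k) →+*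
      FractionRing (MvPolynomial {z : Fin n × L // z.1 ∈ U z.2} k))
    (hσ : ∀ b, σ (algebraMap _ _ b) = algebraMap _ _
      (parAct k Q a U (u : Matrix (Fin n) (Fin n) F) b)) :
    Eqv hQ σ (fun i j => u.1 i j) (gsys k U r β Q a sp e).v (gsys k U r β Q a sp e).a := by
  intro l i
  change σ (algebraMap _ _ (genMat k U i l)) = _
  rw [hσ, parAct_genMat Q a hQ.pos hU u.1 hu, map_sum]
  refine Finset.sum_congr rfl fun j _ => ?_
  rw [map_mul]
  congr 1
  rw [phi_apply, ← map_pow]
  change _ = algebraMap F (FractionRing (MvPolynomial {z : Fin n × L // z.1 ∈ U z.2} k))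
    (u.1 i j ^ Q ^ a l)
  rfl

end Sys

section Blk

variable {F K L : Type} [Field F] [Field K] {R : Type} [Fintype R] [DecidableEq R]
variable {S : Sys K L R}

omit [Field K] in
lemma blk_det_ne_zero (hF : Forest S.anc) {u : GL R F} (hu : Supp S (fun i j => u.1 i j))
    (hu' : Supp S (fun i j => (u⁻¹).1 i j)) (t : ℕ) :
    (blk (fun i j => u.1 i j) (S.f t)).det ≠ 0 := by
  have h1 : blk (fun i j => u.1 i j) (S.f t) * blk (fun i j => (u⁻¹).1 i j) (S.f t) = 1 := by
    ext i i'
    rw [Matrix.mul_apply]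
    have h2 : (u.1 * (u⁻¹).1) (S.f t i) (S.f t i') = (1 : Matrix R R F) (S.f t i) (S.f t i') := by
      have : u.1 * (u⁻¹).1 = 1 := u.mul_inv
      rw [this]
    rw [Matrix.mul_apply] at h2
    have h3 : ∑ j : S.Blk t, u.1 (S.f t i) (S.f t j) * (u⁻¹).1 (S.f t j) (S.f t i') =
        ∑ j : R, u.1 (S.f t i) j * (u⁻¹).1 j (S.f t i') := by
      apply Fintype.sum_of_injective (S.f t) Subtype.val_injective
      · intro j hj
        by_contra h0
        have e1 := hu _ _ (left_ne_zero_of_mul h0)
        have e2 := hu' _ _ (right_ne_zero_of_mul h0)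
        have hi : S.β (S.f t i) = t := i.2
        have hi' : S.β (S.f t i') = t := i'.2
        rw [hi] at e1
        rw [hi'] at e2
        have hjt : S.β j ≠ t := fun h => hj ⟨⟨j, h⟩, rfl⟩
        have e3 := e1.resolve_left hjt
        have e4 := e2.resolve_left (fun h => hjt h.symm)
        have := hF.lt e3
        have := hF.lt e4
        omega
      · intro j; rfl
    have h4 : (1 : Matrix R R F) (S.f t i) (S.f t i') = (1 : Matrix (S.Blk t) (S.Blk t) F) i i' := by
      rw [Matrix.one_apply, Matrix.one_apply]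
      congr 1
      exact propext ⟨fun h => Subtype.val_injective h, fun h => congrArg _ h⟩
    rw [← h4, ← h2, ← h3]
    rfl
  intro h0
  have h5 := congrArg Matrix.det h1
  rw [Matrix.det_mul, h0, zero_mul, Matrix.det_one] at h5
  exact zero_ne_one h5

end Blk

section Moore

variable {F K L : Type} [Field F] [Fintype F] [Field K] [Algebra F K] {R : Type} [Fintype R]
  [DecidableEq R] {S : Sys K L R} {h : ℕ}

omit [DecidableEq R] in
/-- The Moore matrices. -/
lemma moore_sys (p : ℕ) [hp : Fact p.Prime] [CharP K p] {h0 : ℕ} (hh0 : 1 ≤ h0)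
    (hQp : S.Q = p ^ h0) (hh : 1 ≤ h) (hQ : Fr K S.Q)
    (hq : Fintype.card F = S.Q ^ h) (l0 : L) (hy : Function.Injective (ev (F := F) (S.v l0)))
    (T : ℕ) : S.Moore h T l0 := by
  intro s
  -- the twisted column
  have hroot : ∀ x : F, (x ^ (S.Q ^ (s * (h - 1)))) ^ (S.Q ^ s) = x := by
    intro x
    rw [← pow_mul, ← pow_add]
    have h3 : s * (h - 1) + s = h * s := by
      obtain ⟨m, rfl⟩ : ∃ m, h = m + 1 := ⟨h - 1, by omega⟩
      simp only [Nat.add_sub_cancel]
      ring
    rw [h3, pow_mul, ← hq, FiniteField.pow_card_pow]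
  have hev : ∀ α : R → F, ev (F := F) (mon S.Q S.v (l0, s)) α =
      ev (F := F) (S.v l0) (fun i => α i ^ (S.Q ^ (s * (h - 1)))) ^ (S.Q ^ s) := by
    intro α
    unfold ev
    rw [hQ.sum_pow_pow]
    refine Finset.sum_congr rfl fun i _ => ?_
    rw [mul_pow, ← map_pow, hroot]
    rfl
  have hinj : Function.Injective (ev (F := F) (mon S.Q S.v (l0, s))) := by
    intro α α' hab
    rw [hev, hev] at hab
    have h4 : ∀ x y : K, x ^ (S.Q ^ s) = y ^ (S.Q ^ s) → x = y := by
      intro x y hxy
      rw [hQp, ← pow_mul] at hxy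
      exact iterateFrobenius_inj K p (h0 * s) hxy
    have h5 := hy (h4 _ _ hab)
    funext i
    have h6 := congrFun h5 i
    rw [← hroot (α i), ← hroot (α' i)]
    rw [h6]
  let eq : Fin (Nat.card {i // S.P T i}) ≃ {i // S.P T i} := (Finite.equivFin {i // S.P T i}).symm
  have hH : 1 ≤ h0 * h := Nat.mul_pos hh0 hh
  have hq' : Fintype.card F = p ^ (h0 * h) := by rw [hq, hQp, pow_mul]
  have h1 := H15Flag.moore_indep (F := F) p (h0 * h) hq' hH
    (fun t => mon S.Q S.v (l0, s) (eq t).1) (ev_restrict_injective (S.P T) eq hinj)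
  have h2 := h1.map' (LinearMap.funLeft K K eq.symm) (LinearMap.ker_eq_bot_of_injective
    (LinearMap.funLeft_injective_of_surjective K K _ eq.symm.surjective))
  have h3 : (⇑(LinearMap.funLeft K K eq.symm) ∘
      fun (t : Fin (Nat.card {i // S.P T i})) (i : Fin (Nat.card {i // S.P T i})) =>
        mon S.Q S.v (l0, s) (eq i).1 ^ (p ^ (h0 * h)) ^ (t : ℕ)) =
      fun (t : Fin (Nat.card {i // S.P T i})) => rs S T (mon S.Q S.v (l0, s + h * t)) := by
    funext t i
    change mon S.Q S.v (l0, s) (eq (eq.symm i)).1 ^ (p ^ (h0 * h)) ^ (t : ℕ) = _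
    rw [Equiv.apply_symm_apply]
    change (S.v l0 i.1 ^ S.Q ^ s) ^ (p ^ (h0 * h)) ^ (t : ℕ) = S.v l0 i.1 ^ S.Q ^ (s + h * t)
    rw [pow_mul p h0 h, ← hQp, ← pow_mul, ← pow_mul, ← pow_add]
  rw [h3] at h2
  exact h2

end Moore

section Inv

variable {k : Type} [Field k] {F : Type} [Field F] [Fintype F] [Algebra F k] {n : ℕ}
  {L : Type} [Finite L]
variable {U : L → Set (Fin n)} {r : Fin n → Fin n → Prop} {β : Fin n → ℕ} {a : L → ℕ}
  {sp : Prop} {e : Fin n → ℕ}

omit [Fintype F] [Finite L] in
lemma ev_gsys_injective (Q : ℕ) {l0 : L} (hl0 : U l0 = Set.univ) :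
    Function.Injective (ev (F := F) ((gsys k U r β Q a sp e).v l0)) := by
  classical
  have hm : ∀ i, i ∈ U l0 := fun i => by rw [hl0]; trivial
  have hev : ∀ α : Fin n → F, ev (F := F) ((gsys k U r β Q a sp e).v l0) α =
      algebraMap (MvPolynomial {z : Fin n × L // z.1 ∈ U z.2} k) _
        (∑ i, MvPolynomial.C (algebraMap F k (α i)) * MvPolynomial.X ⟨(i, l0), hm i⟩) := by
    intro α
    unfold ev
    rw [map_sum]
    refine Finset.sum_congr rfl fun i _ => ?_
    change _ * algebraMap _ _ (genMat k U i l0) = _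
    rw [genMat_of_mem (hm i), map_mul]
    rfl
  intro α α' hab
  rw [hev, hev] at hab
  have h1 := IsFractionRing.injective (MvPolynomial {z : Fin n × L // z.1 ∈ U z.2} k)
    (FractionRing (MvPolynomial {z : Fin n × L // z.1 ∈ U z.2} k)) hab
  funext i
  have h2 := congrArg (MvPolynomial.eval (fun z => if z.1 = (i, l0) then (1 : k) else 0)) h1
  simp only [map_sum, map_mul, MvPolynomial.eval_C, MvPolynomial.eval_X, Prod.mk.injEq,
    and_true, mul_ite, mul_one, mul_zero, Finset.sum_ite_eq', Finset.mem_univ, if_true] at h2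
  exact (algebraMap F k).injective h2

lemma supp_inv (hrefl : ∀ i, r i i) (htrans : ∀ i j l, r i j → r j l → r i l)
    {u : GL (Fin n) F} (hu : ∀ i j, u.1 i j ≠ 0 → r j i) : ∀ i j, (u⁻¹).1 i j ≠ 0 → r j i :=
  (inGroup_inv r (fun _ => 0) hrefl htrans (u := u) ⟨hu, fun _ _ => pow_zero _⟩).1

variable (p : ℕ) [hp : Fact p.Prime] [CharP F p]
  [CharP (FractionRing (MvPolynomial {z : Fin n × L // z.1 ∈ U z.2} k)) p]

omit [Finite L] [CharP F p] in
lemma fr_gsys {h0 : ℕ} (hh0 : 1 ≤ h0) :
    Fr (FractionRing (MvPolynomial {z : Fin n × L // z.1 ∈ U z.2} k)) (p ^ h0) := by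
  refine ⟨?_, fun x y => add_pow_char_pow x y p h0⟩
  calc 2 ≤ p := hp.out.two_le
    _ = p ^ 1 := (pow_one p).symm
    _ ≤ p ^ h0 := Nat.pow_le_pow_right hp.out.pos hh0

variable {h0 h N : ℕ} [NeZero h]

/-- The coordinates are algebraically independent. -/
lemma algInd_fam (hh0 : 1 ≤ h0) (htrans : ∀ i j l, r i j → r j l → r i l)
    (hforest : ∀ i j l, r i l → r j l → r i j ∨ r j i)
    (hβ1 : ∀ i j, β i = β j ↔ r i j ∧ r j i) (hβ2 : ∀ i j, r i j → ¬ r j i → β i < β j)
    (hU : ∀ l i j, i ∈ U l → r i j → j ∈ U l) (hsp : sp → h = 1)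
    (he : sp → ∀ i, e i ∣ p ^ h0 - 1) (hN : ∀ i, β i < N)
    {X : Cht L (Fin n) h} (hX : ∀ t < N, (gsys k U r β (p ^ h0) a sp e).Good X t) :
    (gsys k U r β (p ^ h0) a sp e).ch k X N =
      Algebra.adjoin k (Set.range (fam (gsys k U r β (p ^ h0) a sp e) X U)) ∧
    AlgebraicIndependent k (fam (gsys k U r β (p ^ h0) a sp e) X U) := by
  have hQ := fr_gsys (k := k) (U := U) p hh0
  have hF : Forest (gsys k U r β (p ^ h0) a sp e).anc := forest_ancR htrans hforest hβ1 hβ2
  have h1 := ch_eq_adjoin (k := k) (S := gsys k U r β (p ^ h0) a sp e) (X := X) (N := N)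
    (U := U) hQ hF
    (fun l i hil => by
      change algebraMap _ _ (genMat k U i l) = 0
      rw [genMat_of_notMem hil, map_zero])
    (fun l i j hil hij => hU l i j hil ((rel_iff htrans hβ1 j i).mp hij))
    (fun t ht => ⟨hsp ht.1, ht.2⟩)
    (fun t ht => by
      obtain ⟨i, rfl, huniq⟩ := ht.2
      rw [gsys_e huniq]
      exact he ht.1 i) hN hX
  refine ⟨h1, ?_⟩
  apply algInd_of_isAlgebraic
  rintro ⟨⟨i, l⟩, hil⟩
  rw [← h1]
  apply IsIntegral.isAlgebraic
  apply isIntegral_of_val
  intro V hV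
  have h2 := v_mem (S := gsys k U r β (p ^ h0) a sp e) hQ hF V (N := N) hX
    (fun t ht l s => hV _ (G_sub_ch ht (co_mem_G t l s))) i (hN i) l
  change algebraMap _ _ (genMat k U i l) ∈ V at h2
  rwa [genMat_of_mem hil] at h2

/-- The invariants belong to the chart rings. -/
lemma inv_le_ch (hh0 : 1 ≤ h0) (hq : Fintype.card F = (p ^ h0) ^ h)
    (hrefl : ∀ i, r i i) (htrans : ∀ i j l, r i j → r j l → r i l)
    (hforest : ∀ i j l, r i l → r j l → r i j ∨ r j i)
    (hβ1 : ∀ i j, β i = β j ↔ r i j ∧ r j i) (hβ2 : ∀ i j, r i j → ¬ r j i → β i < β j)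
    (hU : ∀ l i j, i ∈ U l → r i j → j ∈ U l) (hsp : sp → h = 1)
    (he : sp → ∀ i, e i ∣ p ^ h0 - 1) (he' : ¬ sp → ∀ i, e i = Fintype.card F - 1)
    (hN : ∀ i, β i < N) {l0 : L} (hl0 : U l0 = Set.univ)
    {X : Cht L (Fin n) h} (hX : ∀ t < N, (gsys k U r β (p ^ h0) a sp e).Good X t)
    (g : MvPolynomial {z : Fin n × L // z.1 ∈ U z.2} k)
    (hg : g ∈ parInv k F r e (p ^ h0) a U) :
    algebraMap (MvPolynomial {z : Fin n × L // z.1 ∈ U z.2} k)
      (FractionRing (MvPolynomial {z : Fin n × L // z.1 ∈ U z.2} k)) g ∈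
        (gsys k U r β (p ^ h0) a sp e).ch k X N := by
  classical
  have hh : 1 ≤ h := Nat.one_le_iff_ne_zero.mpr (NeZero.ne h)
  obtain ⟨hadj, hind⟩ := algInd_fam (k := k) p hh0 htrans hforest hβ1 hβ2 hU hsp he hN hX
  have hcl0 := isIntegrallyClosed_of_algInd hind
  rw [← hadj] at hcl0
  have hQ := fr_gsys (k := k) (U := U) p hh0
  have hF : Forest (gsys k U r β (p ^ h0) a sp e).anc := forest_ancR htrans hforest hβ1 hβ2
  obtain ⟨S, hS⟩ : ∃ S, S = gsys k U r β (p ^ h0) a sp e := ⟨_, rfl⟩
  have hinj : Function.Injective (ev (F := F) (S.v l0)) := by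
    rw [hS]; exact ev_gsys_injective (p ^ h0) hl0
  have hSQ : S.Q = p ^ h0 := by rw [hS]; rfl
  have hSv : ∀ l i, S.v l i = algebraMap (MvPolynomial {z : Fin n × L // z.1 ∈ U z.2} k)
      (FractionRing (MvPolynomial {z : Fin n × L // z.1 ∈ U z.2} k)) (genMat k U i l) := by
    rw [hS]; intro l i; rfl
  have hSβ : S.β = β := by rw [hS]; rfl
  have hSa : S.a = a := by rw [hS]; rfl
  have hSanc : S.anc = ancR r β := by rw [hS]; rfl
  have hSS : ∀ t, S.S t ↔ (sp ∧ ∃ i, β i = t ∧ ∀ j, β j = t → j = i) := by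
    rw [hS]; intro t; exact Iff.rfl
  have hSe : ∀ i, (∀ j, β j = β i → j = i) → S.e (β i) = e i := by
    rw [hS]; intro i hi; exact gsys_e hi
  rw [← hS] at hX hcl0 hF ⊢
  have hQ' : Fr (FractionRing (MvPolynomial {z : Fin n × L // z.1 ∈ U z.2} k)) S.Q := by
    rw [hSQ]; exact hQ
  have hq' : Fintype.card F = S.Q ^ h := by rw [hSQ]; exact hq
  obtain ⟨D, hD⟩ : ∃ D, D = S.ch k X N := ⟨_, rfl⟩
  rw [← hD]
  rw [← hD] at hcl0
  have hGD : ∀ t < N, ∀ z ∈ S.G X t, z ∈ D := by
    intro t ht z hz; rw [hD]; exact G_sub_ch ht hz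
  obtain ⟨E0, hE0⟩ : ∃ E0 : Subfield (FractionRing (MvPolynomial {z : Fin n × L // z.1 ∈ U z.2} k)),
    E0 = Subfield.closure (D : Set _) := ⟨_, rfl⟩
  have hDE : ∀ z, z ∈ D → z ∈ E0 := by
    intro z hz; rw [hE0]; exact Subfield.subset_closure hz
  have hk : ∀ x : k, algebraMap k (FractionRing (MvPolynomial {z : Fin n × L // z.1 ∈ U z.2} k)) x
      ∈ E0 := fun x => hDE _ (D.algebraMap_mem x)
  have hP : ∀ i j, S.P (S.β i) j ↔ r j i := by
    intro i j
    unfold Sys.P
    rw [hSβ, hSanc]
    exact rel_iff htrans hβ1 i j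
  have hNS : ∀ i, S.β i < N := by rw [hSβ]; exact hN
  have hmoore : ∀ T, S.Moore h T l0 := fun T =>
    moore_sys p hh0 hSQ hh hQ' hq' l0 hinj T
  have hcoef : ∀ (i : Fin n) (s : ℕ) (x : L × ℕ), dg h S.a x = dg h S.a (l0, s) →
      ∃ b : Fin (Nat.card {j // S.P (S.β i) j}) → E0, ∀ j, S.P (S.β i) j →
        mon S.Q S.v x j = ∑ t, (b t : FractionRing _) * mon S.Q S.v (l0, s + h * t) j := by
    intro i s x hx
    exact coeff hQ' hF (hmoore _) (fun t ht => hX t (by have := hNS i; omega)) E0
      (fun t ht l s => hDE _ (hGD t (by have := hNS i; omega) _ (co_mem_G t l s))) s x hx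
  have hsl : ∀ l, ∃ s : ℕ, dg h S.a (l, 0) = dg h S.a (l0, s) := by
    intro l
    refine ⟨((S.a l : ZMod h) - (S.a l0 : ZMod h)).val, ?_⟩
    unfold dg
    push_cast
    rw [ZMod.natCast_zmod_val]
    ring
  choose s hs using hsl
  choose b hb using fun (l : L) (i : Fin n) => hcoef i (s l) (l, 0) (hs l)
  have hself : ∀ i, S.P (S.β i) i := fun i => Or.inl rfl
  apply H15Flag.mem_of_frac_of_val D
  · rw [← hE0]
    refine mem_of_fixed_forest (F := F) (k := k) p (h0 * h) (by rw [hq, pow_mul])
      (Nat.mul_pos hh0 hh) (S.v l0) hinj E0 hk ?_ (fun i j => S.P (S.β i) j) hself ?_ _ ?_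
    · intro S' hS1 hS2 hS3
      apply gen_top S' hS1
      rintro ⟨⟨i, l⟩, hil⟩
      have h1 := hb l i i (hself i)
      rw [mon_zero, hSv, genMat_of_mem hil] at h1
      rw [h1]
      refine sum_mem fun t _ => mul_mem (hS2 _ (b l i t).2) ?_
      exact pow_mem (hS3 _) _
    · intro i
      obtain ⟨b', hb'⟩ := hcoef i 0 (l0, h * Nat.card {j // S.P (S.β i) j})
        (by unfold dg; push_cast; simp)
      refine ⟨b', fun j hj => ?_⟩
      have h1 := hb' j hj
      have h2 : ∀ m, mon S.Q S.v (l0, h * m) j = S.v l0 j ^ ((p ^ (h0 * h)) ^ m) := by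
        intro m
        change S.v l0 j ^ S.Q ^ (h * m) = _
        rw [pow_mul p h0 h, ← hSQ, ← pow_mul]
      simp only [zero_add, h2] at h1
      exact h1
    · intro σ u hu1 hu2
      have hFfix : ∀ (x : F), σ (algebraMap F _ x) = algebraMap F _ x := by
        intro x
        rw [IsScalarTower.algebraMap_apply F k
          (FractionRing (MvPolynomial {z : Fin n × L // z.1 ∈ U z.2} k))]
        exact σ.commutes ⟨_, hk (algebraMap F k x)⟩
      -- the twisted group element
      obtain ⟨u', hu'⟩ : ∃ u' : GL (Fin n) F, ∀ i j, u'.1 i j =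
          u.1 i j ^ (S.Q ^ (S.a l0 * (h - 1))) := by
        refine ⟨Matrix.GeneralLinearGroup.map
          (iterateFrobenius F p (h0 * (S.a l0 * (h - 1)))) u, ?_⟩
        intro i j
        rw [hSQ, ← pow_mul]
        rfl
      have hsupp : ∀ i j, u'.1 i j ≠ 0 → r j i := by
        intro i j hij
        apply (hP i j).mp
        apply hu1
        intro h0
        rw [hu', h0, zero_pow (pow_ne_zero _ hQ'.pos)] at hij
        exact hij rfl
      have hEqv : Eqv hQ' (σ : FractionRing (MvPolynomial {z : Fin n × L // z.1 ∈ U z.2} k) →+*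
          FractionRing (MvPolynomial {z : Fin n × L // z.1 ∈ U z.2} k))
          (fun i j => u'.1 i j) S.v S.a := by
        intro l i
        change σ (S.v l i) = _
        have h1 := hb l i i (hself i)
        rw [mon_zero] at h1
        rw [h1, map_sum]
        have h15 : ∀ t : Fin (Nat.card {j // S.P (S.β i) j}),
            σ ((b l i t : FractionRing (MvPolynomial {z : Fin n × L // z.1 ∈ U z.2} k)) *
            mon S.Q S.v (l0, s l + h * t) i) =
            ∑ j : Fin n, phi hQ' (S.a l) (u'.1 i j) *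
              ((b l i t : FractionRing (MvPolynomial {z : Fin n × L // z.1 ∈ U z.2} k)) *
                mon S.Q S.v (l0, s l + h * t) j) := by
          intro t
          have h16 : σ (b l i t : FractionRing (MvPolynomial {z : Fin n × L // z.1 ∈ U z.2} k)) =
              b l i t := σ.commutes (b l i t)
          rw [map_mul, h16]
          have h17 : σ (mon S.Q S.v (l0, s l + h * t) i) =
              ∑ j : Fin n, phi hQ' (S.a l) (u'.1 i j) *
                mon S.Q S.v (l0, s l + h * t) j := by
            change σ (S.v l0 i ^ S.Q ^ (s l + h * t)) = _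
            rw [map_pow, hu2 i, hQ'.sum_pow_pow]
            refine Finset.sum_congr rfl fun j _ => ?_
            rw [mul_pow]
            congr 1
            have h18 : phi hQ' (S.a l) (u'.1 i j) =
                phi (F := F) hQ' (S.a l0 * (h - 1) + S.a l) (u.1 i j) := by
              rw [phi_apply, phi_apply, hu', map_pow, ← pow_mul, ← pow_add]
            rw [h18, ← phi_apply hQ']
            apply phi_congr hQ' hq'
            have h18 := hs l
            unfold dg at h18
            push_cast at h18 ⊢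
            have h19 : ((h - 1 : ℕ) : ZMod h) = -1 := by
              rw [Nat.cast_sub hh]
              simp
            rw [h19]
            simp only [CharP.cast_eq_zero, zero_mul, add_zero] at h18 ⊢
            rw [h18]
            ring
          rw [h17, Finset.mul_sum]
          refine Finset.sum_congr rfl fun j _ => by ring
        simp_rw [h15]
        rw [Finset.sum_comm]
        refine Finset.sum_congr rfl fun j _ => ?_
        rw [← Finset.mul_sum]
        by_cases h0 : u'.1 i j = 0
        · rw [h0, map_zero, zero_mul, zero_mul]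
        · have h20 := hb l i j ((hP i j).mpr (hsupp i j h0))
          rw [mon_zero] at h20
          rw [h20]
      have hSupp : Supp S (fun i j => u'.1 i j) := by
        intro i j hij
        rw [hSβ, hSanc]
        exact (rel_iff htrans hβ1 i j).mpr (hsupp i j hij)
      have hSupp' : Supp S (fun i j => (u'⁻¹).1 i j) := by
        intro i j hij
        rw [hSβ, hSanc]
        exact (rel_iff htrans hβ1 i j).mpr (supp_inv hrefl htrans hsupp i j hij)
      -- the blocks of one row
      have hone : ∀ i, (∀ j, r i j → r j i → j = i) → (blk (fun i j => u'.1 i j)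
          (S.f (β i))).det = u'.1 i i := by
        intro i hi
        have huniq : ∀ j, S.β j = β i → j = i := by
          intro j hj
          rw [hSβ] at hj
          exact hi j ((hβ1 j i).mp hj).2 ((hβ1 j i).mp hj).1
        let _ : Unique (S.Blk (β i)) :=
          { default := ⟨i, by rw [hSβ]⟩, uniq := fun j => Subtype.ext (huniq j.1 j.2) }
        rw [Matrix.det_unique]
        rfl
      have hInG : InGroup r e u' := by
        refine ⟨hsupp, fun i hi => ?_⟩
        by_cases hspc : sp
        · have huniq : ∀ j, β j = β i → j = i := by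
            intro j hj
            exact hi j ((hβ1 j i).mp hj).2 ((hβ1 j i).mp hj).1
          have h1 := special_of_fix (σ := (σ : _ →+* _)) hF hq' hEqv hSupp hX
            (fun t ht z hz => σ.commutes ⟨z, hDE _ (hGD t ht z hz)⟩) (hN i)
            ((hSS (β i)).mpr ⟨hspc, i, rfl, huniq⟩)
          rw [hone i hi, hSe i huniq] at h1
          exact h1
        · rw [he' hspc i]
          apply FiniteField.pow_card_sub_one_eq_one
          have h1 := blk_det_ne_zero hF hSupp hSupp' (β i)
          rw [hone i hi] at h1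
          exact h1
      -- the homomorphism attached to `u'`
      have hinjP : Function.Injective (parAct k (p ^ h0) a U (u' : Matrix (Fin n) (Fin n) F)) := by
        apply Function.LeftInverse.injective
          (g := parAct k (p ^ h0) a U ((u'⁻¹ : GL (Fin n) F) : Matrix (Fin n) (Fin n) F))
        intro g
        rw [parAct_comp (p ^ h0) a hQ.pos (fun s f m => by
          rw [← pow_mul, sum_pow_char_pow]) hU _ _ (supp_inv hrefl htrans hsupp),
          Units.mul_inv, parAct_one (p ^ h0) a hQ.pos]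
      obtain ⟨τ, hτ⟩ := exists_lift (K := FractionRing
        (MvPolynomial {z : Fin n × L // z.1 ∈ U z.2} k)) _ hinjP
      have hτE : Eqv hQ' (τ : FractionRing (MvPolynomial {z : Fin n × L // z.1 ∈ U z.2} k) →+*
          FractionRing (MvPolynomial {z : Fin n × L // z.1 ∈ U z.2} k))
          (fun i j => u'.1 i j) S.v S.a := by
        have h1 := eqv_gsys (β := β) (sp := sp) (e := e) (a := a) hQ hU u' hsupp
          (τ : _ →+* _) hτ
        subst hS
        exact h1
      -- the two homomorphisms agree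
      let S' : Subalgebra k (FractionRing (MvPolynomial {z : Fin n × L // z.1 ∈ U z.2} k)) :=
        { carrier := {z | σ z = τ z}
          mul_mem' := fun {x y} hx hy => by
            change σ (x * y) = τ (x * y)
            rw [map_mul, map_mul, show σ x = τ x from hx, show σ y = τ y from hy]
          add_mem' := fun {x y} hx hy => by
            change σ (x + y) = τ (x + y)
            rw [map_add, map_add, show σ x = τ x from hx, show σ y = τ y from hy]
          algebraMap_mem' := fun c => by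
            change σ (algebraMap k _ c) = τ (algebraMap k _ c)
            rw [AlgHom.commutes]
            exact σ.commutes ⟨_, hk c⟩ }
      have hS' : S' = ⊤ := by
        apply gen_top
        · intro z hz
          change σ z⁻¹ = τ z⁻¹
          rw [map_inv₀, map_inv₀, show σ z = τ z from hz]
        · rintro ⟨⟨i, l⟩, hil⟩
          change σ _ = τ _
          have h1 := hEqv l i
          have h2 := hτE l i
          rw [← h2] at h1
          rw [hSv, genMat_of_mem hil] at h1
          exact h1
      have h20 : algebraMap (MvPolynomial {z : Fin n × L // z.1 ∈ U z.2} k)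
          (FractionRing (MvPolynomial {z : Fin n × L // z.1 ∈ U z.2} k)) g ∈ S' := by
        rw [hS']; trivial
      have h21 : σ (algebraMap (MvPolynomial {z : Fin n × L // z.1 ∈ U z.2} k)
          (FractionRing (MvPolynomial {z : Fin n × L // z.1 ∈ U z.2} k)) g) =
          τ (algebraMap _ _ g) := h20
      rw [h21, hτ, hg u' hInG]
  · intro V hV
    have hM : ∀ i l, S.v l i ∈ V := by
      intro i l
      exact v_mem hQ' hF V hX (fun t ht l s => hV _ (hGD t ht _ (co_mem_G t l s))) i (hNS i) l
    have hB : ∀ b : MvPolynomial {z : Fin n × L // z.1 ∈ U z.2} k,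
        algebraMap (MvPolynomial {z : Fin n × L // z.1 ∈ U z.2} k)
          (FractionRing (MvPolynomial {z : Fin n × L // z.1 ∈ U z.2} k)) b ∈ V := by
      intro b
      induction b using MvPolynomial.induction_on with
      | C x =>
        have : algebraMap (MvPolynomial {z : Fin n × L // z.1 ∈ U z.2} k)
          (FractionRing (MvPolynomial {z : Fin n × L // z.1 ∈ U z.2} k)) (MvPolynomial.C x) =
            algebraMap k _ x := by
          rw [IsScalarTower.algebraMap_apply k (MvPolynomial {z : Fin n × L // z.1 ∈ U z.2} k)]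
          rfl
        rw [this]
        exact hV _ (D.algebraMap_mem x)
      | add x y hx hy => rw [map_add]; exact add_mem hx hy
      | mul_X x z hx =>
        obtain ⟨⟨i, l⟩, hil⟩ := z
        rw [map_mul]
        refine mul_mem hx ?_
        have h1 := hM i l
        rw [hSv, genMat_of_mem hil] at h1
        exact h1
    exact hB g

end Inv

end Pool.Agent.H15Par
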