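import Pool.Agent.Lib.Model_H15.Away

/-! # Reduction of columns by the Frobenius monomials of a chart: one stage -/

set_option autoImplicit false

open Pool.Agent.H15Model

namespace Pool.Agent.H15Par

/-- The `Q`-th power is additive. -/
structure Fr (K : Type) [Field K] (Q : ℕ) : Prop where
  two_le : 2 ≤ Q
  add : ∀ x y : K, (x + y) ^ Q = x ^ Q + y ^ Q

section Frob

variable {K : Type} [Field K] {Q : ℕ} {R : Type}

/-- The Frobenius map on vectors. -/
def fr (Q : ℕ) (w : R → K) : R → K := fun i => w i ^ Q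

lemma Fr.pos (hQ : Fr K Q) : Q ≠ 0 := by have := hQ.two_le; omega

lemma fr_zero (hQ : Fr K Q) : fr Q (0 : R → K) = 0 := by
  funext i
  exact zero_pow hQ.pos

lemma fr_add (hQ : Fr K Q) (w w' : R → K) : fr Q (w + w') = fr Q w + fr Q w' := by
  funext i
  exact hQ.add _ _

lemma fr_smul (c : K) (w : R → K) : fr Q (c • w) = c ^ Q • fr Q w := by
  funext i
  simp only [fr, Pi.smul_apply, smul_eq_mul, mul_pow]

lemma fr_sum (hQ : Fr K Q) {ι : Type} (s : Finset ι) (w : ι → R → K) :
    fr Q (∑ i ∈ s, w i) = ∑ i ∈ s, fr Q (w i) := by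
  classical
  induction s using Finset.induction with
  | empty => simp [fr_zero hQ]
  | insert i s hi ih => rw [Finset.sum_insert hi, Finset.sum_insert hi, fr_add hQ, ih]

end Frob

section Defs

variable {K : Type} [Field K] {L R I : Type} [Fintype I] [DecidableEq I] {h : ℕ}

/-- The Frobenius twist `x.2` of the column `x.1`. -/
def mon (Q : ℕ) (v : L → R → K) (x : L × ℕ) : R → K := fun i => v x.1 i ^ (Q ^ x.2)

/-- The degree of a monomial. -/
def dg (h : ℕ) (a : L → ℕ) (x : L × ℕ) : ZMod h := ((a x.1 + x.2 : ℕ) : ZMod h)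

/-- The matrix of the monomials of degree `j` of a chart, restricted to the rows of the block. -/
def Dl (Q : ℕ) (v : L → R → K) (c : ZMod h → I → L × ℕ) (f : I → R) (j : ZMod h) :
    Matrix I I K := Matrix.of fun i t => mon Q v (c j t) (f i)

/-- The coordinates in degree `j`. -/
noncomputable def co (Q : ℕ) (v : L → R → K) (c : ZMod h → I → L × ℕ) (f : I → R) (j : ZMod h) :
    (R → K) →ₗ[K] (I → K) := (Matrix.mulVecLin (Dl Q v c f j)⁻¹) ∘ₗ (LinearMap.funLeft K K f)

/-- The reduction in degree `j`. -/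
noncomputable def rd (Q : ℕ) (v : L → R → K) (c : ZMod h → I → L × ℕ) (f : I → R) (j : ZMod h) :
    (R → K) →ₗ[K] (R → K) :=
  LinearMap.id - ∑ s, ((LinearMap.proj s) ∘ₗ co Q v c f j).smulRight (mon Q v (c j s))

/-- The chart data are the data of a closed set of monomials. -/
structure Valid (a : L → ℕ) (c : ZMod h → I → L × ℕ) (d : L → ℕ) : Prop where
  lt : ∀ j t, (c j t).2 < d (c j t).1
  deg : ∀ j t, dg h a (c j t) = j
  surj : ∀ l r, r < d l → ∃ t, c (dg h a (l, r)) t = (l, r)

/-- The reduced columns. -/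
noncomputable def nx (Q : ℕ) (v : L → R → K) (a : L → ℕ) (c : ZMod h → I → L × ℕ) (d : L → ℕ)
    (f : I → R) : L → R → K :=
  fun l => rd Q v c f (dg h a (l, d l)) (mon Q v (l, d l))

/-- The degrees of the reduced columns. -/
def na (a : L → ℕ) (d : L → ℕ) : L → ℕ := fun l => a l + d l

/-- The lattice of degree `j`. -/
def lam (E : Subring K) (Q : ℕ) (v : L → R → K) (a : L → ℕ) (j : ZMod h) :
    Submodule E (R → K) := Submodule.span E {w | ∃ x, dg h a x = j ∧ w = mon Q v x}

variable {Q : ℕ} {v : L → R → K} {a : L → ℕ} {c : ZMod h → I → L × ℕ} {d : L → ℕ} {f : I → R}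

lemma mon_succ (l : L) (r : ℕ) : mon Q v (l, r + 1) = fr Q (mon Q v (l, r)) := by
  funext i
  change v l i ^ Q ^ (r + 1) = (v l i ^ Q ^ r) ^ Q
  rw [← pow_mul, pow_succ]

lemma mon_zero (l : L) : mon Q v (l, 0) = v l := by
  funext i
  change v l i ^ Q ^ 0 = _
  rw [pow_zero, pow_one]

lemma fr_mon (x : L × ℕ) : fr Q (mon Q v x) = mon Q v (x.1, x.2 + 1) := (mon_succ x.1 x.2).symm

lemma dg_succ (l : L) (r : ℕ) : dg h a (l, r + 1) = dg h a (l, r) + 1 := by
  unfold dg
  push_cast
  ring

lemma dg_na (l : L) (r : ℕ) : dg h (na a d) (l, r) = dg h a (l, d l + r) := by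
  unfold dg na
  push_cast
  ring

lemma rd_apply (j : ZMod h) (w : R → K) :
    rd Q v c f j w = w - ∑ s, co Q v c f j w s • mon Q v (c j s) := by
  unfold rd
  simp

lemma eq_rd_add (j : ZMod h) (w : R → K) :
    w = rd Q v c f j w + ∑ s, co Q v c f j w s • mon Q v (c j s) := by
  rw [rd_apply]; abel

lemma co_congr (j : ZMod h) {w w' : R → K} (hw : ∀ i, w (f i) = w' (f i)) :
    co Q v c f j w = co Q v c f j w' := by
  have h1 : LinearMap.funLeft K K f w = LinearMap.funLeft K K f w' := by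
    funext i
    exact hw i
  simp only [co, LinearMap.comp_apply, h1]

lemma co_of_zero (j : ZMod h) {w : R → K} (hw : ∀ i, w (f i) = 0) : co Q v c f j w = 0 := by
  rw [co_congr j (w' := 0) hw, map_zero]

lemma rd_of_zero (j : ZMod h) {w : R → K} (hw : ∀ i, w (f i) = 0) : rd Q v c f j w = w := by
  rw [rd_apply, co_of_zero j hw]
  simp

lemma co_unique {j : ZMod h} (hc : (Dl Q v c f j).det ≠ 0) (w : R → K) (y : I → K)
    (hy : ∀ i, w (f i) = ∑ t, y t * mon Q v (c j t) (f i)) : co Q v c f j w = y := by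
  have h1 : LinearMap.funLeft K K f w = (Dl Q v c f j).mulVec y := by
    funext i
    rw [LinearMap.funLeft_apply, hy i]
    simp only [Matrix.mulVec, dotProduct, Dl, Matrix.of_apply]
    refine Finset.sum_congr rfl fun t _ => mul_comm _ _
  simp only [co, LinearMap.comp_apply, Matrix.mulVecLin_apply, h1]
  rw [Matrix.mulVec_mulVec, Matrix.nonsing_inv_mul _ (isUnit_iff_ne_zero.mpr hc),
    Matrix.one_mulVec]

lemma sum_co {j : ZMod h} (hc : (Dl Q v c f j).det ≠ 0) (w : R → K) (i : I) :
    w (f i) = ∑ t, co Q v c f j w t * mon Q v (c j t) (f i) := by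
  have h1 : (Dl Q v c f j).mulVec (co Q v c f j w) = LinearMap.funLeft K K f w := by
    simp only [co, LinearMap.comp_apply, Matrix.mulVecLin_apply]
    rw [Matrix.mulVec_mulVec, Matrix.mul_nonsing_inv _ (isUnit_iff_ne_zero.mpr hc),
      Matrix.one_mulVec]
  have h2 := congrFun h1 i
  rw [LinearMap.funLeft_apply] at h2
  rw [← h2]
  simp only [Matrix.mulVec, dotProduct, Dl, Matrix.of_apply]
  refine Finset.sum_congr rfl fun t _ => mul_comm _ _

lemma rd_block {j : ZMod h} (hc : (Dl Q v c f j).det ≠ 0) (w : R → K) (i : I) :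
    rd Q v c f j w (f i) = 0 := by
  rw [rd_apply]
  simp only [Pi.sub_apply, Finset.sum_apply, Pi.smul_apply, smul_eq_mul]
  rw [← sum_co hc w i, sub_self]

lemma co_self {j : ZMod h} (hc : (Dl Q v c f j).det ≠ 0) (t : I) :
    co Q v c f j (mon Q v (c j t)) = Pi.single t 1 := by
  apply co_unique hc
  intro i
  rw [Finset.sum_eq_single t]
  · simp
  · intro s _ hs
    rw [Pi.single_eq_of_ne hs, zero_mul]
  · intro h5; exact absurd (Finset.mem_univ _) h5

lemma rd_self {j : ZMod h} (hc : (Dl Q v c f j).det ≠ 0) (t : I) :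
    rd Q v c f j (mon Q v (c j t)) = 0 := by
  rw [rd_apply, co_self hc, Finset.sum_eq_single t]
  · simp
  · intro s _ hs
    rw [Pi.single_eq_of_ne hs, zero_smul]
  · intro h5; exact absurd (Finset.mem_univ _) h5

/-! ### Lattices -/

lemma mon_mem_lam (E : Subring K) (x : L × ℕ) : mon Q v x ∈ lam E Q v a (dg h a x) :=
  Submodule.subset_span ⟨x, rfl, rfl⟩

lemma lam_mono {E E' : Subring K} (hE : E ≤ E') {j : ZMod h} {w : R → K}
    (hw : w ∈ lam E Q v a j) : w ∈ lam E' Q v a j := by
  induction hw using Submodule.span_induction with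
  | mem v hv => exact Submodule.subset_span hv
  | zero => exact zero_mem _
  | add x y _ _ hx hy => exact add_mem hx hy
  | smul c v _ hv => exact Submodule.smul_mem _ (⟨c.1, hE c.2⟩ : E') hv

lemma smul_mem_lam {E : Subring K} {j : ZMod h} {w : R → K} (hw : w ∈ lam E Q v a j) {y : K}
    (hy : y ∈ E) : y • w ∈ lam E Q v a j := Submodule.smul_mem _ (⟨y, hy⟩ : E) hw

lemma fr_mem_lam (hQ : Fr K Q) {E : Subring K} {j : ZMod h} {w : R → K}
    (hw : w ∈ lam E Q v a j) : fr Q w ∈ lam E Q v a (j + 1) := by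
  induction hw using Submodule.span_induction with
  | mem v hv =>
    obtain ⟨x, hx, rfl⟩ := hv
    refine Submodule.subset_span ⟨(x.1, x.2 + 1), ?_, fr_mon x⟩
    rw [dg_succ, ← hx]
  | zero => rw [fr_zero hQ]; exact zero_mem _
  | add x y _ _ hx hy => rw [fr_add hQ]; exact add_mem hx hy
  | smul c w _ hw =>
    have : fr Q (c • w) = (c ^ Q) • fr Q w := by
      funext i
      change ((c : K) * w i) ^ Q = ((c ^ Q : E) : K) * w i ^ Q
      rw [mul_pow]
      rfl
    rw [this]; exact Submodule.smul_mem _ _ hw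

/-- A family of submodules, stable under Frobenius, that contains the columns contains all the
monomials. -/
lemma lam_le_of_cols {E : Subring K} (N : ZMod h → Submodule E (R → K))
    (hfr : ∀ j w, w ∈ N j → fr Q w ∈ N (j + 1)) (hcol : ∀ l, v l ∈ N (dg h a (l, 0)))
    {j : ZMod h} {w : R → K} (hw : w ∈ lam E Q v a j) : w ∈ N j := by
  have hmon : ∀ l r, mon Q v (l, r) ∈ N (dg h a (l, r)) := by
    intro l r
    induction r with
    | zero => rw [mon_zero]; exact hcol l
    | succ r ih => rw [mon_succ, dg_succ]; exact hfr _ _ ih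
  have : lam E Q v a j ≤ N j := by
    unfold lam
    rw [Submodule.span_le]
    rintro _ ⟨x, rfl, rfl⟩
    exact hmon x.1 x.2
  exact this hw

/-- the common inductive step -/
lemma frob_step (hQ : Fr K Q) {E : Subring K} {N : ZMod h → Submodule E (R → K)}
    (hfr : ∀ j w, w ∈ N j → fr Q w ∈ N (j + 1))
    (hc : ∀ j, (Dl Q v c f j).det ≠ 0) {j : ZMod h} {w : R → K}
    (h1 : ∀ s, co Q v c f j w s ∈ E) (h2 : rd Q v c f j w ∈ N j)
    (h3 : ∀ t, (∀ s, co Q v c f (j + 1) (fr Q (mon Q v (c j t))) s ∈ E) ∧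
      rd Q v c f (j + 1) (fr Q (mon Q v (c j t))) ∈ N (j + 1)) :
    (∀ s, co Q v c f (j + 1) (fr Q w) s ∈ E) ∧ rd Q v c f (j + 1) (fr Q w) ∈ N (j + 1) := by
  have h4 : fr Q w = fr Q (rd Q v c f j w) +
      ∑ t, (co Q v c f j w t ^ Q) • fr Q (mon Q v (c j t)) := by
    conv_lhs => rw [eq_rd_add (Q := Q) (v := v) (c := c) (f := f) j w]
    rw [fr_add hQ, fr_sum hQ]
    congr 1
    refine Finset.sum_congr rfl fun t _ => fr_smul _ _
  have h5 : ∀ i, fr Q (rd Q v c f j w) (f i) = 0 := by
    intro i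
    unfold fr
    rw [rd_block (hc j), zero_pow hQ.pos]
  constructor
  · intro s
    rw [h4, map_add, map_sum, co_of_zero _ h5, zero_add]
    simp only [map_smul, Finset.sum_apply, Pi.smul_apply, smul_eq_mul]
    exact sum_mem fun t _ => mul_mem (pow_mem (h1 t) _) ((h3 t).1 s)
  · rw [h4, map_add, map_sum, rd_of_zero _ h5]
    refine add_mem (hfr _ _ h2) (sum_mem fun t _ => ?_)
    rw [map_smul]
    exact Submodule.smul_mem _ (⟨_, pow_mem (h1 t) Q⟩ : E) (h3 t).2

/-- The monomials: coordinates and reduction. -/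
lemma main1 (hQ : Fr K Q) {E : Subring K} (hv : Valid a c d) (hc : ∀ j, (Dl Q v c f j).det ≠ 0)
    (hE : ∀ l s, co Q v c f (dg h a (l, d l)) (mon Q v (l, d l)) s ∈ E) (l : L) (r : ℕ) :
    (∀ s, co Q v c f (dg h a (l, r)) (mon Q v (l, r)) s ∈ E) ∧
      rd Q v c f (dg h a (l, r)) (mon Q v (l, r)) ∈
        lam E Q (nx Q v a c d f) (na a d) (dg h a (l, r)) := by
  have hle : ∀ l r, r ≤ d l → (∀ s, co Q v c f (dg h a (l, r)) (mon Q v (l, r)) s ∈ E) ∧
      rd Q v c f (dg h a (l, r)) (mon Q v (l, r)) ∈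
        lam E Q (nx Q v a c d f) (na a d) (dg h a (l, r)) := by
    intro l r hr
    rcases hr.lt_or_eq with h1 | h1
    · obtain ⟨t, ht⟩ := hv.surj l r h1
      have h2 := co_self (hc (dg h a (l, r))) t
      have h3 := rd_self (hc (dg h a (l, r))) t
      rw [ht] at h2 h3
      constructor
      · intro s
        rw [h2, Pi.single_apply]
        split_ifs
        · exact one_mem _
        · exact zero_mem _
      · rw [h3]; exact zero_mem _
    · rw [h1]
      refine ⟨hE l, ?_⟩
      have h2 := mon_mem_lam (h := h) (v := nx Q v a c d f) (a := na a d) (Q := Q) E (l, 0)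
      rw [mon_zero, dg_na, add_zero] at h2
      exact h2
  induction r with
  | zero => exact hle l 0 (Nat.zero_le _)
  | succ r ih =>
    by_cases hr : r + 1 ≤ d l
    · exact hle l _ hr
    · rw [dg_succ, mon_succ]
      apply frob_step hQ (fun j w hw => fr_mem_lam hQ hw) hc ih.1 ih.2
      intro t
      have h2 := hle _ _ (hv.lt (dg h a (l, r)) t)
      rw [dg_succ, ← fr_mon] at h2
      have h3 : dg h a ((c (dg h a (l, r)) t).1, (c (dg h a (l, r)) t).2) = dg h a (l, r) :=
        hv.deg _ t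
      rw [h3] at h2
      exact h2

lemma main2 (hQ : Fr K Q) {E : Subring K} (hv : Valid a c d) (hc : ∀ j, (Dl Q v c f j).det ≠ 0)
    (hE : ∀ l s, co Q v c f (dg h a (l, d l)) (mon Q v (l, d l)) s ∈ E) {j : ZMod h} {w : R → K}
    (hw : w ∈ lam E Q v a j) :
    (∀ s, co Q v c f j w s ∈ E) ∧
      rd Q v c f j w ∈ lam E Q (nx Q v a c d f) (na a d) j := by
  induction hw using Submodule.span_induction with
  | mem w hw =>
    obtain ⟨x, rfl, rfl⟩ := hw
    exact main1 hQ hv hc hE x.1 x.2
  | zero =>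
    constructor
    · intro s; rw [map_zero]; exact zero_mem E
    · rw [map_zero]; exact zero_mem _
  | add x y _ _ hx hy =>
    constructor
    · intro s; rw [map_add]; exact add_mem (hx.1 s) (hy.1 s)
    · rw [map_add]; exact add_mem hx.2 hy.2
  | smul z w _ hw =>
    have h1 : z • w = (z : K) • w := rfl
    rw [h1]
    constructor
    · intro s; rw [map_smul]; exact mul_mem z.2 (hw.1 s)
    · rw [map_smul]; exact smul_mem_lam hw.2 z.2

/-- The reduced lattices are contained in the lattices. -/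
lemma lam_anti (hQ : Fr K Q) {E : Subring K} (hv : Valid a c d)
    (hE : ∀ l s, co Q v c f (dg h a (l, d l)) (mon Q v (l, d l)) s ∈ E) {j : ZMod h} {w : R → K}
    (hw : w ∈ lam E Q (nx Q v a c d f) (na a d) j) : w ∈ lam E Q v a j := by
  apply lam_le_of_cols (N := fun j => lam E Q v a j) (fun j w hw => fr_mem_lam hQ hw) _ hw
  intro l
  rw [dg_na, add_zero]
  unfold nx
  rw [rd_apply]
  refine sub_mem (mon_mem_lam E _) (sum_mem fun s _ => ?_)
  apply smul_mem_lam _ (hE l s)
  have h1 := mon_mem_lam (v := v) (a := a) (h := h) (Q := Q) E (c (dg h a (l, d l)) s)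
  rw [hv.deg] at h1
  exact h1

/-- The elements of the reduced lattices vanish on the block. -/
lemma lam_nx_block (hQ : Fr K Q) {E : Subring K} (hc : ∀ j, (Dl Q v c f j).det ≠ 0) {j : ZMod h}
    {w : R → K} (hw : w ∈ lam E Q (nx Q v a c d f) (na a d) j) (i : I) : w (f i) = 0 := by
  let N : Submodule E (R → K) :=
    { carrier := {w | w (f i) = 0}
      add_mem' := fun {x y} hx hy => by
        change x (f i) + y (f i) = 0
        rw [show x (f i) = 0 from hx, show y (f i) = 0 from hy, add_zero]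
      zero_mem' := rfl
      smul_mem' := fun z x hx => by
        change (z : K) * x (f i) = 0
        rw [show x (f i) = 0 from hx, mul_zero] }
  have h1 : w ∈ N := by
    apply lam_le_of_cols (N := fun _ => N) _ _ hw
    · intro j w hw
      change w (f i) ^ Q = 0
      rw [show w (f i) = 0 from hw, zero_pow hQ.pos]
    · intro l
      exact rd_block (hc _) _ i
  exact h1

/-- Two families of columns with the same lattices have the same reduced lattices. -/
lemma lam_nx_le (hQ : Fr K Q) {E : Subring K} {v' : L → R → K} {a' : L → ℕ}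
    {c' : ZMod h → I → L × ℕ} {d' : L → ℕ}
    (hv : Valid a c d) (hc : ∀ j, (Dl Q v c f j).det ≠ 0)
    (hE : ∀ l s, co Q v c f (dg h a (l, d l)) (mon Q v (l, d l)) s ∈ E)
    (hv' : Valid a' c' d') (hc' : ∀ j, (Dl Q v' c' f j).det ≠ 0)
    (hE' : ∀ l s, co Q v' c' f (dg h a' (l, d' l)) (mon Q v' (l, d' l)) s ∈ E)
    (hle : ∀ (j : ZMod h) w, w ∈ lam E Q v' a' j → w ∈ lam E Q v a j) {j : ZMod h} {w : R → K}
    (hw : w ∈ lam E Q (nx Q v' a' c' d' f) (na a' d') j) :
    w ∈ lam E Q (nx Q v a c d f) (na a d) j := by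
  have h1 := hle j w (lam_anti hQ hv' hE' hw)
  have h2 := (main2 hQ hv hc hE h1).2
  rwa [rd_of_zero _ (fun i => lam_nx_block hQ hc' hw i)] at h2

end Defs

end Pool.Agent.H15Par
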