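import Pool.Agent.Lib.Par_H15.GlueOne
import Pool.Agent.Lib.Par_H15.Greedy

/-! # The stages of the reduction along a forest of blocks -/

set_option autoImplicit false

open Pool.Agent.H15Model

namespace Pool.Agent.H15Par

/-- The relation of being strictly below in a forest whose nodes are labelled by natural numbers. -/
structure Forest (anc : ℕ → ℕ → Prop) : Prop where
  lt : ∀ {s T}, anc s T → s < T
  iff : ∀ {s T}, anc s T → ∀ r, anc r s ↔ anc r T ∧ r < s

/-- The fixed data. -/
structure Sys (K L R : Type) where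
  /-- the exponent of Frobenius -/
  Q : ℕ
  /-- the label of the block of a row -/
  β : R → ℕ
  /-- the relation between the blocks -/
  anc : ℕ → ℕ → Prop
  /-- the columns -/
  v : L → R → K
  /-- the twists of the columns -/
  a : L → ℕ
  /-- the stages at which a power of the determinant is added to the coordinates -/
  S : ℕ → Prop
  /-- the exponents -/
  e : ℕ → ℕ

/-- The data of a chart. -/
structure Cht (L R : Type) (h : ℕ) where
  /-- the monomials of the stage -/
  C : ℕ → ZMod h → R → L × ℕ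
  /-- the numbers of Frobenius twists of the columns -/
  D : ℕ → L → ℕ

section Defs

variable {K : Type} [Field K] {L R : Type} [Fintype R] [DecidableEq R] {h : ℕ}

/-- The rows of a block. -/
abbrev Sys.Blk (S : Sys K L R) (t : ℕ) : Type := {i : R // S.β i = t}

/-- The monomials of the block. -/
def Sys.c (S : Sys K L R) (X : Cht L R h) (t : ℕ) : ZMod h → S.Blk t → L × ℕ :=
  fun j i => X.C t j i.1

/-- The inclusion of the block. -/
def Sys.f (S : Sys K L R) (t : ℕ) : S.Blk t → R := Subtype.val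

open Classical in
/-- The columns and their degrees after the reductions at the stages `< s` below `T`. -/
noncomputable def Sys.st (S : Sys K L R) (X : Cht L R h) (T : ℕ) : ℕ → (L → R → K) × (L → ℕ)
  | 0 => (S.v, S.a)
  | s + 1 => if S.anc s T then
      (nx S.Q (Sys.st S X T s).1 (Sys.st S X T s).2 (S.c X s) (X.D s) (S.f s),
        na (Sys.st S X T s).2 (X.D s))
    else Sys.st S X T s

/-- The columns at the stage `t`. -/
noncomputable def Sys.w (S : Sys K L R) (X : Cht L R h) (t : ℕ) : L → R → K := (S.st X t t).1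

/-- The degrees at the stage `t`. -/
noncomputable def Sys.b (S : Sys K L R) (X : Cht L R h) (t : ℕ) : L → ℕ := (S.st X t t).2

/-- The condition on a chart at the stage `t`. -/
structure Sys.Good (S : Sys K L R) (X : Cht L R h) (t : ℕ) : Prop where
  valid : Valid (S.b X t) (S.c X t) (X.D t)
  det : ∀ j, (Dl S.Q (S.w X t) (S.c X t) (S.f t) j).det ≠ 0

/-- The generators of the chart ring at the stage `t`. -/
def Sys.G (S : Sys K L R) (X : Cht L R h) (t : ℕ) : Set K :=
  gen S.Q (S.w X t) (S.b X t) (S.c X t) (X.D t) (S.f t) (S.S t) (S.e t)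

/-- The chart ring. -/
noncomputable def Sys.ch (k : Type) [Field k] [Algebra k K] (S : Sys K L R) (X : Cht L R h)
    (T : ℕ) : Subalgebra k K := Algebra.adjoin k {z | ∃ t < T, z ∈ S.G X t}

variable {S : Sys K L R} {X : Cht L R h}

lemma st_zero (T : ℕ) : S.st X T 0 = (S.v, S.a) := rfl

lemma st_succ_not {s T : ℕ} (hs : ¬ S.anc s T) : S.st X T (s + 1) = S.st X T s := by
  rw [Sys.st, if_neg hs]

lemma st_eq (hF : Forest S.anc) {s T : ℕ} (hs : S.anc s T) :
    ∀ r ≤ s, S.st X T r = S.st X s r := by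
  intro r
  induction r with
  | zero => intro _; rfl
  | succ r ih =>
    intro hr
    have ih' := ih (by omega)
    have h1 : S.anc r s ↔ S.anc r T := by
      rw [hF.iff hs r]
      exact ⟨fun h => h.1, fun h => ⟨h, by omega⟩⟩
    by_cases hrT : S.anc r T
    · rw [Sys.st, if_pos hrT, Sys.st, if_pos (h1.mpr hrT), ih']
    · rw [st_succ_not hrT, st_succ_not (fun h => hrT (h1.mp h)), ih']

lemma st_eq_w (hF : Forest S.anc) {s T : ℕ} (hs : S.anc s T) :
    S.st X T s = (S.w X s, S.b X s) := st_eq hF hs s le_rfl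

lemma st_succ_anc (hF : Forest S.anc) {s T : ℕ} (hs : S.anc s T) :
    S.st X T (s + 1) = (nx S.Q (S.w X s) (S.b X s) (S.c X s) (X.D s) (S.f s),
      na (S.b X s) (X.D s)) := by
  rw [Sys.st, if_pos hs, st_eq_w hF hs]

variable {k : Type} [Field k] [Algebra k K]

lemma G_sub_ch {t T : ℕ} (ht : t < T) {z : K} (hz : z ∈ S.G X t) : z ∈ S.ch k X T :=
  Algebra.subset_adjoin ⟨t, ht, hz⟩

lemma ch_mono {T T' : ℕ} (hT : T ≤ T') : S.ch k X T ≤ S.ch k X T' := by
  apply Algebra.adjoin_mono
  rintro z ⟨t, ht, hz⟩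
  exact ⟨t, by omega, hz⟩

lemma ch_succ (T : ℕ) : S.ch k X (T + 1) = S.ch k X T ⊔ Algebra.adjoin k (S.G X T) := by
  apply le_antisymm
  · unfold Sys.ch
    rw [Algebra.adjoin_le_iff]
    rintro z ⟨t, ht, hz⟩
    rcases Nat.lt_succ_iff_lt_or_eq.mp ht with h1 | rfl
    · exact (le_sup_left (a := Algebra.adjoin k _)) (Algebra.subset_adjoin ⟨t, h1, hz⟩)
    · exact (le_sup_right (b := Algebra.adjoin k _)) (Algebra.subset_adjoin hz)
  · refine sup_le (ch_mono (Nat.le_succ T)) ?_
    rw [Algebra.adjoin_le_iff]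
    intro z hz
    exact G_sub_ch (Nat.lt_succ_self T) hz

omit [Fintype R] [DecidableEq R] in
lemma ch_zero [Fintype R] [DecidableEq R] : S.ch k X 0 = ⊥ := by
  unfold Sys.ch
  have : {z | ∃ t < 0, z ∈ S.G X t} = ∅ := by
    ext z
    simp
  rw [this, Algebra.adjoin_empty]

lemma co_mem_G (t : ℕ) (l : L) (s : S.Blk t) :
    co S.Q (S.w X t) (S.c X t) (S.f t) (dg h (S.b X t) (l, X.D t l))
      (mon S.Q (S.w X t) (l, X.D t l)) s ∈ S.G X t := Or.inl ⟨(l, s), rfl⟩

/-- The lattices of two charts are the same. -/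
lemma lat_le (hQ : Fr K S.Q) (hF : Forest S.anc) {X' : Cht L R h} {E : Subring K} {T s : ℕ}
    (hX : ∀ r < s, S.Good X r) (hX' : ∀ r < s, S.Good X' r)
    (hE : ∀ r < s, ∀ z ∈ S.G X r, z ∈ E) (hE' : ∀ r < s, ∀ z ∈ S.G X' r, z ∈ E) :
    ∀ (j : ZMod h) w, w ∈ lam E S.Q (S.st X' T s).1 (S.st X' T s).2 j →
      w ∈ lam E S.Q (S.st X T s).1 (S.st X T s).2 j := by
  induction s with
  | zero => intro j w hw; exact hw
  | succ s ih =>
    have ih' := ih (fun r hr => hX r (by omega)) (fun r hr => hX' r (by omega))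
      (fun r hr => hE r (by omega)) (fun r hr => hE' r (by omega))
    by_cases hs : S.anc s T
    · rw [st_succ_anc hF hs, st_succ_anc hF hs]
      rw [st_eq_w hF hs, st_eq_w hF hs] at ih'
      intro j w hw
      exact lam_nx_le hQ (hX s (by omega)).valid (hX s (by omega)).det
        (fun l t => hE s (by omega) _ (co_mem_G s l t))
        (hX' s (by omega)).valid (hX' s (by omega)).det
        (fun l t => hE' s (by omega) _ (co_mem_G s l t)) ih' hw
    · rw [st_succ_not hs, st_succ_not hs]
      exact ih'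

/-- The gluing condition. -/
lemma isAway_ch [NeZero h] (hQ : Fr K S.Q) (hF : Forest S.anc) {X' : Cht L R h} (T : ℕ)
    (hX : ∀ r < T, S.Good X r) (hX' : ∀ r < T, S.Good X' r) :
    IsAway (S.ch k X T) (S.ch k X T ⊔ S.ch k X' T) := by
  induction T with
  | zero =>
    rw [ch_zero, ch_zero, sup_idem]
    exact IsAway.refl _
  | succ T ih =>
    have ih' := ih (fun r hr => hX r (by omega)) (fun r hr => hX' r (by omega))
    rw [ch_succ, ch_succ]
    have h1 : ∀ r < T, ∀ z ∈ S.G X r, z ∈ (S.ch k X T ⊔ S.ch k X' T).toSubring :=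
      fun r hr z hz => (le_sup_left : S.ch k X T ≤ _) (G_sub_ch hr hz)
    have h2 : ∀ r < T, ∀ z ∈ S.G X' r, z ∈ (S.ch k X T ⊔ S.ch k X' T).toSubring :=
      fun r hr z hz => (le_sup_right : S.ch k X' T ≤ _) (G_sub_ch hr hz)
    have g1 := hX T (Nat.lt_succ_self T)
    have g2 := hX' T (Nat.lt_succ_self T)
    exact glue_one hQ g1.valid g1.det g2.valid g2.det
      (lat_le hQ hF (fun r hr => hX r (by omega)) (fun r hr => hX' r (by omega)) h1 h2)
      (lat_le hQ hF (fun r hr => hX' r (by omega)) (fun r hr => hX r (by omega)) h2 h1) ih'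

/-- The entries belong to every valuation ring that contains the chart ring. -/
lemma v_mem [NeZero h] (hQ : Fr K S.Q) (hF : Forest S.anc) (V : ValuationSubring K) {N : ℕ}
    (hX : ∀ r < N, S.Good X r)
    (hE : ∀ r < N, ∀ l s, co S.Q (S.w X r) (S.c X r) (S.f r) (dg h (S.b X r) (l, X.D r l))
      (mon S.Q (S.w X r) (l, X.D r l)) s ∈ V) (i : R) (hi : S.β i < N) (l : L) :
    S.v l i ∈ V := by
  obtain ⟨T, hT⟩ : ∃ T, T = S.β i := ⟨_, rfl⟩
  rw [← hT] at hi
  have key : ∀ d ≤ T, ∀ l, (S.st X T (T - d)).1 l i ∈ V := by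
    intro d
    induction d with
    | zero =>
      intro _
      rw [Nat.sub_zero]
      apply descent hQ V (hX T hi).valid (hX T hi).det (hE T hi)
      intro l
      have h1 := rd_block ((hX T hi).det (dg h (S.b X T) (l, X.D T l)))
        (mon S.Q (S.w X T) (l, X.D T l)) (⟨i, hT.symm⟩ : S.Blk T)
      change nx S.Q (S.w X T) (S.b X T) (S.c X T) (X.D T) (S.f T) l i ∈ V
      have h2 : nx S.Q (S.w X T) (S.b X T) (S.c X T) (X.D T) (S.f T) l i = 0 := h1
      rw [h2]
      exact zero_mem V
    | succ d ih =>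
      intro hd
      have ih' := ih (by omega)
      obtain ⟨s, hs⟩ : ∃ s, s = T - (d + 1) := ⟨_, rfl⟩
      have h1 : T - d = s + 1 := by omega
      rw [← hs]
      rw [h1] at ih'
      by_cases hsT : S.anc s T
      · rw [st_succ_anc hF hsT] at ih'
        rw [st_eq_w hF hsT]
        exact descent hQ V (hX s (by omega)).valid (hX s (by omega)).det (hE s (by omega)) i ih'
      · rw [st_succ_not hsT] at ih'
        exact ih'
  have := key T le_rfl l
  rw [Nat.sub_self] at this
  exact this

end Defs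

section Top

variable {K : Type} [Field K] {L R : Type} [Fintype R] [DecidableEq R] {h : ℕ}
variable {S : Sys K L R} {X : Cht L R h}

/-- The rows below a block. -/
def Sys.P (S : Sys K L R) (T : ℕ) (i : R) : Prop := S.β i = T ∨ S.anc (S.β i) T

/-- Nondegeneracy: the monomials of every degree span the space of the rows below `T`. -/
def Sys.ND (S : Sys K L R) (h : ℕ) (T : ℕ) : Prop :=
  ∀ (j : ZMod h) (y : R → K), ∃ w ∈ lam ⊤ S.Q S.v S.a j, ∀ i, S.P T i → w i = y i

/-- Nondegeneracy persists. -/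
lemma nd_st (hQ : Fr K S.Q) (hF : Forest S.anc) {T s : ℕ} (hND : S.ND h T)
    (hX : ∀ r < s, S.Good X r) (j : ZMod h) (y : R → K)
    (hy : ∀ i, S.β i < s → S.anc (S.β i) T → y i = 0) :
    ∃ w ∈ lam ⊤ S.Q (S.st X T s).1 (S.st X T s).2 j, ∀ i, S.P T i → w i = y i := by
  induction s with
  | zero => exact hND j y
  | succ s ih =>
    obtain ⟨w, hw, hwy⟩ := ih (fun r hr => hX r (by omega)) (fun i hi => hy i (by omega))
    refine ⟨w, ?_, hwy⟩
    by_cases hs : S.anc s T
    · rw [st_eq_w hF hs] at hw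
      rw [st_succ_anc hF hs]
      have g := hX s (Nat.lt_succ_self s)
      have h1 := (main2 hQ g.valid g.det (E := ⊤) (fun l s => trivial) hw).2
      have h2 : rd S.Q (S.w X s) (S.c X s) (S.f s) j w = w := by
        apply rd_of_zero
        intro i
        have h3 : S.anc (S.β i.1) T := by rw [i.2]; exact hs
        have h4 : w i.1 = y i.1 := hwy i.1 (Or.inr h3)
        change w i.1 = 0
        rw [h4]
        exact hy i.1 (by rw [i.2]; exact Nat.lt_succ_self s) h3
      rw [h2] at h1
      exact h1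
    · rw [st_succ_not hs]
      exact hw

/-- The monomials of every degree span the space of the rows of the block. -/
lemma top_block (hQ : Fr K S.Q) (hF : Forest S.anc) {T : ℕ} (hND : S.ND h T)
    (hX : ∀ r < T, S.Good X r) (j : ZMod h) :
    Submodule.span K {w : S.Blk T → K | ∃ x, dg h (S.b X T) x = j ∧
      w = fun i => mon S.Q (S.w X T) x (S.f T i)} = ⊤ := by
  rw [eq_top_iff]
  intro y _
  obtain ⟨w, hw, hwy⟩ := nd_st hQ hF (s := T) hND hX j
    (fun i => if hi : S.β i = T then y ⟨i, hi⟩ else 0) (by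
      intro i hi _
      rw [dif_neg (by omega)])
  have h1 : y = fun i => w (S.f T i) := by
    funext i
    have h2 := hwy i.1 (Or.inl i.2)
    change y i = w i.1
    rw [h2, dif_pos i.2]
  rw [h1]
  clear hwy h1
  induction hw using Submodule.span_induction with
  | mem w hw =>
    obtain ⟨x, hx, rfl⟩ := hw
    exact Submodule.subset_span ⟨x, hx, rfl⟩
  | zero => exact zero_mem _
  | add x y _ _ hx hy => exact add_mem hx hy
  | smul z w _ hw => exact Submodule.smul_mem _ (z : K) hw

end Top

section Val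

variable {K : Type} [Field K] {L R : Type} [Fintype R] [DecidableEq R] {h : ℕ}
variable {S : Sys K L R} {X : Cht L R h}

/-- The stages depend only on the previous choices. -/
lemma st_congr {X X' : Cht L R h} {s : ℕ} (hC : ∀ r < s, S.c X r = S.c X' r)
    (hD : ∀ r < s, X.D r = X'.D r) (T : ℕ) : S.st X T s = S.st X' T s := by
  induction s with
  | zero => rfl
  | succ s ih =>
    have ih' := ih (fun r hr => hC r (by omega)) (fun r hr => hD r (by omega))
    by_cases hs : S.anc s T
    · rw [Sys.st, if_pos hs, Sys.st, if_pos hs, ih', hC s (Nat.lt_succ_self s),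
        hD s (Nat.lt_succ_self s)]
    · rw [st_succ_not hs, st_succ_not hs, ih']

lemma good_congr {X X' : Cht L R h} {t : ℕ} (hC : ∀ r < t + 1, S.c X r = S.c X' r)
    (hD : ∀ r < t + 1, X.D r = X'.D r) (hg : S.Good X t) : S.Good X' t := by
  have h1 := st_congr (S := S) (fun r hr => hC r (by omega)) (fun r (hr : r < t) =>
    hD r (by omega)) t
  have h2 : S.w X t = S.w X' t := by unfold Sys.w; rw [h1]
  have h3 : S.b X t = S.b X' t := by unfold Sys.b; rw [h1]
  obtain ⟨g1, g2⟩ := hg
  refine ⟨?_, ?_⟩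
  · rw [← h3, ← hC t (Nat.lt_succ_self t), ← hD t (Nat.lt_succ_self t)]; exact g1
  · rw [← h2, ← hC t (Nat.lt_succ_self t)]; exact g2

lemma G_congr {X X' : Cht L R h} {t : ℕ} (hC : ∀ r < t + 1, S.c X r = S.c X' r)
    (hD : ∀ r < t + 1, X.D r = X'.D r) : S.G X t = S.G X' t := by
  have h1 := st_congr (S := S) (fun r hr => hC r (by omega)) (fun r (hr : r < t) =>
    hD r (by omega)) t
  have h2 : S.w X t = S.w X' t := by unfold Sys.w; rw [h1]
  have h3 : S.b X t = S.b X' t := by unfold Sys.b; rw [h1]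
  unfold Sys.G
  rw [h2, h3, hC t (Nat.lt_succ_self t), hD t (Nat.lt_succ_self t)]

lemma ch_congr {k : Type} [Field k] [Algebra k K] {X X' : Cht L R h} {N : ℕ}
    (hC : ∀ r < N, S.c X r = S.c X' r) (hD : ∀ r < N, X.D r = X'.D r) :
    S.ch k X N = S.ch k X' N := by
  unfold Sys.ch
  congr 1
  ext z
  constructor
  · rintro ⟨t, ht, hz⟩
    refine ⟨t, ht, ?_⟩
    rwa [← G_congr (fun r hr => hC r (by omega)) (fun r hr => hD r (by omega))]
  · rintro ⟨t, ht, hz⟩
    refine ⟨t, ht, ?_⟩
    rwa [G_congr (fun r hr => hC r (by omega)) (fun r hr => hD r (by omega))]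

/-- The columns stay in the valuation ring. -/
lemma st_mem {V : ValuationSubring K} (hvV : ∀ l i, S.v l i ∈ V) (hF : Forest S.anc) (T : ℕ)
    {s : ℕ} (hG : ∀ r < s, ∀ z ∈ S.G X r, z ∈ V) (l : L) (i : R) :
    (S.st X T s).1 l i ∈ V := by
  induction s generalizing l i with
  | zero => exact hvV l i
  | succ s ih =>
    have ih' := ih (fun r hr => hG r (by omega))
    by_cases hs : S.anc s T
    · rw [st_eq_w hF hs] at ih'
      rw [st_succ_anc hF hs]
      change nx S.Q (S.w X s) (S.b X s) (S.c X s) (X.D s) (S.f s) l i ∈ V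
      unfold nx
      rw [rd_apply]
      simp only [Pi.sub_apply, Finset.sum_apply, Pi.smul_apply, smul_eq_mul]
      refine sub_mem (pow_mem (ih' _ _) _) (sum_mem fun t _ => mul_mem ?_ (pow_mem (ih' _ _) _))
      exact hG s (Nat.lt_succ_self s) _ (co_mem_G s l t)
    · rw [st_succ_not hs]
      exact ih' l i

/-- Every valuation ring that contains the entries contains a chart ring. -/
lemma exists_chart_val [Finite L] [Nonempty L] [NeZero h] (hQ : ∀ m, 1 ≤ m → Fr K (S.Q ^ m))
    (hF : Forest S.anc) (V : ValuationSubring K) (hvV : ∀ l i, S.v l i ∈ V) (N : ℕ)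
    (hND : ∀ T < N, S.ND h T) :
    ∃ X : Cht L R h, (∀ t < N, S.Good X t) ∧ ∀ t < N, ∀ z ∈ S.G X t, z ∈ V := by
  classical
  have hQ1 : Fr K S.Q := by simpa using hQ 1 le_rfl
  have l0 : L := Classical.arbitrary L
  induction N with
  | zero =>
    exact ⟨⟨fun _ _ _ => (l0, 0), fun _ _ => 0⟩, fun t ht => absurd ht (by omega),
      fun t ht => absurd ht (by omega)⟩
  | succ N ih =>
    obtain ⟨X, hX, hG⟩ := ih (fun T hT => hND T (by omega))
    have hwV : ∀ l i, S.w X N l i ∈ V := fun l i => st_mem hvV hF N hG l i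
    obtain ⟨c, d, h1, h2, h3⟩ := exists_chart_block (h := h) (V := V) (f := S.f N) hQ hwV
      (a := S.b X N) (top_block hQ1 hF (hND N (Nat.lt_succ_self N)) hX)
    obtain ⟨X', hX'⟩ : ∃ X' : Cht L R h, X' =
      ⟨fun t j i => if t = N then (if hi : S.β i = N then c j ⟨i, hi⟩ else (l0, 0)) else X.C t j i,
        fun t => if t = N then d else X.D t⟩ := ⟨_, rfl⟩
    have hC : ∀ r < N, S.c X r = S.c X' r := by
      intro r hr
      rw [hX']
      funext j i
      simp only [Sys.c, if_neg (show r ≠ N by omega)]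
    have hD : ∀ r < N, X.D r = X'.D r := by
      intro r hr
      rw [hX']
      simp only [if_neg (show r ≠ N by omega)]
    have hst := st_congr (S := S) hC hD N
    have hw : S.w X' N = S.w X N := by unfold Sys.w; rw [hst]
    have hb : S.b X' N = S.b X N := by unfold Sys.b; rw [hst]
    have hc : S.c X' N = c := by
      funext j i
      unfold Sys.c
      rw [hX']
      simp only [if_true]
      rw [dif_pos i.2]
    have hd : X'.D N = d := by
      rw [hX']
      simp
    refine ⟨X', ?_, ?_⟩
    · intro t ht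
      rcases Nat.lt_succ_iff_lt_or_eq.mp ht with h4 | rfl
      · exact good_congr (fun r hr => hC r (by omega)) (fun r hr => hD r (by omega)) (hX t h4)
      · refine ⟨?_, ?_⟩
        · rw [hb, hc, hd]; exact h1
        · rw [hw, hc]; exact h2
    · intro t ht z hz
      rcases Nat.lt_succ_iff_lt_or_eq.mp ht with h4 | rfl
      · rw [← G_congr (fun r hr => hC r (by omega)) (fun r hr => hD r (by omega))] at hz
        exact hG t h4 z hz
      · unfold Sys.G at hz
        rw [hb, hw, hc, hd] at hz
        rcases hz with ⟨⟨l, s⟩, rfl⟩ | ⟨-, rfl⟩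
        · exact h3 l s
        · apply pow_mem
          refine det_mem (E := V.toSubring) fun i s => ?_
          exact pow_mem (hwV _ _) _

end Val

end Pool.Agent.H15Par
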