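import Pool.Agent.Lib.Par_H15.One

/-! # Valuation rings: descent and finite generation -/

set_option autoImplicit false

open Pool.Agent.H15Model

namespace Pool.Agent.H15Par

section Descent

variable {K : Type} [Field K] {L R I : Type} [Fintype I] [DecidableEq I] {h : ℕ}
variable {Q : ℕ} {v : L → R → K} {a : L → ℕ} {c : ZMod h → I → L × ℕ} {d : L → ℕ} {f : I → R}

/-- Elements of the lattices generated by columns with entries in `V` have entries in `V`. -/
lemma lam_entry {V : ValuationSubring K} (i : R) (hi : ∀ l, v l i ∈ V)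
    {j : ZMod h} {w : R → K} (hw : w ∈ lam V.toSubring Q v a j) : w i ∈ V := by
  let N : Submodule V.toSubring (R → K) :=
    { carrier := {w | w i ∈ V}
      add_mem' := fun {x y} hx hy => add_mem (show x i ∈ V from hx) (show y i ∈ V from hy)
      zero_mem' := zero_mem V
      smul_mem' := fun z x hx => mul_mem z.2 (show x i ∈ V from hx) }
  have h1 : w ∈ N := by
    apply lam_le_of_cols (N := fun _ => N) _ _ hw
    · intro j w hw
      exact pow_mem (show w i ∈ V from hw) _
    · intro l
      exact hi l
  exact h1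

/-- If the coordinates and the reduced columns have entries in `V`, then so do the columns. -/
lemma descent [NeZero h] (hQ : Fr K Q) (V : ValuationSubring K) (hv : Valid a c d)
    (hc : ∀ j, (Dl Q v c f j).det ≠ 0)
    (hE : ∀ l s, co Q v c f (dg h a (l, d l)) (mon Q v (l, d l)) s ∈ V) (i : R)
    (hi : ∀ l, nx Q v a c d f l i ∈ V) (l : L) : v l i ∈ V := by
  have hco : ∀ l r s, co Q v c f (dg h a (l, r)) (mon Q v (l, r)) s ∈ V := fun l r s =>
    (main1 hQ hv hc (E := V.toSubring) hE l r).1 s
  have hrd : ∀ l r, rd Q v c f (dg h a (l, r)) (mon Q v (l, r)) i ∈ V := fun l r =>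
    lam_entry i hi (main1 hQ hv hc (E := V.toSubring) hE l r).2
  have heq : ∀ l r, mon Q v (l, r) i = rd Q v c f (dg h a (l, r)) (mon Q v (l, r)) i +
      ∑ s, co Q v c f (dg h a (l, r)) (mon Q v (l, r)) s *
        mon Q v (c (dg h a (l, r)) s) i := by
    intro l r
    have h1 := congrFun (eq_rd_add (Q := Q) (v := v) (c := c) (f := f) (dg h a (l, r))
      (mon Q v (l, r))) i
    simpa only [Pi.add_apply, Finset.sum_apply, Pi.smul_apply, smul_eq_mul] using h1
  have hbas : ∀ j t, mon Q v (c j t) i ∈ V := by
    rcases isEmpty_or_nonempty I with h0 | h0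
    · intro j t; exact h0.elim t
    obtain ⟨⟨j, t⟩, hmax⟩ := Finite.exists_max
      (fun x : ZMod h × I => V.valuation (mon Q v (c x.1 x.2) i))
    obtain ⟨y, hy⟩ : ∃ y, y = mon Q v (c j t) i := ⟨_, rfl⟩
    have hq : ∀ j' t', mon Q v (c j' t') i / y ∈ V := by
      intro j' t'
      rw [hy, ← ValuationSubring.valuation_le_one_iff, map_div₀]
      exact div_le_one_of_le₀ (hmax (j', t')) zero_le
    have hyV : y ∈ V := by
      by_contra hyn
      have hy0 : y ≠ 0 := by
        rintro h0
        rw [h0] at hyn
        exact hyn (zero_mem V)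
      have hyi : y⁻¹ ∈ V := (V.mem_or_inv_mem y).resolve_left hyn
      have h1 : y ^ Q = rd Q v c f (dg h a ((c j t).1, (c j t).2 + 1))
          (mon Q v ((c j t).1, (c j t).2 + 1)) i +
          ∑ s, co Q v c f (dg h a ((c j t).1, (c j t).2 + 1))
            (mon Q v ((c j t).1, (c j t).2 + 1)) s *
            mon Q v (c (dg h a ((c j t).1, (c j t).2 + 1)) s) i := by
        rw [← heq, mon_succ, hy]
        rfl
      have h2 : y ^ (Q - 1) ∈ V := by
        have h3 : y ^ (Q - 1) = y ^ Q * y⁻¹ := by
          have : Q = (Q - 1) + 1 := by have := hQ.two_le; omega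
          conv_rhs => rw [this, pow_succ]
          rw [mul_assoc, mul_inv_cancel₀ hy0, mul_one]
        rw [h3, h1, add_mul, Finset.sum_mul]
        refine add_mem (mul_mem (hrd _ _) hyi) (sum_mem fun s _ => ?_)
        rw [mul_assoc]
        exact mul_mem (hco _ _ _) (by rw [← div_eq_mul_inv]; exact hq _ _)
      -- `y` itself
      have h4 : y = y ^ (Q - 1) * (y⁻¹) ^ (Q - 2) := by
        have h5 : Q - 1 = (Q - 2) + 1 := by have := hQ.two_le; omega
        rw [h5, pow_succ, mul_comm (y ^ (Q - 2)) y, mul_assoc, ← mul_pow, mul_inv_cancel₀ hy0,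
          one_pow, mul_one]
      apply hyn
      rw [h4]
      exact mul_mem h2 (pow_mem hyi _)
    intro j' t'
    by_cases hy0 : y = 0
    · have h7 := hmax (j', t')
      simp only [← hy, hy0, map_zero] at h7
      have h8 : mon Q v (c j' t') i = 0 := by
        have := le_antisymm h7 zero_le
        rwa [map_eq_zero] at this
      rw [h8]; exact zero_mem V
    · have h6 := mul_mem (hq j' t') hyV
      rwa [div_mul_cancel₀ _ hy0] at h6
  have h9 : v l i = mon Q v (l, 0) i := by rw [mon_zero]
  rw [h9, heq l 0]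
  exact add_mem (hrd _ _) (sum_mem fun s _ => mul_mem (hco _ _ _) (hbas _ _))

end Descent

section FG

variable {K : Type} [Field K] {L R : Type} {Q : ℕ}

lemma lam_fg_aux [Finite L] (hQ : Fr K Q) (V : ValuationSubring K) :
    ∀ (N : ℕ) (S : Finset R) (_ : S.card = N) (v : L → R → K) (_ : ∀ l i, v l i ∈ V)
      (_ : ∀ l, ∀ i ∉ S, v l i = 0) (a : L → ℕ) (j : ZMod 1),
      (lam V.toSubring Q v a j).FG := by
  classical
  intro N
  induction N with
  | zero =>
    intro S hS v _ hv0 a j
    rw [Finset.card_eq_zero] at hS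
    have h1 : lam V.toSubring Q v a j = ⊥ := by
      unfold lam
      rw [Submodule.span_eq_bot]
      rintro _ ⟨x, -, rfl⟩
      funext i
      change v x.1 i ^ Q ^ x.2 = 0
      rw [hv0 x.1 i (by rw [hS]; simp), zero_pow (pow_ne_zero _ hQ.pos)]
    rw [h1]
    exact Submodule.fg_bot
  | succ N ih =>
    intro S hS v hvV hv0 a j
    obtain ⟨i0, hi0⟩ : S.Nonempty := by
      rw [← Finset.card_pos, hS]; omega
    have hcard : (S.erase i0).card = N := by
      rw [Finset.card_erase_of_mem hi0, hS]; rfl
    by_cases hz : ∀ l, v l i0 = 0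
    · apply ih (S.erase i0) hcard v hvV
      intro l i hi
      by_cases hii : i = i0
      · rw [hii]; exact hz l
      · exact hv0 l i (fun h1 => hi (Finset.mem_erase.mpr ⟨hii, h1⟩))
    push Not at hz
    obtain ⟨l2, hl2⟩ := hz
    have : Nonempty L := ⟨l2⟩
    obtain ⟨l1, hmax⟩ := Finite.exists_max (fun l => V.valuation (v l i0))
    have hx0 : v l1 i0 ≠ 0 := by
      intro h0
      have h1 := hmax l2
      rw [h0, map_zero] at h1
      have := le_antisymm h1 zero_le
      rw [map_eq_zero] at this
      exact hl2 this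
    have hq : ∀ l, v l i0 / v l1 i0 ∈ V := by
      intro l
      rw [← ValuationSubring.valuation_le_one_iff, map_div₀]
      exact div_le_one_of_le₀ (hmax l) zero_le
    obtain ⟨c, hcdef⟩ : ∃ c : ZMod 1 → Unit → L × ℕ, c = fun _ _ => (l1, 0) := ⟨_, rfl⟩
    obtain ⟨d, hd⟩ : ∃ d : L → ℕ, d = fun l => if l = l1 then 1 else 0 := ⟨_, rfl⟩
    obtain ⟨f, hf⟩ : ∃ f : Unit → R, f = fun _ => i0 := ⟨_, rfl⟩
    have hval : Valid a c d := by
      refine ⟨fun j t => ?_, fun j t => Subsingleton.elim _ _, fun l r hr => ⟨(), ?_⟩⟩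
      · rw [hcdef, hd]; simp
      · rw [hd] at hr
        rw [hcdef]
        by_cases hl : l = l1
        · simp only [hl, if_true] at hr
          have : r = 0 := by omega
          rw [hl, this]
        · simp only [hl, if_false] at hr
          omega
    have hm : ∀ j, mon Q v (c j ()) = v l1 := by
      intro j
      rw [hcdef]
      exact mon_zero l1
    have hdet : ∀ j, (Dl Q v c f j).det ≠ 0 := by
      intro j
      rw [Matrix.det_unique]
      change mon Q v (c j ()) (f ()) ≠ 0
      rw [hm, hf]
      exact hx0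
    have hco : ∀ j w, co Q v c f j w = fun _ => w i0 / v l1 i0 := by
      intro j w
      apply co_unique (hdet j)
      intro i
      have : f i = i0 := by rw [hf]
      rw [this]
      simp only [Finset.univ_unique, Finset.sum_singleton]
      change w i0 = w i0 / v l1 i0 * mon Q v (c j ()) i0
      rw [hm, div_mul_cancel₀ _ hx0]
    have hE : ∀ l s, co Q v c f (dg 1 a (l, d l)) (mon Q v (l, d l)) s ∈ V := by
      intro l s
      rw [hco]
      by_cases hl : l = l1
      · have h1 : d l = 1 := by rw [hd]; simp [hl]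
        change mon Q v (l, d l) i0 / v l1 i0 ∈ V
        rw [h1, hl]
        change v l1 i0 ^ Q ^ 1 / v l1 i0 ∈ V
        have h2 : v l1 i0 ^ Q ^ 1 / v l1 i0 = v l1 i0 ^ (Q - 1) := by
          rw [pow_one, div_eq_iff hx0, ← pow_succ]
          congr 1
          have := hQ.two_le; omega
        rw [h2]
        exact pow_mem (hvV _ _) _
      · have h1 : d l = 0 := by rw [hd]; simp [hl]
        change mon Q v (l, d l) i0 / v l1 i0 ∈ V
        rw [h1, mon_zero]
        exact hq l
    have hnxV : ∀ l i, nx Q v a c d f l i ∈ V := by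
      intro l i
      unfold nx
      rw [rd_apply]
      simp only [Pi.sub_apply, Finset.sum_apply, Pi.smul_apply, smul_eq_mul]
      refine sub_mem (pow_mem (hvV _ _) _) (sum_mem fun s _ => mul_mem (hE l s) ?_)
      exact pow_mem (hvV _ _) _
    have hnx0 : ∀ l, ∀ i ∉ S.erase i0, nx Q v a c d f l i = 0 := by
      intro l i hi
      by_cases hii : i = i0
      · have h1 := rd_block (hdet (dg 1 a (l, d l))) (mon Q v (l, d l)) ()
        have h2 : f () = i0 := by rw [hf]
        rw [h2] at h1
        rw [hii]; exact h1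
      · have hiS : i ∉ S := fun h1 => hi (Finset.mem_erase.mpr ⟨hii, h1⟩)
        have h1 : ∀ x : L × ℕ, mon Q v x i = 0 := by
          intro x
          change v x.1 i ^ Q ^ x.2 = 0
          rw [hv0 x.1 i hiS, zero_pow (pow_ne_zero _ hQ.pos)]
        unfold nx
        rw [rd_apply]
        simp only [Pi.sub_apply, Finset.sum_apply, Pi.smul_apply, smul_eq_mul, h1, mul_zero,
          Finset.sum_const_zero, sub_zero]
    have hfg := ih (S.erase i0) hcard _ hnxV hnx0 (na a d) j
    have heq : lam V.toSubring Q v a j = Submodule.span V.toSubring {v l1} ⊔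
        lam V.toSubring Q (nx Q v a c d f) (na a d) j := by
      apply le_antisymm
      · intro w hw
        obtain ⟨h1, h2⟩ := main2 hQ hval hdet (E := V.toSubring) hE hw
        rw [eq_rd_add (Q := Q) (v := v) (c := c) (f := f) j w]
        refine add_mem (Submodule.mem_sup_right h2) (Submodule.mem_sup_left ?_)
        refine sum_mem fun s _ => ?_
        have h3 : mon Q v (c j s) = v l1 := hm j
        rw [h3]
        exact Submodule.smul_mem _ (⟨_, h1 s⟩ : V.toSubring) (Submodule.mem_span_singleton_self _)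
      · refine sup_le ?_ ?_
        · rw [Submodule.span_singleton_le_iff_mem]
          have h1 := mon_mem_lam (v := v) (a := a) (h := 1) (Q := Q) V.toSubring (l1, 0)
          rw [mon_zero] at h1
          have h2 : dg 1 a (l1, 0) = j := Subsingleton.elim _ _
          rwa [h2] at h1
        · intro w hw
          exact lam_anti hQ hval (E := V.toSubring) hE hw
    rw [heq]
    exact (Submodule.fg_span_singleton _).sup hfg

/-- Lattices over valuation rings are finitely generated. -/
lemma lam_fg [Finite L] [Finite R] {h : ℕ} [NeZero h] (hQ : ∀ m, 1 ≤ m → Fr K (Q ^ m))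
    (V : ValuationSubring K) {v : L → R → K} (hvV : ∀ l i, v l i ∈ V) (a : L → ℕ) (j : ZMod h) :
    (lam V.toSubring Q v a j).FG := by
  classical
  have : Fintype R := Fintype.ofFinite R
  have hh : 1 ≤ h := Nat.one_le_iff_ne_zero.mpr (NeZero.ne h)
  obtain ⟨m, hm⟩ : ∃ m : L → ℕ, m = fun l => (j - (a l : ZMod h)).val := ⟨_, rfl⟩
  have hmj : ∀ l, ((a l + m l : ℕ) : ZMod h) = j := by
    intro l
    rw [hm]
    push_cast
    rw [ZMod.natCast_zmod_val]
    ring
  have hmlt : ∀ l, m l < h := by
    intro l
    rw [hm]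
    exact ZMod.val_lt _
  have hfg := lam_fg_aux (hQ h hh) V _ (Finset.univ : Finset R) rfl
    (fun l => mon Q v (l, m l)) (fun l i => pow_mem (hvV _ _) _)
    (fun l i hi => absurd (Finset.mem_univ i) hi) a 0
  have heq : lam V.toSubring Q v a j =
      lam V.toSubring (Q ^ h) (fun l => mon Q v (l, m l)) a (0 : ZMod 1) := by
    unfold lam
    congr 1
    ext w
    constructor
    · rintro ⟨⟨l, r⟩, hx, rfl⟩
      have h1 : ((r : ℕ) : ZMod h) = (m l : ZMod h) := by
        have h2 := hmj l
        unfold dg at hx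
        push_cast at h2 hx
        rw [← hx] at h2
        exact (add_left_cancel h2).symm
      have h2 : r % h = m l := by
        rw [ZMod.natCast_eq_natCast_iff'] at h1
        rw [h1, Nat.mod_eq_of_lt (hmlt l)]
      refine ⟨(l, r / h), Subsingleton.elim _ _, ?_⟩
      funext i
      change v l i ^ Q ^ r = (v l i ^ Q ^ m l) ^ (Q ^ h) ^ (r / h)
      rw [← pow_mul, ← pow_mul, ← pow_add, ← h2, Nat.mod_add_div]
    · rintro ⟨⟨l, r⟩, -, rfl⟩
      refine ⟨(l, m l + h * r), ?_, ?_⟩
      · unfold dg
        have := hmj l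
        push_cast at this ⊢
        simp only [CharP.cast_eq_zero, zero_mul, add_zero]
        exact this
      · funext i
        change (v l i ^ Q ^ m l) ^ (Q ^ h) ^ r = v l i ^ Q ^ (m l + h * r)
        rw [← pow_mul, ← pow_mul, ← pow_add]
  rw [heq]
  exact hfg

end FG

end Pool.Agent.H15Par
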